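import Mathlib

/-!
Definitions: CR submanifolds of `ℂⁿ` of class `C^k`, their Levi form, continuous CR maps, and the
Hölder classes on a submanifold.
-/

set_option autoImplicit false

open MeasureTheory Set Filter Topology
open scoped NNReal

namespace Pool.Agent.H486Z.CR

/-- `ℂⁿ` -/
abbrev Cn (n : ℕ) : Type := Fin n → ℂ

variable {n : ℕ}

/-- The real tangent space `T_z M`: the span of the tangent cone of `M` at `z`. -/
noncomputable def tangent (M : Set (Cn n)) (z : Cn n) : Submodule ℝ (Cn n) :=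
  Submodule.span ℝ (tangentConeAt ℝ M z)

/-- The complex tangent space `T^c_z M = T_z M ∩ i T_z M`. -/
noncomputable def cTangent (M : Set (Cn n)) (z : Cn n) : Submodule ℝ (Cn n) :=
  tangent M z ⊓
    Submodule.map ((LinearMap.lsmul ℂ (Cn n) Complex.I).restrictScalars ℝ) (tangent M z)

/-- `N_z M = T_z M / T^c_z M`. -/
abbrev Normal (M : Set (Cn n)) (z : Cn n) : Type :=
  tangent M z ⧸ (cTangent M z).submoduleOf (tangent M z)

/-- `M` is an embedded real submanifold of class `C^k` of `ℂⁿ` (locally the zero set of a `C^k`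
submersion) whose complex tangent spaces all have complex dimension `m`. -/
def IsCRSubmanifold (k : ℕ∞) (m : ℕ) (M : Set (Cn n)) : Prop :=
  (∀ p ∈ M, ∃ (d : ℕ) (U : Set (Cn n)) (ρ : Cn n → (Fin d → ℝ)), IsOpen U ∧ p ∈ U ∧
      ContDiffOn ℝ (k : WithTop ℕ∞) ρ U ∧ (∀ z ∈ U, Function.Surjective (fderiv ℝ ρ z)) ∧
      M ∩ U = {z ∈ U | ρ z = 0}) ∧
    ∀ z ∈ M, Module.finrank ℝ (cTangent M z) = 2 * m

/-- `X` is a `C¹` vector field near `z` whose values along `M` are complex tangent to `M`. -/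
def IsCField (M : Set (Cn n)) (z : Cn n) (X : Cn n → Cn n) : Prop :=
  ContDiffAt ℝ 1 X z ∧ X z ∈ cTangent M z ∧ ∀ᶠ q in 𝓝[M] z, X q ∈ cTangent M q

/-- `L` is the Levi form `v ↦ L_z(v, v)` of `M` at `z`: every complex tangent vector extends to a
complex tangent field `X`, and for every such field the bracket `[X, iX]` at `z` is tangent to `M`
and its class in `N_z M` is `L (X z)`. -/
def IsLeviForm (M : Set (Cn n)) (z : Cn n) (L : Cn n → Normal M z) : Prop :=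
  (∀ v ∈ cTangent M z, ∃ X, IsCField M z X ∧ X z = v) ∧
    ∀ X, IsCField M z X →
      ∃ h : VectorField.lieBracket ℝ X (fun q => Complex.I • X q) z ∈ tangent M z,
        L (X z) = Submodule.Quotient.mk ⟨_, h⟩

/-- The standing Levi condition. -/
def LeviCondition (M : Set (Cn n)) : Prop :=
  ∀ z ∈ M, ∃ L : Cn n → Normal M z, IsLeviForm M z L ∧
    (∃ Γ : Set (Normal M z), IsClosed Γ ∧ Convex ℝ Γ ∧ (∀ x ∈ Γ, ∀ t : ℝ, 0 ≤ t → t • x ∈ Γ) ∧
      (∀ x ∈ Γ, -x ∈ Γ → x = 0) ∧ ∀ v ∈ cTangent M z, v ≠ 0 → L v ∈ interior Γ) ∧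
    (interior (convexHull ℝ (L '' {v | v ∈ cTangent M z ∧ v ≠ 0}))).Nonempty

/-- The divergence of a vector field on `ℝ^d`. -/
noncomputable def div {d : ℕ} (a : (Fin d → ℝ) → (Fin d → ℝ)) (x : Fin d → ℝ) : ℝ :=
  ∑ j : Fin d, fderiv ℝ a x (Pi.single j 1) j

/-- `φ` satisfies the tangential Cauchy-Riemann equations on `M` in the sense of distributions:
in every `C¹` parametrisation `Φ : U → M` (in particular in every chart) and for all compactly
supported `C¹` fields `a`, `b` on `U` with `dΦ(b) = i dΦ(a)`, that is, `a + i b` represents a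
`(0,1)` field times a test function, the transposed operator pairs to zero with `φ ∘ Φ`. -/
def IsCRFunction (M : Set (Cn n)) (φ : Cn n → ℂ) : Prop :=
  ∀ (d : ℕ) (U : Set (Fin d → ℝ)) (Φ : (Fin d → ℝ) → Cn n) (a b : (Fin d → ℝ) → (Fin d → ℝ)),
    IsOpen U → ContDiffOn ℝ 1 Φ U → MapsTo Φ U M → ContDiff ℝ 1 a → ContDiff ℝ 1 b →
    HasCompactSupport a → HasCompactSupport b → tsupport a ⊆ U → tsupport b ⊆ U →
    (∀ x ∈ U, fderiv ℝ Φ x (b x) = Complex.I • fderiv ℝ Φ x (a x)) →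
    ∫ x, φ (Φ x) * ((div a x : ℂ) + Complex.I * (div b x : ℂ)) = 0

/-- `f` is a continuous CR mapping from `M₁` to `M₂`. -/
def IsCRMap (M₁ M₂ : Set (Cn n)) (f : Cn n → Cn n) : Prop :=
  MapsTo f M₁ M₂ ∧ ContinuousOn f M₁ ∧ ∀ i : Fin n, IsCRFunction M₁ (fun z => f z i)

/-- `f` is of Hölder class `C^s` on `M`: near each point of `M` it agrees on `M` with a map of
class `C^j`, `j = ⌊s⌋`, whose `j`-th derivative is Hölder of exponent `s - j`. -/
def HolderClass (s : ℝ) (M : Set (Cn n)) (f : Cn n → Cn n) : Prop :=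
  ∀ p ∈ M, ∃ (U : Set (Cn n)) (F : Cn n → Cn n) (C : ℝ≥0), IsOpen U ∧ p ∈ U ∧
    ContDiffOn ℝ ((⌊s⌋₊ : ℕ) : WithTop ℕ∞) F U ∧
    HolderOnWith C (Real.toNNReal (s - (⌊s⌋₊ : ℕ))) (iteratedFDeriv ℝ ⌊s⌋₊ F) U ∧
    EqOn F f (M ∩ U)

/-- `f ∈ C^{k - 1/2 - 0}` on `M`: for finite `k`, `f ∈ C^{k - 1/2 - ε}` for all small `ε > 0`;
for `k = ∞`, `f ∈ C^∞`. -/
def Regular (k : ℕ∞) (M : Set (Cn n)) (f : Cn n → Cn n) : Prop :=
  (∀ j : ℕ, k = j → ∀ ε : ℝ, 0 < ε → ε < j - 1 / 2 → HolderClass (j - 1 / 2 - ε) M f) ∧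
    (k = ⊤ → ∀ p ∈ M, ∃ (U : Set (Cn n)) (F : Cn n → Cn n), IsOpen U ∧ p ∈ U ∧
      ContDiffOn ℝ ((⊤ : ℕ∞) : WithTop ℕ∞) F U ∧ EqOn F f (M ∩ U))

/-- The product of the unit spheres of `ℂ²` and `ℂ^N`, inside `ℂ^{2+N}`. -/
def sphereProd (N : ℕ) : Set (Cn (2 + N)) :=
  {z | ∑ i : Fin 2, ‖z (Fin.castAdd N i)‖ ^ 2 = 1 ∧ ∑ i : Fin N, ‖z (Fin.natAdd 2 i)‖ ^ 2 = 1}

end Pool.Agent.H486Z.CR
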