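import Mathlib
import Pool.Agent.H486Z.CRDefs

set_option autoImplicit false

open MeasureTheory Set Filter Topology

namespace Pool.Agent.H486Z.CR

variable {n : ℕ}

theorem cont_mul_of_tsupport {d : ℕ} {U : Set (Fin d → ℝ)} (hU : IsOpen U)
    {u g : (Fin d → ℝ) → ℂ} (hu : ContinuousOn u U) (hg : Continuous g) (hs : tsupport g ⊆ U) :
    Continuous (fun x => u x * g x) := by
  rw [continuous_iff_continuousAt]
  intro x
  by_cases hx : x ∈ U
  · exact (hu.continuousAt (hU.mem_nhds hx)).mul hg.continuousAt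
  · have h1 : x ∉ tsupport g := fun h => hx (hs h)
    have h2 : g =ᶠ[𝓝 x] 0 := notMem_tsupport_iff_eventuallyEq.1 h1
    have h3 : (fun x => u x * g x) =ᶠ[𝓝 x] fun _ => 0 := by
      filter_upwards [h2] with y hy
      rw [hy]; simp
    exact continuousAt_const.congr h3.symm

theorem integrable_mul_of_tsupport {d : ℕ} {U : Set (Fin d → ℝ)} (hU : IsOpen U)
    {u g : (Fin d → ℝ) → ℂ} (hu : ContinuousOn u U) (hg : Continuous g) (hs : tsupport g ⊆ U)
    (hc : HasCompactSupport g) : Integrable (fun x => u x * g x) :=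
  (cont_mul_of_tsupport hU hu hg hs).integrable_of_hasCompactSupport hc.mul_left

/-- The complex coefficient of the field `a + i b`. -/
noncomputable def cf {d : ℕ} (a b : (Fin d → ℝ) → (Fin d → ℝ)) (j : Fin d) (x : Fin d → ℝ) : ℂ :=
  (a x j : ℂ) + Complex.I * (b x j : ℂ)

theorem cf_contDiff {d : ℕ} {a b : (Fin d → ℝ) → (Fin d → ℝ)} (ha : ContDiff ℝ 1 a)
    (hb : ContDiff ℝ 1 b) (j : Fin d) : ContDiff ℝ 1 (cf a b j) := by
  unfold cf
  exact (Complex.ofRealCLM.contDiff.comp (contDiff_pi.1 ha j)).add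
    (contDiff_const.mul (Complex.ofRealCLM.contDiff.comp (contDiff_pi.1 hb j)))

theorem cf_tsupport {d : ℕ} (a b : (Fin d → ℝ) → (Fin d → ℝ)) (j : Fin d) :
    tsupport (cf a b j) ⊆ tsupport a ∪ tsupport b := by
  apply closure_minimal _ ((isClosed_tsupport a).union (isClosed_tsupport b))
  intro x hx
  by_contra hcon
  rw [mem_union, not_or] at hcon
  apply hx
  unfold cf
  rw [image_eq_zero_of_notMem_tsupport hcon.1, image_eq_zero_of_notMem_tsupport hcon.2]
  simp

theorem div_eq {d : ℕ} {a b : (Fin d → ℝ) → (Fin d → ℝ)} (ha : ContDiff ℝ 1 a)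
    (hb : ContDiff ℝ 1 b) (x : Fin d → ℝ) :
    ((div a x : ℂ) + Complex.I * (div b x : ℂ)) = ∑ j, fderiv ℝ (cf a b j) x (Pi.single j 1) := by
  unfold div
  push_cast
  rw [Finset.mul_sum, ← Finset.sum_add_distrib]
  refine Finset.sum_congr rfl fun j _ => ?_
  have h1 := hasFDerivAt_pi'.1 (ha.differentiable one_ne_zero x).hasFDerivAt j
  have h2 := hasFDerivAt_pi'.1 (hb.differentiable one_ne_zero x).hasFDerivAt j
  have h3 : HasFDerivAt (cf a b j) _ x := (Complex.ofRealCLM.hasFDerivAt.comp x h1).add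
    ((Complex.ofRealCLM.hasFDerivAt.comp x h2).const_mul Complex.I)
  rw [h3.fderiv]
  simp

theorem isCRFunction_of_entire (M : Set (Cn n)) (h : Cn n → ℂ) (hh : Differentiable ℂ h)
    (hc : ContDiff ℝ 1 h) : IsCRFunction M h := by
  intro d U Φ a b hU hΦ _ ha hb hca hcb hsa hsb hab
  have hu : ContDiffOn ℝ 1 (fun x => h (Φ x)) U := hc.comp_contDiffOn hΦ
  have hud : ∀ x ∈ U, DifferentiableAt ℝ (fun x => h (Φ x)) x := fun x hx =>
    (hu.contDiffAt (hU.mem_nhds hx)).differentiableAt one_ne_zero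
  have hu' : ContinuousOn (fderiv ℝ (fun x => h (Φ x))) U :=
    hu.continuousOn_fderiv_of_isOpen hU le_rfl
  have hs : ∀ j, tsupport (cf a b j) ⊆ U := fun j =>
    (cf_tsupport a b j).trans (union_subset hsa hsb)
  have hcs : ∀ j, HasCompactSupport (cf a b j) := fun j =>
    (hca.union hcb).of_isClosed_subset (isClosed_tsupport _) (cf_tsupport a b j)
  have hcf := cf_contDiff ha hb
  have hi1 : ∀ j, Integrable
      (fun x => fderiv ℝ (fun x => h (Φ x)) x (Pi.single j 1) * cf a b j x) := fun j =>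
    integrable_mul_of_tsupport hU (hu'.clm_apply continuousOn_const) (hcf j).continuous (hs j)
      (hcs j)
  have hi2 : ∀ j, Integrable
      (fun x => h (Φ x) * fderiv ℝ (cf a b j) x (Pi.single j 1)) := fun j =>
    integrable_mul_of_tsupport hU hu.continuousOn
      (((hcf j).continuous_fderiv one_ne_zero).clm_apply continuous_const)
      ((tsupport_fderiv_apply_subset ℝ _).trans (hs j)) ((hcs j).fderiv_apply ℝ _)
  have hi3 : ∀ j, Integrable (fun x => h (Φ x) * cf a b j x) := fun j =>
    integrable_mul_of_tsupport hU hu.continuousOn (hcf j).continuous (hs j) (hcs j)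
  simp only [div_eq ha hb, Finset.mul_sum]
  rw [integral_finset_sum _ (fun j _ => hi2 j)]
  have hparts : ∀ j, ∫ x, h (Φ x) * fderiv ℝ (cf a b j) x (Pi.single j 1)
      = -∫ x, fderiv ℝ (fun x => h (Φ x)) x (Pi.single j 1) * cf a b j x := fun j =>
    integral_mul_fderiv_eq_neg_fderiv_mul_of_integrable (hi1 j) (hi2 j) (hi3 j)
      (fun x hx => hud x (hs j hx)) (fun x _ => (hcf j).differentiable one_ne_zero x)
  simp only [hparts]
  rw [Finset.sum_neg_distrib, ← integral_finset_sum _ (fun j _ => hi1 j), neg_eq_zero]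
  have hz : ∀ x, ∑ j, fderiv ℝ (fun x => h (Φ x)) x (Pi.single j 1) * cf a b j x = 0 := by
    intro x
    by_cases hx : x ∈ U
    · have e : ∀ w : Fin d → ℝ, ∑ j, fderiv ℝ (fun x => h (Φ x)) x (Pi.single j 1) * (w j : ℂ)
          = fderiv ℝ (fun x => h (Φ x)) x w := by
        intro w
        conv_rhs => rw [pi_eq_sum_univ' w, map_sum]
        refine Finset.sum_congr rfl fun j _ => ?_
        rw [map_smul, Complex.real_smul, mul_comm]
      have e2 : ∑ j, fderiv ℝ (fun x => h (Φ x)) x (Pi.single j 1) * cf a b j x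
          = fderiv ℝ (fun x => h (Φ x)) x (a x)
            + Complex.I * fderiv ℝ (fun x => h (Φ x)) x (b x) := by
        rw [← e, ← e, Finset.mul_sum, ← Finset.sum_add_distrib]
        refine Finset.sum_congr rfl fun j _ => ?_
        unfold cf
        ring
      have hΦd : DifferentiableAt ℝ Φ x :=
        (hΦ.contDiffAt (hU.mem_nhds hx)).differentiableAt one_ne_zero
      have e3 : HasFDerivAt (fun x => h (Φ x))
          (((fderiv ℂ h (Φ x)).restrictScalars ℝ).comp (fderiv ℝ Φ x)) x :=
        ((hh (Φ x)).hasFDerivAt.restrictScalars ℝ).comp x hΦd.hasFDerivAt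
      rw [e2, e3.fderiv]
      simp only [ContinuousLinearMap.comp_apply, ContinuousLinearMap.coe_restrictScalars',
        hab x hx, map_smul, smul_eq_mul]
      rw [← mul_assoc, Complex.I_mul_I]
      ring
    · refine Finset.sum_eq_zero fun j _ => ?_
      rw [image_eq_zero_of_notMem_tsupport (fun h => hx (hs j h)), mul_zero]
  simp [hz]

theorem isCRFunction_of_limit (M : Set (Cn n)) (h : ℕ → Cn n → ℂ) (φ : Cn n → ℂ)
    (hh : ∀ j, IsCRFunction M (h j)) (hc : ∀ j, Continuous (h j))
    (hlim : TendstoUniformlyOn h φ atTop M) : IsCRFunction M φ := by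
  intro d U Φ a b hU hΦ hM ha hb hca hcb hsa hsb hab
  have hφc : ContinuousOn φ M :=
    hlim.continuousOn (Eventually.of_forall fun j => (hc j).continuousOn).frequently
  set g : (Fin d → ℝ) → ℂ := fun x => (div a x : ℂ) + Complex.I * (div b x : ℂ) with hg
  have hg' : g = fun x => ∑ j, fderiv ℝ (cf a b j) x (Pi.single j 1) := funext (div_eq ha hb)
  have hcf := cf_contDiff ha hb
  have hgc : Continuous g := by
    rw [hg']
    exact continuous_finset_sum _ fun j _ =>
      ((hcf j).continuous_fderiv one_ne_zero).clm_apply continuous_const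
  have hgs : tsupport g ⊆ tsupport a ∪ tsupport b := by
    apply closure_minimal _ ((isClosed_tsupport a).union (isClosed_tsupport b))
    intro x hx
    by_contra hcon
    apply hx
    rw [hg']
    refine Finset.sum_eq_zero fun j _ => ?_
    exact image_eq_zero_of_notMem_tsupport (f := fun x => fderiv ℝ (cf a b j) x (Pi.single j 1))
      (fun h => hcon ((cf_tsupport a b j) (tsupport_fderiv_apply_subset ℝ _ h)))
  have hgU : tsupport g ⊆ U := hgs.trans (union_subset hsa hsb)
  have hgk : HasCompactSupport g := (hca.union hcb).of_isClosed_subset (isClosed_tsupport _) hgs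
  have hi1 : Integrable (fun x => φ (Φ x) * g x) :=
    integrable_mul_of_tsupport hU (hφc.comp hΦ.continuousOn hM) hgc hgU hgk
  have hi2 : ∀ j, Integrable (fun x => h j (Φ x) * g x) := fun j =>
    integrable_mul_of_tsupport hU ((hc j).comp_continuousOn hΦ.continuousOn) hgc hgU hgk
  have hi3 : Integrable (fun x => ‖g x‖) := (hgc.integrable_of_hasCompactSupport hgk).norm
  show ∫ x, φ (Φ x) * g x = 0
  have hbd : ∀ η : ℝ, 0 < η → ‖∫ x, φ (Φ x) * g x‖ ≤ η * ∫ x, ‖g x‖ := by
    intro η hη
    obtain ⟨j, hj⟩ := (Metric.tendstoUniformlyOn_iff.1 hlim η hη).exists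
    have h0 : ∫ x, h j (Φ x) * g x = 0 := hh j d U Φ a b hU hΦ hM ha hb hca hcb hsa hsb hab
    rw [← sub_zero (∫ x, φ (Φ x) * g x), ← h0, ← integral_sub hi1 (hi2 j), ← integral_const_mul]
    apply norm_integral_le_of_norm_le (hi3.const_mul η)
    refine Eventually.of_forall fun x => ?_
    rw [← sub_mul, norm_mul]
    by_cases hx : x ∈ U
    · have := hj (Φ x) (hM hx)
      rw [dist_eq_norm] at this
      exact mul_le_mul_of_nonneg_right this.le (norm_nonneg _)
    · rw [image_eq_zero_of_notMem_tsupport (fun h => hx (hgU h))]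
      simp
  rw [← norm_le_zero_iff]
  have hI : 0 ≤ ∫ x, ‖g x‖ := integral_nonneg fun _ => norm_nonneg _
  apply le_of_forall_pos_le_add
  intro η hη
  have := hbd (η / (1 + ∫ x, ‖g x‖)) (by positivity)
  refine this.trans ?_
  rw [zero_add, div_mul_eq_mul_div, div_le_iff₀ (by positivity)]
  nlinarith

end Pool.Agent.H486Z.CR
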