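import Mathlib
import Pool.Agent.H486Z.CRDefs

set_option autoImplicit false

open MeasureTheory Set Filter Topology
open scoped ComplexConjugate

namespace Pool.Agent.H486Z.CR

variable {n : ℕ}

theorem fderiv_vanish {F : Type} [NormedAddCommGroup F] [NormedSpace ℝ F] {M : Set (Cn n)}
    {z : Cn n} {φ : Cn n → F} {φ' : Cn n →L[ℝ] F} {c : F} (hφ : HasFDerivAt φ φ' z)
    (h1 : ∀ᶠ q in 𝓝[M] z, φ q = c) (h2 : φ z = c) : ∀ v ∈ tangent M z, φ' v = 0 := by
  have h3 : HasFDerivWithinAt φ (0 : Cn n →L[ℝ] F) M z :=
    (hasFDerivWithinAt_const c z M).congr_of_eventuallyEq h1 h2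
  have h4 := hφ.hasFDerivWithinAt.unique_on h3
  have : tangent M z ≤ LinearMap.ker (φ' : Cn n →ₗ[ℝ] F) := by
    unfold tangent
    rw [Submodule.span_le]
    intro v hv
    exact h4 hv
  intro v hv
  exact this hv

theorem mem_tangent_of_curve {M : Set (Cn n)} {z v : Cn n} {γ : ℝ → Cn n} (h0 : γ 0 = z)
    (hM : ∀ t, γ t ∈ M) (hd : HasDerivAt γ v 0) : v ∈ tangent M z := by
  apply Submodule.subset_span
  refine mem_tangentConeAt_of_seq (𝓝[≠] (0 : ℝ)) (fun t => t⁻¹) (fun t => γ t - z) ?_ ?_ ?_
  · have := hd.continuousAt.tendsto.sub_const z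
    rw [h0, sub_self] at this
    exact this.mono_left nhdsWithin_le_nhds
  · exact Eventually.of_forall fun t => by simpa using hM t
  · have := hd.tendsto_slope_zero
    simpa [h0] using this

/-- The Hermitian product of the coordinates in the block `b`. -/
noncomputable def hm (β : Fin n → Fin 2) (b : Fin 2) (u v : Cn n) : ℂ :=
  ∑ i ∈ Finset.univ.filter (fun i => β i = b), u i * conj (v i)

/-- The product of the two unit spheres given by the blocks. -/
def MB (β : Fin n → Fin 2) : Set (Cn n) := {z | ∀ b, hm β b z z = 1}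

variable (β : Fin n → Fin 2)

theorem hm_add (b : Fin 2) (u u' v : Cn n) : hm β b (u + u') v = hm β b u v + hm β b u' v := by
  simp [hm, add_mul, Finset.sum_add_distrib]

theorem hm_sub (b : Fin 2) (u u' v : Cn n) : hm β b (u - u') v = hm β b u v - hm β b u' v := by
  simp [hm, sub_mul, Finset.sum_sub_distrib]

theorem hm_smul (b : Fin 2) (c : ℂ) (u v : Cn n) : hm β b (c • u) v = c * hm β b u v := by
  simp [hm, Finset.mul_sum, mul_assoc]

theorem hm_rsmul (b : Fin 2) (c : ℝ) (u v : Cn n) : hm β b (c • u) v = c * hm β b u v := by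
  simp [hm, Finset.mul_sum, mul_assoc]

theorem hm_conj (b : Fin 2) (u v : Cn n) : hm β b v u = conj (hm β b u v) := by
  simp [hm, mul_comm]

theorem hm_self (b : Fin 2) (u : Cn n) :
    hm β b u u = ((∑ i ∈ Finset.univ.filter (fun i => β i = b), ‖u i‖ ^ 2 : ℝ) : ℂ) := by
  simp [hm, Complex.mul_conj, Complex.normSq_eq_norm_sq]

theorem hm_self_re (b : Fin 2) (u : Cn n) : hm β b u u = ((hm β b u u).re : ℂ) := by
  rw [hm_self, Complex.ofReal_re]

theorem hm_self_nonneg (b : Fin 2) (u : Cn n) : 0 ≤ (hm β b u u).re := by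
  rw [hm_self, Complex.ofReal_re]
  exact Finset.sum_nonneg fun _ _ => by positivity

theorem hm_block (b : Fin 2) (w : Fin 2 → ℂ) (u v : Cn n) :
    hm β b (fun i => w (β i) * u i) v = w b * hm β b u v := by
  unfold hm
  rw [Finset.mul_sum]
  refine Finset.sum_congr rfl fun i hi => ?_
  show w (β i) * u i * conj (v i) = _
  rw [(Finset.mem_filter.1 hi).2, mul_assoc]

theorem hm_deriv {E : Type} [NormedAddCommGroup E] [NormedSpace ℝ E] (b : Fin 2)
    {X Y : E → Cn n} {X' Y' : E →L[ℝ] Cn n} {z : E}
    (hX : HasFDerivAt X X' z) (hY : HasFDerivAt Y Y' z) :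
    ∃ φ' : E →L[ℝ] ℂ, HasFDerivAt (fun q => hm β b (X q) (Y q)) φ' z ∧
      ∀ w, φ' w = hm β b (X' w) (Y z) + hm β b (X z) (Y' w) := by
  have hXi := fun i => hasFDerivAt_pi'.1 hX i
  have hYi := fun i => Complex.conjCLE.toContinuousLinearMap.hasFDerivAt.comp z
    (hasFDerivAt_pi'.1 hY i)
  refine ⟨_, HasFDerivAt.fun_sum (u := Finset.univ.filter (fun i => β i = b))
    (fun i _ => (hXi i).fun_mul (hYi i)), fun w => ?_⟩
  simp only [hm, ContinuousLinearMap.sum_apply, ← Finset.sum_add_distrib]
  refine Finset.sum_congr rfl fun i _ => ?_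
  simp
  ring

theorem hm_contDiff (b : Fin 2) {k : WithTop ℕ∞} {X Y : Cn n → Cn n} (hX : ContDiff ℝ k X)
    (hY : ContDiff ℝ k Y) : ContDiff ℝ k (fun q => hm β b (X q) (Y q)) := by
  unfold hm
  refine ContDiff.sum fun i _ => ?_
  exact (contDiff_pi.1 hX i).mul (Complex.conjCLE.contDiff.comp (contDiff_pi.1 hY i))

theorem mem_tangent_MB {z : Cn n} (hz : z ∈ MB β) (v : Cn n) :
    v ∈ tangent (MB β) z ↔ ∀ b, (hm β b v z).re = 0 := by
  constructor
  · intro hv b
    obtain ⟨φ', h1, h2⟩ := hm_deriv β b (hasFDerivAt_id z) (hasFDerivAt_id z)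
    have h3 := fderiv_vanish (M := MB β) (c := 1) h1
      (eventually_nhdsWithin_of_forall fun q hq => hq b) (hz b) v hv
    rw [h2] at h3
    simp only [ContinuousLinearMap.id_apply, id] at h3
    rw [hm_conj β b v z] at h3
    have h4 := congrArg Complex.re h3
    simp only [Complex.add_re, Complex.conj_re, Complex.zero_re] at h4
    linarith
  · intro hv
    let c : Fin 2 → ℝ → ℝ := fun b t => (√(1 + t ^ 2 * (hm β b v v).re))⁻¹
    have hpos : ∀ b (t : ℝ), 0 < 1 + t ^ 2 * (hm β b v v).re := fun b t => by
      have := hm_self_nonneg β b v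
      positivity
    have hc0 : ∀ b, c b 0 = 1 := fun b => by simp [c]
    have hcd : ∀ b, HasDerivAt (c b) 0 0 := by
      intro b
      have h1 : HasDerivAt (fun t : ℝ => 1 + t ^ 2 * (hm β b v v).re) 0 0 := by
        simpa using ((hasDerivAt_pow 2 (0 : ℝ)).mul_const (hm β b v v).re).const_add 1
      have h2 := (h1.sqrt (hpos b 0).ne').inv (Real.sqrt_pos.2 (hpos b 0)).ne'
      refine HasDerivAt.congr_deriv h2 ?_
      simp
    refine mem_tangent_of_curve (γ := fun t i => ((c (β i) t : ℝ) : ℂ) * (z + t • v) i) ?_ ?_ ?_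
    · funext i
      simp [hc0]
    · intro t b
      rw [hm_block β b (fun b => ((c b t : ℝ) : ℂ)), hm_conj,
        hm_block β b (fun b => ((c b t : ℝ) : ℂ))]
      have e : hm β b (z + t • v) (z + t • v) = ((1 + t ^ 2 * (hm β b v v).re : ℝ) : ℂ) := by
        rw [hm_add, hm_rsmul, hm_conj β b (z + t • v) z, hm_conj β b (z + t • v) v, hm_add, hm_add,
          hm_rsmul, hm_rsmul, hz b, hm_conj β b v z, hm_self_re β b v]
        apply Complex.ext
        · simp [hv b, pow_two]
          ring
        · simp [pow_two]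
      rw [e]
      simp only [map_mul, Complex.conj_ofReal]
      rw [← Complex.ofReal_mul, ← Complex.ofReal_mul, ← mul_assoc, ← pow_two]
      simp only [c]
      rw [inv_pow, Real.sq_sqrt (hpos b t).le, inv_mul_cancel₀ (hpos b t).ne']
      simp
    · rw [hasDerivAt_pi]
      intro i
      have h1 : HasDerivAt (fun t : ℝ => (z + t • v) i) (v i) 0 := by
        simpa using ((hasDerivAt_id (0 : ℝ)).smul_const (v i)).const_add (z i)
      have h2 := ((hcd (β i)).ofReal_comp).mul h1
      refine HasDerivAt.congr_deriv h2 ?_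
      simp [hc0]

theorem mem_cTangent_MB {z : Cn n} (hz : z ∈ MB β) (v : Cn n) :
    v ∈ cTangent (MB β) z ↔ ∀ b, hm β b v z = 0 := by
  unfold cTangent
  rw [Submodule.mem_inf, Submodule.mem_map, mem_tangent_MB β hz]
  constructor
  · rintro ⟨h1, w, hw, rfl⟩ b
    rw [mem_tangent_MB β hz] at hw
    have e : (((LinearMap.lsmul ℂ (Cn n) Complex.I).restrictScalars ℝ) w) = Complex.I • w := rfl
    rw [e] at h1 ⊢
    have h2 := h1 b
    rw [hm_smul] at h2 ⊢
    have h3 := hw b
    apply Complex.ext
    · exact h2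
    · simp [h3]
  · intro h
    refine ⟨fun b => by rw [h b]; rfl, (-Complex.I) • v, ?_, ?_⟩
    · rw [mem_tangent_MB β hz]
      intro b
      rw [hm_smul, h b]
      simp
    · show Complex.I • ((-Complex.I) • v) = v
      rw [smul_smul]
      simp

theorem isCRSub_MB (k : ℕ∞) (m : ℕ) (hm2 : n = 2 + m) : IsCRSubmanifold k m (MB β) := by
  constructor
  · intro p hp
    have hcd : ∀ b, ContDiff ℝ (k : WithTop ℕ∞) (fun q : Cn n => (hm β b q q).re) := fun b =>
      Complex.reCLM.contDiff.comp (hm_contDiff β b contDiff_id contDiff_id)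
    refine ⟨2, {z | ∀ b, 0 < (hm β b z z).re}, fun z b => (hm β b z z).re - 1, ?_, ?_, ?_, ?_, ?_⟩
    · simp only [setOf_forall]
      exact isOpen_iInter_of_finite fun b => isOpen_lt continuous_const (hcd b).continuous
    · intro b
      rw [hp b]
      simp
    · exact (contDiff_pi.2 fun b => (hcd b).sub contDiff_const).contDiffOn
    · intro z hz w
      choose φ' h1 h2 using fun b => hm_deriv β b (hasFDerivAt_id z) (hasFDerivAt_id z)
      have h3 : HasFDerivAt (fun z : Cn n => fun b => (hm β b z z).re - 1)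
          (ContinuousLinearMap.pi fun b => Complex.reCLM.comp (φ' b)) z :=
        hasFDerivAt_pi.2 fun b => (Complex.reCLM.hasFDerivAt.comp z (h1 b)).sub_const 1
      refine ⟨fun i => ((w (β i) / (2 * (hm β (β i) z z).re) : ℝ) : ℂ) * z i, ?_⟩
      rw [h3.fderiv]
      funext b
      simp only [ContinuousLinearMap.pi_apply, ContinuousLinearMap.comp_apply, h2,
        ContinuousLinearMap.id_apply, id, Complex.reCLM_apply]
      rw [hm_conj β b _ z, hm_block β b (fun b => ((w b / (2 * (hm β b z z).re) : ℝ) : ℂ))]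
      have := (hz b).ne'
      simp only [Complex.add_re, Complex.conj_re, Complex.re_ofReal_mul]
      field_simp
      ring
    · ext z
      simp only [mem_inter_iff, mem_setOf_eq, MB]
      constructor
      · rintro ⟨h1, h2⟩
        refine ⟨h2, ?_⟩
        funext b
        rw [h1 b]
        simp
      · rintro ⟨h1, h2⟩
        refine ⟨fun b => ?_, h1⟩
        have := congrFun h2 b
        simp only [Pi.zero_apply] at this
        rw [hm_self_re, show (hm β b z z).re = 1 by linarith]
        simp
  · intro z hz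
    let Λ : Cn n →ₗ[ℝ] (Fin 2 → ℂ) :=
      { toFun := fun v b => hm β b v z
        map_add' := fun u v => funext fun b => hm_add β b u v z
        map_smul' := fun c u => funext fun b => by simp [hm_rsmul] }
    have hker : cTangent (MB β) z = LinearMap.ker Λ := by
      ext v
      rw [mem_cTangent_MB β hz, LinearMap.mem_ker, funext_iff]
      rfl
    have hran : LinearMap.range Λ = ⊤ := by
      rw [LinearMap.range_eq_top]
      intro w
      refine ⟨fun i => w (β i) * z i, funext fun b => ?_⟩
      show hm β b (fun i => w (β i) * z i) z = w b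
      rw [hm_block, hz b, mul_one]
    have h1 := LinearMap.finrank_range_add_finrank_ker Λ
    rw [hran, finrank_top, Module.finrank_pi_fintype, Module.finrank_pi_fintype] at h1
    simp only [Complex.finrank_real_complex, Finset.sum_const, Finset.card_univ, Fintype.card_fin,
      smul_eq_mul] at h1
    rw [hker]
    omega

theorem bracket_MB {z : Cn n} (hz : z ∈ MB β) {X : Cn n → Cn n} (hX : IsCField (MB β) z X)
    (b : Fin 2) : hm β b (VectorField.lieBracket ℝ X (fun q => Complex.I • X q) z) z
      = -2 * Complex.I * hm β b (X z) (X z) := by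
  obtain ⟨h1, h2, h3⟩ := hX
  have hd : HasFDerivAt X (fderiv ℝ X z) z := (h1.differentiableAt one_ne_zero).hasFDerivAt
  obtain ⟨φ', h4, h5⟩ := hm_deriv β b hd (hasFDerivAt_id z)
  have h6 : ∀ᶠ q in 𝓝[MB β] z, hm β b (X q) (id q) = 0 := by
    filter_upwards [h3, self_mem_nhdsWithin] with q hq hqM
    exact (mem_cTangent_MB β hqM _).1 hq b
  have hc := (mem_cTangent_MB β hz _).1 h2
  have h7 := fderiv_vanish (M := MB β) h4 h6 (hc b)
  have t1 : X z ∈ tangent (MB β) z := by
    rw [mem_tangent_MB β hz]
    intro b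
    rw [hc b]
    rfl
  have t2 : Complex.I • X z ∈ tangent (MB β) z := by
    rw [mem_tangent_MB β hz]
    intro b
    rw [hm_smul, hc b]
    simp
  have e1 := h7 _ t1
  have e2 := h7 _ t2
  rw [h5] at e1 e2
  simp only [ContinuousLinearMap.id_apply, id] at e1 e2
  rw [hm_conj β b (Complex.I • X z) (X z), hm_smul, map_mul, Complex.conj_I,
    ← hm_conj β b (X z) (X z)] at e2
  unfold VectorField.lieBracket
  have e3 : fderiv ℝ (fun q => Complex.I • X q) z = Complex.I • fderiv ℝ X z :=
    (hd.const_smul Complex.I).fderiv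
  rw [e3, hm_sub, ContinuousLinearMap.smul_apply, hm_smul]
  linear_combination Complex.I * e1 - e2

theorem leviCondition_MB (hβ : ∀ b, ∃ i j, i ≠ j ∧ β i = b ∧ β j = b) : LeviCondition (MB β) := by
  intro z hz
  let τ : Cn n → Cn n := fun v i => (-2 * Complex.I * hm β (β i) v v) * z i
  have hτ : ∀ v b, hm β b (τ v) z = -2 * Complex.I * hm β b v v := by
    intro v b
    rw [hm_block β b (fun b => -2 * Complex.I * hm β b v v), hz b, mul_one]
  have hτT : ∀ v, τ v ∈ tangent (MB β) z := by
    intro v
    rw [mem_tangent_MB β hz]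
    intro b
    rw [hτ, hm_self_re]
    simp
  let lam0 : tangent (MB β) z →ₗ[ℝ] (Fin 2 → ℝ) :=
    { toFun := fun t b => -(hm β b t.1 z).im / 2
      map_add' := fun u v => funext fun b => by
        simp only [Submodule.coe_add, hm_add, Complex.add_im, Pi.add_apply]; ring
      map_smul' := fun c u => funext fun b => by
        simp only [Submodule.coe_smul, hm_rsmul, Complex.im_ofReal_mul, Pi.smul_apply,
          RingHom.id_apply, smul_eq_mul]; ring }
  have hker : ∀ t : tangent (MB β) z,
      t ∈ (cTangent (MB β) z).submoduleOf (tangent (MB β) z) ↔ lam0 t = 0 := by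
    intro t
    have ht := (mem_tangent_MB β hz _).1 t.2
    show t.1 ∈ cTangent (MB β) z ↔ _
    rw [mem_cTangent_MB β hz, funext_iff]
    refine forall_congr' fun b => ?_
    show _ ↔ -(hm β b t.1 z).im / 2 = 0
    rw [Complex.ext_iff, ht b]
    simp
  let lam : Normal (MB β) z →ₗ[ℝ] (Fin 2 → ℝ) :=
    Submodule.liftQ _ lam0 (fun t ht => (hker t).1 ht)
  have hlam : ∀ t, lam (Submodule.Quotient.mk t) = lam0 t := fun t => rfl
  have hinj : ∀ x, lam x = 0 → x = 0 := by
    intro x hx
    induction x using Submodule.Quotient.induction_on with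
    | H t => exact (Submodule.Quotient.mk_eq_zero _).2 ((hker t).2 hx)
  have hcont : Continuous lam := by
    rw [(Submodule.isQuotientMap_mkQ _).continuous_iff]
    exact lam0.continuous_of_finiteDimensional
  let L : Cn n → Normal (MB β) z := fun v => Submodule.Quotient.mk ⟨τ v, hτT v⟩
  have hL : ∀ v b, lam (L v) b = (hm β b v v).re := by
    intro v b
    show -(hm β b (τ v) z).im / 2 = _
    rw [hτ, hm_self_re]
    simp
  refine ⟨L, ⟨?_, ?_⟩, ⟨{x | 0 ≤ 2 * lam x 0 + lam x 1 ∧ 0 ≤ lam x 0 + 2 * lam x 1}, ?_, ?_, ?_,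
    ?_, ?_⟩, ?_⟩
  · intro v hv
    have hv' := (mem_cTangent_MB β hz _).1 hv
    have hXz : (fun i => v i - hm β (β i) v z * z i) = v := by
      funext i
      rw [hv']
      simp
    refine ⟨fun q i => v i - hm β (β i) v q * q i, ⟨?_, ?_, ?_⟩, hXz⟩
    · refine (contDiff_pi.2 fun i => ?_).contDiffAt
      exact contDiff_const.sub ((hm_contDiff β (β i) contDiff_const contDiff_id).mul
        (contDiff_apply ℝ ℂ i))
    · show (fun i => v i - hm β (β i) v z * z i) ∈ _
      rw [hXz]
      exact hv
    · refine eventually_nhdsWithin_of_forall fun q hq => ?_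
      rw [mem_cTangent_MB β hq]
      intro b
      have := hm_sub β b v (fun i => hm β (β i) v q * q i) q
      rw [hm_block β b (fun b => hm β b v q), hq b, mul_one, sub_self] at this
      exact this
  · intro X hX
    have hb := bracket_MB β hz hX
    have hT : VectorField.lieBracket ℝ X (fun q => Complex.I • X q) z ∈ tangent (MB β) z := by
      rw [mem_tangent_MB β hz]
      intro b
      rw [hb, hm_self_re]
      simp
    refine ⟨hT, ?_⟩
    show Submodule.Quotient.mk _ = Submodule.Quotient.mk _
    rw [Submodule.Quotient.eq]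
    show τ (X z) - _ ∈ cTangent (MB β) z
    rw [mem_cTangent_MB β hz]
    intro b
    rw [hm_sub, hτ, hb, sub_self]
  · have c0 : Continuous fun x => lam x 0 := (continuous_apply 0).comp hcont
    have c1 : Continuous fun x => lam x 1 := (continuous_apply 1).comp hcont
    exact IsClosed.inter (isClosed_le continuous_const ((continuous_const.mul c0).add c1))
      (isClosed_le continuous_const (c0.add (continuous_const.mul c1)))
  · intro x hx y hy a b ha hb _
    simp only [mem_setOf_eq, map_add, map_smul, Pi.add_apply, Pi.smul_apply, smul_eq_mul] at *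
    constructor
    · nlinarith [mul_nonneg ha hx.1, mul_nonneg hb hy.1]
    · nlinarith [mul_nonneg ha hx.2, mul_nonneg hb hy.2]
  · intro x hx t ht
    simp only [mem_setOf_eq, map_smul, Pi.smul_apply, smul_eq_mul] at *
    constructor
    · nlinarith [mul_nonneg ht hx.1]
    · nlinarith [mul_nonneg ht hx.2]
  · intro x hx hx'
    simp only [mem_setOf_eq, map_neg, Pi.neg_apply] at hx hx'
    apply hinj
    funext b
    fin_cases b
    · show lam x 0 = 0
      linarith [hx.1, hx.2, hx'.1, hx'.2]
    · show lam x 1 = 0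
      linarith [hx.1, hx.2, hx'.1, hx'.2]
  · intro v _ hv0
    have c0 : Continuous fun x => lam x 0 := (continuous_apply 0).comp hcont
    have c1 : Continuous fun x => lam x 1 := (continuous_apply 1).comp hcont
    rw [mem_interior]
    refine ⟨{x | 0 < 2 * lam x 0 + lam x 1 ∧ 0 < lam x 0 + 2 * lam x 1},
      fun x hx => ⟨hx.1.le, hx.2.le⟩, IsOpen.inter
      (isOpen_lt continuous_const ((continuous_const.mul c0).add c1))
      (isOpen_lt continuous_const (c0.add (continuous_const.mul c1))), ?_⟩
    have p0 := hm_self_nonneg β 0 v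
    have p1 := hm_self_nonneg β 1 v
    have hpos : ∃ b, 0 < (hm β b v v).re := by
      obtain ⟨i, hi⟩ := Function.ne_iff.1 hv0
      refine ⟨β i, ?_⟩
      rw [hm_self, Complex.ofReal_re]
      refine Finset.sum_pos' (fun _ _ => by positivity) ⟨i, by simp, ?_⟩
      have : 0 < ‖v i‖ := norm_pos_iff.2 hi
      positivity
    simp only [mem_setOf_eq, hL]
    obtain ⟨b, hb⟩ := hpos
    fin_cases b
    · simp only [Fin.zero_eta] at hb
      constructor <;> linarith
    · simp only [Fin.mk_one] at hb
      constructor <;> linarith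
  · -- unit complex tangent vectors in each block
    have hunit : ∀ b, ∃ e : Cn n, (∀ i, β i ≠ b → e i = 0) ∧ hm β b e z = 0 ∧
        0 < (hm β b e e).re := by
      intro b
      obtain ⟨i0, hi0, hz0⟩ : ∃ i, β i = b ∧ z i ≠ 0 := by
        by_contra hcon
        push Not at hcon
        have h1 := hz b
        unfold hm at h1
        rw [Finset.sum_eq_zero (fun i hi => by rw [hcon i (Finset.mem_filter.1 hi).2]; simp)] at h1
        exact zero_ne_one h1
      obtain ⟨j, hj, hjb⟩ : ∃ j, j ≠ i0 ∧ β j = b := by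
        obtain ⟨i, j, hij, hi, hj⟩ := hβ b
        by_cases h : i = i0
        · exact ⟨j, fun e => hij (h.trans e.symm), hj⟩
        · exact ⟨i, h, hi⟩
      refine ⟨Pi.single j (conj (z i0)) - Pi.single i0 (conj (z j)), ?_, ?_, ?_⟩
      · intro i hi
        have h1 : i ≠ j := fun e => hi (e ▸ hjb)
        have h2 : i ≠ i0 := fun e => hi (e ▸ hi0)
        simp [h1, h2]
      · rw [hm_sub]
        simp [hm, Pi.single_apply, hi0, hjb]
        ring
      · rw [hm_self, Complex.ofReal_re]
        refine Finset.sum_pos' (fun _ _ => by positivity) ⟨j, by simp [hjb], ?_⟩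
        have : 0 < ‖z i0‖ := norm_pos_iff.2 hz0
        simp [hj]
        positivity
    choose e he1 he2 he3 using hunit
    have c0 : Continuous fun x => lam x 0 := (continuous_apply 0).comp hcont
    have c1 : Continuous fun x => lam x 1 := (continuous_apply 1).comp hcont
    have hsub : {x : Normal (MB β) z | ∀ b, 0 < lam x b}
        ⊆ L '' {v | v ∈ cTangent (MB β) z ∧ v ≠ 0} := by
      intro x hx
      let s : Fin 2 → ℂ := fun b => ((√(lam x b / (hm β b (e b) (e b)).re) : ℝ) : ℂ)
      let v : Cn n := fun i => s (β i) * e (β i) i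
      have hv : ∀ b u, hm β b v u = s b * hm β b (e b) u := by
        intro b u
        rw [← hm_smul]
        unfold hm
        refine Finset.sum_congr rfl fun i hi => ?_
        simp only [v, (Finset.mem_filter.1 hi).2, Pi.smul_apply, smul_eq_mul]
      have hvv : ∀ b, (hm β b v v).re = lam x b := by
        intro b
        rw [hv, hm_conj, hv, map_mul, ← hm_conj]
        simp only [s, Complex.conj_ofReal, Complex.re_ofReal_mul]
        rw [← mul_assoc, Real.mul_self_sqrt (div_pos (hx b) (he3 b)).le,
          div_mul_cancel₀ _ (he3 b).ne']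
      refine ⟨v, ⟨?_, ?_⟩, ?_⟩
      · rw [mem_cTangent_MB β hz]
        intro b
        rw [hv, he2, mul_zero]
      · intro h0
        have h1 := hvv 0
        have h2 := hx 0
        rw [h0] at h1
        simp [hm] at h1
        linarith
      · rw [← sub_eq_zero]
        apply hinj
        funext b
        rw [map_sub, Pi.sub_apply, hL, hvv]
        simp
    have hopen : IsOpen {x : Normal (MB β) z | ∀ b, 0 < lam x b} := by
      simp only [setOf_forall]
      exact isOpen_iInter_of_finite fun b =>
        isOpen_lt continuous_const ((continuous_apply b).comp hcont)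
    refine ⟨L z, ?_⟩
    rw [mem_interior]
    refine ⟨_, hsub.trans (subset_convexHull ℝ _), hopen, fun b => ?_⟩
    rw [hL, hz b]
    simp

end Pool.Agent.H486Z.CR
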