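import Mathlib
import Pool.Agent.Helper892.PB.Main

/-! Continuous version of the construction of maps into spheres: every continuous function on the
sphere of `ℂ²` with values in `[1/2, 1]` is a sum of squared moduli of boundedly many uniform
limits of entire functions. -/

set_option autoImplicit false

open MeasureTheory Set Filter Topology
open scoped ComplexConjugate

namespace Pool.Agent.H486Z.CR

open Pool.Agent.H892PB

theorem dist_le_sqrtD {x ζ : P} (hx : x ∈ S) (hζ : ζ ∈ S) : dist x ζ ≤ 2 * √(D x ζ) := by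
  have h1 : nsq (x - ζ) ≤ 2 * D x ζ := by
    have hx' : nsq x = 1 := hx
    have hζ' : nsq ζ = 1 := hζ
    have e : nsq (x - ζ) = nsq x + nsq ζ - 2 * (ip x ζ).re := by
      unfold nsq ip
      simp only [← Complex.normSq_eq_norm_sq, Prod.fst_sub, Prod.snd_sub, Complex.normSq_sub,
        Complex.add_re]
      ring
    have h2 : (1 - ip x ζ).re ≤ ‖1 - ip x ζ‖ := Complex.re_le_norm _
    rw [Complex.sub_re, Complex.one_re] at h2
    rw [e, hx', hζ']
    unfold D
    linarith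
  have hD := D_nonneg x ζ
  have h3 : (2 * √(D x ζ)) ^ 2 = 4 * D x ζ := by
    rw [mul_pow, Real.sq_sqrt hD]; norm_num
  have h4 : 0 ≤ 2 * √(D x ζ) := by positivity
  rw [dist_eq_norm, Prod.norm_def]
  unfold nsq at h1
  apply max_le
  · apply (abs_le_of_sq_le_sq' _ h4).2
    nlinarith [sq_nonneg ‖(x - ζ).2‖]
  · apply (abs_le_of_sq_le_sq' _ h4).2
    nlinarith [sq_nonneg ‖(x - ζ).1‖]

theorem unif_mod {V : Type} [NormedAddCommGroup V] (u : P → V) (hu : Continuous u) (η : ℝ)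
    (hη : 0 < η) : ∃ L : ℝ, 0 ≤ L ∧ ∀ x ∈ S, ∀ ζ ∈ S, ‖u x - u ζ‖ ≤ η + L * √(D x ζ) := by
  have huc := T_props_S.uniformContinuousOn_of_continuous hu.continuousOn
  rw [Metric.uniformContinuousOn_iff] at huc
  obtain ⟨δ, hδ, h⟩ := huc η hη
  obtain ⟨B, hB⟩ := T_props_S.exists_bound_of_continuousOn hu.continuousOn
  have hB0 : 0 ≤ B := by
    have hz : ((1 : ℂ), (0 : ℂ)) ∈ S := by simp [S, nsq]
    exact (norm_nonneg _).trans (hB _ hz)
  refine ⟨4 * B / δ, by positivity, fun x hx ζ hζ => ?_⟩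
  have hs : 0 ≤ 4 * B / δ * √(D x ζ) := by positivity
  by_cases hd : dist x ζ < δ
  · have := h x hx ζ hζ hd
    rw [dist_eq_norm] at this
    linarith
  · push Not at hd
    have h1 := hd.trans (dist_le_sqrtD hx hζ)
    have h2 : ‖u x - u ζ‖ ≤ 2 * B := by
      have := norm_sub_le (u x) (u ζ)
      linarith [hB x hx, hB ζ hζ]
    have h3 : 2 * B ≤ 4 * B / δ * √(D x ζ) := by
      rw [div_mul_eq_mul_div, le_div_iff₀ hδ]
      nlinarith
    linarith

theorem T_approx (q : ℕ) (hq : 3 ≤ q) (W : P → ℝ) (hW : Continuous W) (η : ℝ) (hη : 0 < η) :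
    ∀ᶠ k : ℕ in atTop, ∀ z ∈ S, |T q k W z - W z| ≤ η := by
  obtain ⟨C, hC, hk1⟩ := kint1 q hq
  obtain ⟨L, hL, hmod⟩ := unif_mod W hW (η / 2) (by positivity)
  have hlim : Tendsto (fun k : ℕ => L * C / √(k : ℝ)) atTop (𝓝 0) :=
    Tendsto.const_div_atTop (Real.tendsto_sqrt_atTop.comp tendsto_natCast_atTop_atTop) _
  filter_upwards [eventually_ge_atTop 1, hlim.eventually (ge_mem_nhds (show (0 : ℝ) < η / 2 by
    positivity))] with k hk hsmall z hz
  have hII := T_props_II q k hk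
  have hk0 : (0 : ℝ) < k := by exact_mod_cast hk
  have hsk : 0 < √(k : ℝ) := Real.sqrt_pos.2 hk0
  have hdi := T_props_int (T_props_dens q k)
  have e1 : T q k W z - W z = (∫ y, (W (act y z) - W z) * dens q k y ∂sig) / II q k := by
    unfold T
    simp only [sub_mul]
    rw [integral_sub (T_props_int (T_props_cont q k hW z)) (hdi.const_mul _), integral_const_mul,
      sub_div]
    congr 1
    exact (mul_div_cancel_right₀ (W z) hII.ne').symm
  have hcs : Continuous (fun y : P => √(k * ‖1 - y.1‖) * dens q k y) := by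
    have := T_props_dens q k
    fun_prop
  have h1 : ‖∫ y, (W (act y z) - W z) * dens q k y ∂sig‖
      ≤ ∫ y, (η / 2 * dens q k y + L / √(k : ℝ) * (√(k * ‖1 - y.1‖) * dens q k y)) ∂sig := by
    apply norm_integral_le_of_norm_le ((hdi.const_mul _).add ((T_props_int hcs).const_mul _))
    filter_upwards [T_props_ae] with y hy
    have hd0 := T_props_dens_nonneg q k y
    rw [norm_mul, Real.norm_of_nonneg hd0]
    have h2 := hmod (act y z) (act_mem hy hz) z hz
    rw [D_comm, D_act hz] at h2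
    have h3 : √(k * ‖1 - y.1‖) = √(k : ℝ) * √‖1 - y.1‖ := Real.sqrt_mul hk0.le _
    have h4 : L / √(k : ℝ) * (√(k * ‖1 - y.1‖) * dens q k y)
        = L * √‖1 - y.1‖ * dens q k y := by
      rw [h3]; field_simp
    simp only [Pi.add_apply]
    rw [h4, ← add_mul]
    exact mul_le_mul_of_nonneg_right h2 hd0
  rw [integral_add (hdi.const_mul _) ((T_props_int hcs).const_mul _), integral_const_mul,
    integral_const_mul] at h1
  rw [e1, abs_div, abs_of_pos hII, div_le_iff₀ hII]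
  have h5 : L / √(k : ℝ) * ∫ y, √(k * ‖1 - y.1‖) * dens q k y ∂sig
      ≤ L / √(k : ℝ) * (C * II q k) :=
    mul_le_mul_of_nonneg_left (hk1 k hk) (by positivity)
  have h6 : L / √(k : ℝ) * (C * II q k) = L * C / √(k : ℝ) * II q k := by ring
  have h7 : L * C / √(k : ℝ) * II q k ≤ η / 2 * II q k :=
    mul_le_mul_of_nonneg_right hsmall hII.le
  have h8 : ∫ y, dens q k y ∂sig = II q k := rfl
  rw [h8, Real.norm_eq_abs] at h1
  linarith

theorem low_step : ∃ (K : ℕ) (C : ℝ), 0 < K ∧ 0 < C ∧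
    ∀ H : Fin K → Fin 2 → P → ℂ, (∀ g c, Differentiable ℂ (H g c)) →
    ∀ W : P → ℝ, Continuous W → ∀ ε : ℝ, 0 < ε → (∀ z ∈ S, 0 ≤ W z ∧ W z ≤ 2 * ε) →
    ∃ v : Fin K → Fin 2 → P → ℂ, (∀ g c, Differentiable ℂ (v g c)) ∧
      (∀ z ∈ S, |∑ g, ∑ c, ‖H g c z + v g c z‖ ^ 2 - ∑ g, ∑ c, ‖H g c z‖ ^ 2 - W z| ≤ ε / 8) ∧
      ∀ z ∈ S, ∑ g, ∑ c, ‖v g c z‖ ^ 2 ≤ C * ε := by
  classical
  obtain ⟨CD, hCD, Hdisc0⟩ := discretize 6 (by omega)
  obtain ⟨CW, hCW, Hwave⟩ := wave_sq 6 le_rfl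
  obtain ⟨CS, hCS, Hsep⟩ := sep_sum
  obtain ⟨CF, hCF, HF⟩ := F_bound
  obtain ⟨r, hr⟩ : ∃ r : ℝ, r = 1 / (32 * (CD + CW * CD + 1)) := ⟨_, rfl⟩
  have hden : 0 < CD + CW * CD + 1 := by positivity
  have hr0 : 0 < r := by rw [hr]; positivity
  have hr1 : r ≤ 1 := by
    rw [hr, div_le_one (by positivity)]
    nlinarith [mul_pos hCW hCD]
  have hrCD : CD * r ≤ 1 / 32 := by
    rw [hr, mul_one_div, div_le_div_iff₀ (by positivity) (by norm_num)]
    nlinarith [mul_pos hCW hCD]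
  have hrCW : CW * CD * r ^ 2 ≤ 1 / 32 := by
    have h1 : CW * CD * r ≤ 1 / 32 := by
      rw [hr, mul_one_div, div_le_div_iff₀ (by positivity) (by norm_num)]
      nlinarith [mul_pos hCW hCD]
    have h2 : CW * CD * r ^ 2 = CW * CD * r * r := by ring
    rw [h2]
    nlinarith [mul_pos (mul_pos hCW hCD) hr0]
  obtain ⟨K, hK, Hdisc⟩ := Hdisc0 r hr0 hr1
  refine ⟨K, CW * CD, hK, by positivity, fun H hH W hW ε hε hWb => ?_⟩
  -- the size allowed for the oscillation of `H`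
  obtain ⟨η, hη⟩ : ∃ η : ℝ, η = ε / 64 / (2 * (√(CD * ε) * CF ^ 6 * CS / r ^ 2)) := ⟨_, rfl⟩
  have hsq : 0 < √(CD * ε) := Real.sqrt_pos.2 (by positivity)
  have hη0 : 0 < η := by rw [hη]; positivity
  have hHc : Continuous (fun z => (fun g c => H g c z : Fin K → Fin 2 → ℂ)) :=
    continuous_pi fun g => continuous_pi fun c => (hH g c).continuous
  obtain ⟨L, hL, hmod⟩ := unif_mod _ hHc (η / 2) (by positivity)
  have hlim : Tendsto (fun k : ℕ => L / √(k : ℝ)) atTop (𝓝 0) :=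
    Tendsto.const_div_atTop (Real.tendsto_sqrt_atTop.comp tendsto_natCast_atTop_atTop) _
  obtain ⟨k, hk, hkT, hkL⟩ := ((eventually_ge_atTop 1).and ((T_approx 6 (by omega) W hW (ε / 32)
    (by positivity)).and (hlim.eventually (ge_mem_nhds (show (0 : ℝ) < η / 2 by
      positivity))))).exists
  have hk0 : (0 : ℝ) < k := by exact_mod_cast hk
  have hsk : 0 < √(k : ℝ) := Real.sqrt_pos.2 hk0
  obtain ⟨Λ, col, w, hΛS, hsep, hsepc, hw, happ⟩ := Hdisc k hk W hW ε hε hWb
  have hor : ∀ ζ : P, ∃ ξ : Fin 2 → ℂ, ∑ c, ‖ξ c‖ ^ 2 = 1 ∧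
      ∑ c, H (col ζ) c ζ * conj (ξ c) = 0 := by
    intro ζ
    obtain ⟨ξ, h1, h2⟩ := exists_orth 1 2 (by norm_num) (H (col ζ)) (hH _) ζ
    refine ⟨ξ, h1, ?_⟩
    simpa using h2 0 (by norm_num) 0
  choose ξ hξ1 hξ2 using hor
  obtain ⟨hw1, hw2⟩ := Hwave K 2 k hk r hr0 hr1 Λ col w ξ CD ε hCD.le hε.le hΛS hsep hsepc hw
    (fun ζ _ => hξ1 ζ)
  refine ⟨wave 6 k Λ w ξ col, fun g c => wave_diff 6 k K 2 Λ w ξ col g c, fun z hz => ?_,
    fun z hz => hw2 z ?_⟩
  · -- the cross term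
    have hcross : ‖∑ g, ∑ c, H g c z * conj (wave 6 k Λ w ξ col g c z)‖ ≤ ε / 64 := by
      rw [cross_bound_swap]
      have hterm : ∀ ζ ∈ Λ, ‖(((√(w ζ) : ℝ) : ℂ) * conj (F k (ip z ζ) ^ 6)) *
          ∑ c, H (col ζ) c z * conj (ξ ζ c)‖
          ≤ (√(CD * ε) * r ^ 2 * CF ^ 6 * (2 * η)) * ((1 + k * D z ζ) ^ 3)⁻¹ := by
        intro ζ hζ
        have hζS := hΛS ζ hζ
        have hD := D_nonneg z ζ
        have hX : (1 : ℝ) ≤ 1 + k * D z ζ := by nlinarith
        have hX0 : (0 : ℝ) < 1 + k * D z ζ := by linarith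
        have a1 : √(w ζ) ≤ √(CD * ε) * r ^ 2 := by
          rw [Real.sqrt_le_iff]
          refine ⟨by positivity, ?_⟩
          rw [mul_pow, Real.sq_sqrt (by positivity)]
          have := (hw ζ hζ).2
          nlinarith
        have a2 : ‖F k (ip z ζ)‖ ≤ CF / (1 + k * D z ζ) := by
          apply HF k hk
          have := geo_norm_le_one hz hζS
          have h2 : (0 : ℝ) ≤ 2 / k := by positivity
          linarith
        have a3 : ‖∑ c, H (col ζ) c z * conj (ξ ζ c)‖ ≤ 2 * η * (1 + k * D z ζ) := by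
          have e : ∑ c, H (col ζ) c z * conj (ξ ζ c)
              = ∑ c, (H (col ζ) c z - H (col ζ) c ζ) * conj (ξ ζ c) := by
            simp only [sub_mul, Finset.sum_sub_distrib, hξ2 ζ, sub_zero]
          rw [e]
          have b1 := hmod z hz ζ hζS
          have b2 : L * √(D z ζ) ≤ η / 2 * (1 + k * D z ζ) := by
            have c1 : √(k * D z ζ) = √(k : ℝ) * √(D z ζ) := Real.sqrt_mul hk0.le _
            have c2 : L * √(D z ζ) = L / √(k : ℝ) * √(k * D z ζ) := by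
              rw [c1]; field_simp
            have c3 : √(k * D z ζ) ≤ 1 + k * D z ζ := by
              rw [Real.sqrt_le_iff]
              refine ⟨hX0.le, ?_⟩
              nlinarith [mul_nonneg hk0.le hD]
            rw [c2]
            exact mul_le_mul hkL c3 (Real.sqrt_nonneg _) (by positivity)
          have b3 : ∀ c, ‖H (col ζ) c z - H (col ζ) c ζ‖ ≤ η * (1 + k * D z ζ) := by
            intro c
            have d1 := norm_le_pi_norm ((fun g c => H g c z : Fin K → Fin 2 → ℂ)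
              - (fun g c => H g c ζ : Fin K → Fin 2 → ℂ)) (col ζ)
            have d2 := norm_le_pi_norm (((fun g c => H g c z : Fin K → Fin 2 → ℂ)
              - (fun g c => H g c ζ : Fin K → Fin 2 → ℂ)) (col ζ)) c
            have d3 : ‖H (col ζ) c z - H (col ζ) c ζ‖ ≤ η / 2 + L * √(D z ζ) :=
              (d2.trans d1).trans b1
            have d4 : η / 2 * 1 ≤ η / 2 * (1 + k * D z ζ) :=
              mul_le_mul_of_nonneg_left hX (by positivity)
            linarith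
          apply cross_bound_cs _ _ _ (by positivity) _ (hξ1 ζ)
          rw [Fin.sum_univ_two]
          have e0 := pow_le_pow_left₀ (norm_nonneg _) (b3 0) 2
          have e1 := pow_le_pow_left₀ (norm_nonneg _) (b3 1) 2
          nlinarith [sq_nonneg (η * (1 + k * D z ζ))]
        rw [norm_mul, norm_mul, Complex.norm_real, Real.norm_of_nonneg (Real.sqrt_nonneg _),
          RCLike.norm_conj, norm_pow]
        have a4 : ‖F k (ip z ζ)‖ ^ 6 ≤ (CF / (1 + k * D z ζ)) ^ 6 :=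
          pow_le_pow_left₀ (norm_nonneg _) a2 6
        calc √(w ζ) * ‖F k (ip z ζ)‖ ^ 6 * ‖∑ c, H (col ζ) c z * conj (ξ ζ c)‖
            ≤ (√(CD * ε) * r ^ 2) * (CF / (1 + k * D z ζ)) ^ 6 * (2 * η * (1 + k * D z ζ)) := by
              gcongr
          _ = (√(CD * ε) * r ^ 2 * CF ^ 6 * (2 * η)) * ((1 + k * D z ζ) ^ 5)⁻¹ := by
              field_simp
          _ ≤ _ := by
              apply mul_le_mul_of_nonneg_left _ (by positivity)
              apply inv_anti₀ (by positivity)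
              exact pow_le_pow_right₀ hX (by norm_num)
      refine (norm_sum_le _ _).trans ((Finset.sum_le_sum hterm).trans ?_)
      rw [← Finset.mul_sum]
      have := Hsep k hk r hr0 hr1 Λ hΛS hsep z hz
      refine (mul_le_mul_of_nonneg_left this (by positivity)).trans (le_of_eq ?_)
      rw [hη]
      field_simp
    have hexp : ∑ g, ∑ c, ‖H g c z + wave 6 k Λ w ξ col g c z‖ ^ 2
        = ∑ g, ∑ c, ‖H g c z‖ ^ 2 + ∑ g, ∑ c, ‖wave 6 k Λ w ξ col g c z‖ ^ 2
          + 2 * (∑ g, ∑ c, H g c z * conj (wave 6 k Λ w ξ col g c z)).re := by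
      simp only [norm_sq_add_sum, Finset.sum_add_distrib, Complex.re_sum, Finset.mul_sum,
        Complex.mul_conj, Complex.ofReal_re, Complex.normSq_eq_norm_sq]
    have hre := (Complex.abs_re_le_norm _).trans hcross
    have t1 := hw1 z hz
    have t2 := happ z hz
    have t3 := hkT z hz
    have t4 : CW * CD * ε * r ^ 2 ≤ ε / 32 := by nlinarith
    have t5 : CD * r * ε ≤ ε / 32 := by nlinarith
    rw [hexp]
    rw [abs_le] at hre t1 t2 t3 ⊢
    constructor <;> linarith [hre.1, hre.2, t1.1, t1.2, t2.1, t2.2, t3.1, t3.2]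
  · have : nsq z = 1 := hz
    have h2 : (0 : ℝ) ≤ 4 / k := by positivity
    linarith

theorem low_main : ∃ K : ℕ, 0 < K ∧ ∀ φ : P → ℝ, Continuous φ →
    (∀ z ∈ S, 1 / 2 ≤ φ z ∧ φ z ≤ 1) →
    ∃ (H : ℕ → Fin K → Fin 2 → P → ℂ) (G : Fin K → Fin 2 → P → ℂ),
      (∀ j g c, Differentiable ℂ (H j g c)) ∧
      (∀ g c, TendstoUniformlyOn (fun j => H j g c) (G g c) atTop S) ∧
      ∀ z ∈ S, ∑ g, ∑ c, ‖G g c z‖ ^ 2 = φ z := by
  classical
  obtain ⟨K, C, hK, hC, hstep⟩ := low_step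
  refine ⟨K, hK, fun φ hφ hφb => ?_⟩
  let ε : ℕ → ℝ := fun j => 1 / 2 * (1 / 4) ^ j
  have hε : ∀ j, 0 < ε j := fun j => by positivity
  have hεs : ∀ j, ε (j + 1) = ε j / 4 := fun j => by simp only [ε]; ring
  let Inv : ℕ → (Fin K → Fin 2 → P → ℂ) → Prop := fun j H =>
    (∀ g c, Differentiable ℂ (H g c)) ∧ ∀ z ∈ S, ε j ≤ φ z - ∑ g, ∑ c, ‖H g c z‖ ^ 2 ∧
      φ z - ∑ g, ∑ c, ‖H g c z‖ ^ 2 ≤ 3 * ε j
  have h0 : Inv 0 (fun _ _ _ => 0) := by
    refine ⟨fun _ _ => differentiable_const _, fun z hz => ?_⟩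
    have := hφb z hz
    simp only [ε, norm_zero]
    norm_num
    constructor <;> linarith [this.1, this.2]
  have hnext : ∀ j H, Inv j H → ∃ H', Inv (j + 1) H' ∧
      ∀ z ∈ S, ∑ g, ∑ c, ‖H' g c z - H g c z‖ ^ 2 ≤ C * (2 * ε j) := by
    intro j H ⟨hH, hb⟩
    have hcont : Continuous (fun z => φ z - ∑ g, ∑ c, ‖H g c z‖ ^ 2 - ε j / 2) := by
      have h1 : ∀ g c, Continuous (H g c) := fun g c => (hH g c).continuous
      fun_prop
    obtain ⟨v, hv1, hv2, hv3⟩ := hstep H hH _ hcont (2 * ε j) (by linarith [hε j]) (fun z hz => by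
      have := hb z hz
      constructor <;> linarith [this.1, this.2, hε j])
    refine ⟨fun g c z => H g c z + v g c z, ⟨fun g c => (hH g c).add (hv1 g c), fun z hz => ?_⟩,
      fun z hz => ?_⟩
    · have h1 := hv2 z hz
      rw [abs_le] at h1
      rw [hεs]
      constructor <;> linarith [h1.1, h1.2]
    · simpa using hv3 z hz
  choose nxt hn1 hn2 using hnext
  let seq : (j : ℕ) → {H // Inv j H} := fun j =>
    Nat.rec ⟨_, h0⟩ (fun j H => ⟨nxt j H.1 H.2, hn1 j H.1 H.2⟩) j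
  have hseq : ∀ j, ∀ z ∈ S, ∑ g, ∑ c, ‖(seq (j + 1)).1 g c z - (seq j).1 g c z‖ ^ 2
      ≤ C * (2 * ε j) := fun j => hn2 j (seq j).1 (seq j).2
  have hdiff : ∀ j g c, ∀ z ∈ S, ‖(seq (j + 1)).1 g c z - (seq j).1 g c z‖ ≤ √C * (1 / 2) ^ j := by
    intro j g c z hz
    apply (abs_le_of_sq_le_sq' _ (by positivity)).2
    have h1 : ‖(seq (j + 1)).1 g c z - (seq j).1 g c z‖ ^ 2
        ≤ ∑ c, ‖(seq (j + 1)).1 g c z - (seq j).1 g c z‖ ^ 2 :=
      Finset.single_le_sum (f := fun c => ‖(seq (j + 1)).1 g c z - (seq j).1 g c z‖ ^ 2)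
        (fun _ _ => by positivity) (Finset.mem_univ c)
    have h2 : ∑ c, ‖(seq (j + 1)).1 g c z - (seq j).1 g c z‖ ^ 2
        ≤ ∑ g, ∑ c, ‖(seq (j + 1)).1 g c z - (seq j).1 g c z‖ ^ 2 :=
      Finset.single_le_sum (f := fun g => ∑ c, ‖(seq (j + 1)).1 g c z - (seq j).1 g c z‖ ^ 2)
        (fun _ _ => by positivity) (Finset.mem_univ g)
    have h3 : (√C * (1 / 2) ^ j) ^ 2 = C * (2 * ε j) := by
      rw [mul_pow, Real.sq_sqrt hC.le, ← pow_mul, mul_comm j 2, pow_mul]
      have : ((1 / 2 : ℝ) ^ 2) = 1 / 4 := by norm_num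
      rw [this]
      simp only [ε]
      ring
    rw [h3]
    exact h1.trans (h2.trans (hseq j z hz))
  have hsum : Summable (fun j : ℕ => √C * (1 / 2 : ℝ) ^ j) :=
    summable_geometric_two.mul_left _
  have htel : ∀ j g c z, (seq j).1 g c z
      = ∑ i ∈ Finset.range j, ((seq (i + 1)).1 g c z - (seq i).1 g c z) := by
    intro j g c z
    rw [Finset.sum_range_sub (fun i => (seq i).1 g c z)]
    have : (seq 0).1 g c z = 0 := rfl
    rw [this, sub_zero]
  have hconv : ∀ g c, TendstoUniformlyOn (fun j => (seq j).1 g c)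
      (fun z => ∑' i, ((seq (i + 1)).1 g c z - (seq i).1 g c z)) atTop S := by
    intro g c
    have := tendstoUniformlyOn_tsum_nat hsum (fun j z hz => hdiff j g c z hz)
    refine this.congr (Eventually.of_forall fun j z _ => (htel j g c z).symm)
  refine ⟨fun j => (seq j).1, _, fun j => (seq j).2.1, hconv, fun z hz => ?_⟩
  have hl1 : Tendsto (fun j => ∑ g, ∑ c, ‖(seq j).1 g c z‖ ^ 2) atTop
      (𝓝 (∑ g, ∑ c, ‖∑' i, ((seq (i + 1)).1 g c z - (seq i).1 g c z)‖ ^ 2)) :=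
    tendsto_finset_sum _ fun g _ => tendsto_finset_sum _ fun c _ =>
      (((hconv g c).tendsto_at hz).norm).pow 2
  have hε0 : Tendsto ε atTop (𝓝 0) := by
    have := (tendsto_pow_atTop_nhds_zero_of_lt_one (r := (1 / 4 : ℝ)) (by norm_num)
      (by norm_num)).const_mul (1 / 2)
    simpa [ε] using this
  have hl2 : Tendsto (fun j => ∑ g, ∑ c, ‖(seq j).1 g c z‖ ^ 2) atTop (𝓝 (φ z)) := by
    have a1 : Tendsto (fun j => φ z - 3 * ε j) atTop (𝓝 (φ z)) := by
      simpa using (hε0.const_mul 3).const_sub (φ z)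
    have a2 : Tendsto (fun j => φ z - ε j) atTop (𝓝 (φ z)) := by
      simpa using hε0.const_sub (φ z)
    refine tendsto_of_tendsto_of_tendsto_of_le_of_le a1 a2 (fun j => ?_) (fun j => ?_)
    · have := ((seq j).2.2 z hz).2
      simp only
      linarith
    · have := ((seq j).2.2 z hz).1
      simp only
      linarith
  exact tendsto_nhds_unique hl1 hl2

end Pool.Agent.H486Z.CR
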