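import Mathlib
import Pool.Agent.H486Z.CRGeom
import Pool.Agent.H486Z.CRDist
import Pool.Agent.H486Z.CRLow

set_option autoImplicit false

open MeasureTheory Set Filter Topology
open scoped ComplexConjugate

namespace Pool.Agent.H486Z.CR

open Pool.Agent.H892PB

/-- radial retraction onto the closed unit disc -/
noncomputable def clamp (s : ℂ) : ℂ := s / ((max 1 ‖s‖ : ℝ) : ℂ)

theorem clamp_cont : Continuous clamp := by
  unfold clamp
  refine continuous_id.div (by fun_prop) fun s => ?_
  have : (0 : ℝ) < max 1 ‖s‖ := lt_of_lt_of_le one_pos (le_max_left _ _)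
  exact_mod_cast this.ne'

theorem clamp_le (s : ℂ) : ‖clamp s‖ ≤ 1 := by
  unfold clamp
  have : (0 : ℝ) < max 1 ‖s‖ := lt_of_lt_of_le one_pos (le_max_left _ _)
  rw [norm_div, Complex.norm_real, Real.norm_of_nonneg this.le, div_le_one this]
  exact le_max_right _ _

theorem clamp_eq {s : ℂ} (hs : ‖s‖ ≤ 1) : clamp s = s := by
  unfold clamp
  rw [max_eq_left hs]
  simp

/-- the terms of the lacunary series -/
noncomputable def lac (i : ℕ) (s : ℂ) : ℂ := (((1 / 8 * (1 / 2) ^ i : ℝ)) : ℂ) * (1 - s ^ (4 ^ i))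

theorem lac_le (i : ℕ) {s : ℂ} (hs : ‖s‖ ≤ 1) : ‖lac i s‖ ≤ 1 / 4 * (1 / 2) ^ i := by
  unfold lac
  rw [norm_mul, Complex.norm_real, Real.norm_of_nonneg (by positivity)]
  have h1 : ‖1 - s ^ (4 ^ i)‖ ≤ 2 := by
    refine (norm_sub_le _ _).trans ?_
    rw [norm_one, norm_pow]
    have := pow_le_one₀ (norm_nonneg s) hs (n := 4 ^ i)
    linarith
  have h2 : (0 : ℝ) ≤ 1 / 8 * (1 / 2) ^ i := by positivity
  nlinarith

theorem lac_re_nonneg (i : ℕ) {s : ℂ} (hs : ‖s‖ ≤ 1) : 0 ≤ (lac i s).re := by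
  unfold lac
  rw [Complex.re_ofReal_mul]
  apply mul_nonneg (by positivity)
  rw [Complex.sub_re, Complex.one_re]
  have h1 := Complex.re_le_norm (s ^ (4 ^ i))
  rw [norm_pow] at h1
  have := pow_le_one₀ (norm_nonneg s) hs (n := 4 ^ i)
  linarith

theorem geo_summable : Summable (fun i : ℕ => (1 / 4 : ℝ) * (1 / 2) ^ i) :=
  summable_geometric_two.mul_left _

/-- the sum of the lacunary series -/
noncomputable def lacSum (s : ℂ) : ℂ := ∑' i, lac i (clamp s)

theorem lac_cont (i : ℕ) : Continuous (lac i) := by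
  unfold lac
  fun_prop

theorem lacSum_cont : Continuous lacSum :=
  continuous_tsum (fun i => (lac_cont i).comp clamp_cont) geo_summable
    (fun i s => lac_le i (clamp_le s))

theorem lacSum_le (s : ℂ) : ‖lacSum s‖ ≤ 1 / 2 := by
  have := tsum_of_norm_bounded geo_summable.hasSum (fun i => lac_le i (clamp_le s))
  rw [tsum_mul_left, tsum_geometric_two] at this
  unfold lacSum
  linarith

theorem lacSum_one : lacSum 1 = 0 := by
  unfold lacSum
  rw [clamp_eq (by simp)]
  simp [lac]

theorem lacSum_lower (j : ℕ) :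
    1 / 4 * (1 / 2) ^ j ≤ ‖lacSum (Complex.exp (((Real.pi / 4 ^ j : ℝ) : ℂ) * Complex.I))‖ := by
  set s := Complex.exp (((Real.pi / 4 ^ j : ℝ) : ℂ) * Complex.I) with hs
  have hs1 : ‖s‖ ≤ 1 := (Complex.norm_exp_ofReal_mul_I _).le
  refine le_trans ?_ (Complex.re_le_norm _)
  unfold lacSum
  rw [clamp_eq hs1]
  have hsum : Summable (fun i => lac i s) :=
    Summable.of_norm_bounded geo_summable (fun i => lac_le i hs1)
  have h1 := Complex.hasSum_re hsum.hasSum
  refine le_trans (le_of_eq ?_) (le_hasSum h1 j (fun i _ => lac_re_nonneg i hs1))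
  unfold lac
  have e : s ^ (4 ^ j) = -1 := by
    rw [hs, ← Complex.exp_nat_mul, ← Complex.exp_pi_mul_I]
    congr 1
    push_cast
    field_simp
  rw [e, Complex.re_ofReal_mul]
  norm_num
  ring

theorem lacSum_not_diff :
    ¬ DifferentiableAt ℝ (fun t : ℝ => lacSum (Complex.exp ((t : ℂ) * Complex.I))) 0 := by
  intro h
  obtain ⟨C, hC⟩ := h.isBigO_sub.bound
  have ht : Tendsto (fun j : ℕ => Real.pi / 4 ^ j) atTop (𝓝 0) :=
    Tendsto.const_div_atTop (tendsto_pow_atTop_atTop_of_one_lt (by norm_num)) _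
  have h2 : Tendsto (fun j : ℕ => (2 : ℝ) ^ j) atTop atTop :=
    tendsto_pow_atTop_atTop_of_one_lt (by norm_num)
  obtain ⟨j, hj1, hj2⟩ := ((ht.eventually hC).and
    (h2.eventually_gt_atTop (4 * C * Real.pi))).exists
  simp only [Complex.ofReal_zero, zero_mul, Complex.exp_zero, lacSum_one, sub_zero] at hj1
  have h3 := (lacSum_lower j).trans hj1
  rw [Real.norm_of_nonneg (by positivity)] at h3
  have e : (4 : ℝ) ^ j = 2 ^ j * 2 ^ j := by rw [← mul_pow]; norm_num
  have hp : (0 : ℝ) < 2 ^ j := by positivity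
  rw [e, one_div_pow] at h3
  have h4 : 1 / 4 * (1 / (2 : ℝ) ^ j) * (2 ^ j * 2 ^ j) ≤ C * (Real.pi / (2 ^ j * 2 ^ j))
      * (2 ^ j * 2 ^ j) := mul_le_mul_of_nonneg_right h3 (by positivity)
  have e1 : 1 / 4 * (1 / (2 : ℝ) ^ j) * (2 ^ j * 2 ^ j) = 2 ^ j / 4 := by field_simp
  have e2 : C * (Real.pi / (2 ^ j * 2 ^ j)) * (2 ^ j * 2 ^ j) = C * Real.pi := by field_simp
  rw [e1, e2] at h4
  linarith

theorem sphere_data : ∃ N : ℕ, 2 ≤ N ∧ ∃ (b0 : Fin N) (H : ℕ → Fin N → P → ℂ) (G : Fin N → P → ℂ),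
    (∀ j b, Differentiable ℂ (H j b)) ∧
    (∀ b, TendstoUniformlyOn (fun j => H j b) (G b) atTop S) ∧
    (∀ z ∈ S, ∑ b, ‖G b z‖ ^ 2 = 1) ∧ ∀ z, G b0 z = lacSum z.1 := by
  obtain ⟨K, hK, hlow⟩ := low_main
  have hφ : Continuous (fun z : P => 1 - ‖lacSum z.1‖ ^ 2) := by
    have := lacSum_cont
    fun_prop
  obtain ⟨H, G, h1, h2, h3⟩ := hlow _ hφ (fun z _ => by
    have a1 := lacSum_le z.1
    have a2 := norm_nonneg (lacSum z.1)
    constructor <;> nlinarith)
  let e : Fin (Fintype.card (Option (Fin K × Fin 2))) ≃ Option (Fin K × Fin 2) :=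
    (Fintype.equivFin _).symm
  refine ⟨Fintype.card (Option (Fin K × Fin 2)), ?_, e.symm none,
    fun j b => (e b).elim (fun z => ∑ i ∈ Finset.range j, lac i z.1) (fun p => H j p.1 p.2),
    fun b => (e b).elim (fun z => lacSum z.1) (fun p => G p.1 p.2), ?_, ?_, ?_, ?_⟩
  · simp
    omega
  · intro j b
    beta_reduce
    cases e b with
    | none =>
      simp only [Option.elim]
      unfold lac
      fun_prop
    | some p => exact h1 j p.1 p.2
  · intro b
    beta_reduce
    cases e b with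
    | none =>
      simp only [Option.elim]
      have hn : ∀ z ∈ S, ‖z.1‖ ≤ 1 := by
        intro z hz
        have : ‖z.1‖ ^ 2 + ‖z.2‖ ^ 2 = 1 := hz
        nlinarith [sq_nonneg ‖z.2‖, norm_nonneg z.1]
      have := tendstoUniformlyOn_tsum_nat (f := fun i (z : P) => lac i z.1) geo_summable
        (fun i z hz => lac_le i (hn z hz))
      refine this.congr_right fun z hz => ?_
      unfold lacSum
      rw [clamp_eq (hn z hz)]
    | some p => exact h2 p.1 p.2
  · intro z hz
    rw [Equiv.sum_comp e (fun o => ‖(o.elim (fun z : P => lacSum z.1)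
      (fun p : Fin K × Fin 2 => G p.1 p.2)) z‖ ^ 2), Fintype.sum_option, Fintype.sum_prod_type]
    simp only [Option.elim]
    rw [h3 z hz]
    ring
  · intro z
    simp

/-- the two blocks of coordinates -/
def blk (N : ℕ) : Fin (2 + N) → Fin 2 := Fin.addCases (fun _ => 0) (fun _ => 1)

theorem sphereProd_eq (N : ℕ) : sphereProd N = MB (blk N) := by
  ext z
  have h0 : ∑ i ∈ Finset.univ.filter (fun i => blk N i = 0), ‖z i‖ ^ 2
      = ∑ i : Fin 2, ‖z (Fin.castAdd N i)‖ ^ 2 := by
    rw [Finset.sum_filter, Fin.sum_univ_add]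
    simp [blk]
  have h1 : ∑ i ∈ Finset.univ.filter (fun i => blk N i = 1), ‖z i‖ ^ 2
      = ∑ i : Fin N, ‖z (Fin.natAdd 2 i)‖ ^ 2 := by
    rw [Finset.sum_filter, Fin.sum_univ_add]
    simp [blk]
  simp only [sphereProd, MB, mem_setOf_eq, Fin.forall_fin_two, hm_self, h0, h1,
    Complex.ofReal_eq_one]

theorem main : ∃ N : ℕ, LeviCondition (sphereProd N) ∧ ∃ f : Cn (2 + N) → Cn (2 + N),
    IsCRMap (sphereProd N) (sphereProd N) f ∧
      ∀ k : ℕ∞, 2 ≤ k → IsCRSubmanifold k N (sphereProd N) ∧ ¬ Regular k (sphereProd N) f := by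
  obtain ⟨N, hN, b0, H, G, hH, hHG, hG, hG0⟩ := sphere_data
  let π : Cn (2 + N) → P := fun z => (z (Fin.castAdd N 0), z (Fin.castAdd N 1))
  have hπd : Differentiable ℂ π := by
    simp only [π]
    fun_prop
  have hπc : ContDiff ℝ 1 π := by
    simp only [π]
    fun_prop
  have hπS : ∀ z ∈ sphereProd N, π z ∈ S := by
    intro z hz
    have := hz.1
    rw [Fin.sum_univ_two] at this
    exact this
  let f : Cn (2 + N) → Cn (2 + N) := fun z =>
    Fin.addCases (fun a => if a = 0 then 1 else 0) (fun b => G b (π z))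
  have hGc : ∀ b, ContinuousOn (G b) S := fun b =>
    (hHG b).continuousOn (Eventually.of_forall fun j => (hH j b).continuous.continuousOn).frequently
  have hnd : ∀ (U : Set (Cn (2 + N))) (F : Cn (2 + N) → Cn (2 + N)), IsOpen U →
      (Fin.addCases (fun a => if a = 0 then 1 else 0) (fun b => if b = b0 then 1 else 0) :
        Cn (2 + N)) ∈ U → DifferentiableOn ℝ F U → ¬ EqOn F f (sphereProd N ∩ U) := by
    intro U F hU hp hF hEq
    let γ : ℝ → Cn (2 + N) := fun t =>
      Fin.addCases (fun a => if a = 0 then Complex.exp ((t : ℂ) * Complex.I) else 0)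
        (fun b => if b = b0 then 1 else 0)
    have hγM : ∀ t, γ t ∈ sphereProd N := by
      intro t
      constructor
      · simp [γ, Complex.norm_exp_ofReal_mul_I]
      · simp [γ, apply_ite]
    have hγd : Differentiable ℝ γ := by
      rw [differentiable_pi]
      intro i
      refine Fin.addCases (fun a => ?_) (fun b => ?_) i
      · simp only [γ, Fin.addCases_left]
        split_ifs
        · exact (Complex.ofRealCLM.differentiable.mul_const Complex.I).cexp
        · exact differentiable_const _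
      · simp only [γ, Fin.addCases_right]
        exact differentiable_const _
    have hγ0 : γ 0 ∈ U := by
      simpa [γ] using hp
    have h1 : DifferentiableAt ℝ (fun t => F (γ t) (Fin.natAdd 2 b0)) 0 :=
      differentiableAt_pi.1 ((hF.differentiableAt (hU.mem_nhds hγ0)).comp 0 (hγd 0)) _
    apply lacSum_not_diff
    refine h1.congr_of_eventuallyEq ?_
    filter_upwards [hγd.continuous.continuousAt.eventually (hU.mem_nhds hγ0)] with t ht
    rw [hEq ⟨hγM t, ht⟩]
    simp [f, π, γ, hG0]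
  have hp0 : (Fin.addCases (fun a => if a = 0 then 1 else 0) (fun b => if b = b0 then 1 else 0) :
      Cn (2 + N)) ∈ sphereProd N := by
    constructor
    · simp
    · simp [apply_ite]
  refine ⟨N, ?_, f, ⟨?_, ?_, ?_⟩, fun k hk => ⟨?_, ?_⟩⟩
  · rw [sphereProd_eq]
    apply leviCondition_MB
    rw [Fin.forall_fin_two]
    constructor
    · exact ⟨Fin.castAdd N 0, Fin.castAdd N 1, by simp [Fin.ext_iff], by simp [blk], by simp [blk]⟩
    · exact ⟨Fin.natAdd 2 ⟨0, by omega⟩, Fin.natAdd 2 ⟨1, by omega⟩, by simp [Fin.ext_iff],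
        by simp only [blk, Fin.addCases_right], by simp only [blk, Fin.addCases_right]⟩
  · intro z hz
    constructor
    · simp [f]
    · simp only [f, Fin.addCases_right]
      exact hG _ (hπS z hz)
  · rw [continuousOn_pi]
    intro i
    refine Fin.addCases (fun a => ?_) (fun b => ?_) i
    · simp only [f, Fin.addCases_left]
      exact continuousOn_const
    · simp only [f, Fin.addCases_right]
      exact (hGc b).comp hπd.continuous.continuousOn hπS
  · intro i
    refine Fin.addCases (fun a => ?_) (fun b => ?_) i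
    · simp only [f, Fin.addCases_left]
      exact isCRFunction_of_entire _ _ (differentiable_const _) contDiff_const
    · simp only [f, Fin.addCases_right]
      refine isCRFunction_of_limit _ (fun j z => H j b (π z)) _ (fun j => ?_)
        (fun j => ((hH j b).comp hπd).continuous) ?_
      · refine isCRFunction_of_entire _ _ ((hH j b).comp hπd) ?_
        exact ((cauchy_iter_contDiff 1 _ (hH j b)).restrict_scalars ℝ).comp hπc
      · exact ((hHG b).comp π).mono hπS
  · rw [sphereProd_eq]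
    exact isCRSub_MB _ k N rfl
  · rintro ⟨h1, h2⟩
    induction k using ENat.recTopCoe with
    | top =>
      obtain ⟨U, F, hU, hp, hF, hEq⟩ := h2 rfl _ hp0
      exact hnd U F hU hp (hF.differentiableOn (by simp)) hEq
    | coe j =>
      have hj : (2 : ℝ) ≤ j := by
        have : 2 ≤ j := by exact_mod_cast hk
        exact_mod_cast this
      obtain ⟨U, F, C, hU, hp, hF, -, hEq⟩ := h1 j rfl (1 / 4) (by norm_num) (by linarith) _ hp0
      refine hnd U F hU hp (hF.differentiableOn ?_) hEq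
      have : 1 ≤ ⌊(j : ℝ) - 1 / 2 - 1 / 4⌋₊ := Nat.le_floor (by push_cast; linarith)
      have h0 : ⌊(j : ℝ) - 1 / 2 - 1 / 4⌋₊ ≠ 0 := by omega
      exact_mod_cast h0

end Pool.Agent.H486Z.CR
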