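import Mathlib

/-!
Rainbow cliques: the Hall-type criterion.
-/

set_option autoImplicit false

namespace Pool.Agent.H486Z.Rb

open Finset

variable {α κ : Type} [Fintype κ] [DecidableEq κ]

open Classical in
/-- number of colours of `C` missing on the pair `u v` -/
noncomputable def wC (miss : κ → α → α → Prop) (C : Finset κ) (u v : α) : ℕ :=
  #(C.filter fun i => miss i u v)

/-- missing colours on the edges from the `j`-th vertex to the earlier ones -/
noncomputable def back (miss : κ → α → α → Prop) (C : Finset κ) (f : ℕ → α) (j : ℕ) : ℕ :=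
  ∑ a ∈ range j, wC miss C (f j) (f a)

/-- pairs `a < b < r` -/
def prs (r : ℕ) : Finset (ℕ × ℕ) := (range r ×ˢ range r).filter fun p => p.1 < p.2

theorem mem_prs {r : ℕ} {p : ℕ × ℕ} : p ∈ prs r ↔ p.1 < p.2 ∧ p.2 < r := by
  simp only [prs, mem_filter, mem_product, mem_range]
  omega

theorem card_prs (r : ℕ) : #(prs r) = r.choose 2 := by
  simpa [prs] using Finset.card_product_filter_lt (s := range r)

theorem sum_prs (r : ℕ) (g : ℕ → ℕ → ℕ) :
    ∑ p ∈ prs r, g p.1 p.2 = ∑ j ∈ range r, ∑ a ∈ range j, g a j := by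
  rw [prs, sum_filter, sum_product_right]
  refine sum_congr rfl fun j hj => ?_
  rw [← sum_filter]
  refine sum_congr ?_ fun _ _ => rfl
  ext a
  simp only [mem_filter, mem_range] at hj ⊢
  omega

open Classical in
/-- number of pairs among the first `n` vertices carrying colour `i` -/
noncomputable def pres (miss : κ → α → α → Prop) (f : ℕ → α) (n : ℕ) (i : κ) : ℕ :=
  #((prs n).filter fun p => ¬ miss i (f p.2) (f p.1))

theorem hall (miss : κ → α → α → Prop) (C : Finset κ) (f : ℕ → α) (r : ℕ)
    (hk : Fintype.card κ = r.choose 2) (hC : Fintype.card κ ≤ #C + 1) (hr : 2 * r ≤ #C)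
    (B1 : ∀ j < r, back miss C f j + (r - 1 - j) < #C)
    (B2 : ∑ j ∈ range r, back miss C f j + r * r < r * Fintype.card κ)
    (B3 : ∀ i, r ≤ pres miss f r i) :
    ∃ φ : prs r → κ, Function.Injective φ ∧ ∀ p, ¬ miss (φ p) (f p.1.2) (f p.1.1) := by
  classical
  have key := (Finset.all_card_le_biUnion_card_iff_exists_injective
    (fun p : prs r => univ.filter fun i => ¬ miss i (f p.1.2) (f p.1.1))).1 ?_
  · obtain ⟨φ, h1, h2⟩ := key
    exact ⟨φ, h1, fun p => (mem_filter.1 (h2 p)).2⟩
  intro s
  by_contra hlt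
  push Not at hlt
  set N := s.biUnion fun p : prs r => univ.filter fun i => ¬ miss i (f p.1.2) (f p.1.1) with hN
  set E : Finset (ℕ × ℕ) := s.map (Function.Embedding.subtype _) with hE
  have hEc : #E = #s := card_map _
  have hEP : E ⊆ prs r := by
    intro p hp
    obtain ⟨q, -, rfl⟩ := mem_map.1 hp
    exact q.2
  have hmiss : ∀ p ∈ E, ∀ i, i ∉ N → miss i (f p.2) (f p.1) := by
    intro p hp i hi
    obtain ⟨q, hq, rfl⟩ := mem_map.1 hp
    by_contra h
    exact hi (mem_biUnion.2 ⟨q, hq, mem_filter.2 ⟨mem_univ _, h⟩⟩)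
  have hEk : #E ≤ Fintype.card κ := hk ▸ card_prs r ▸ card_le_card hEP
  obtain ⟨i, hi⟩ : ∃ i, i ∉ N := by
    by_contra h
    push Not at h
    have : N = univ := eq_univ_of_forall h
    rw [this, card_univ] at hlt
    omega
  have h1 : #E + r ≤ Fintype.card κ := by
    have hd : Disjoint E ((prs r).filter fun p => ¬ miss i (f p.2) (f p.1)) :=
      disjoint_left.2 fun p hp hq => (mem_filter.1 hq).2 (hmiss p hp i hi)
    have := card_le_card (union_subset hEP (filter_subset (fun p => ¬ miss i (f p.2) (f p.1)) _))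
    rw [card_union_of_disjoint hd, card_prs, ← hk] at this
    have h3 := B3 i
    unfold pres at h3
    omega
  have hw : ∀ p ∈ E, #C + 1 ≤ wC miss C (f p.2) (f p.1) + #E := by
    intro p hp
    have hs : C \ N ⊆ C.filter fun i => miss i (f p.2) (f p.1) := fun i hi =>
      mem_filter.2 ⟨(mem_sdiff.1 hi).1, hmiss p hp i (mem_sdiff.1 hi).2⟩
    have h2 := card_le_card hs
    have h3 := le_card_sdiff N C
    unfold wC
    omega
  rcases le_or_gt r #E with he | he
  · have h2 : ∑ p ∈ E, wC miss C (f p.2) (f p.1) ≤ ∑ j ∈ range r, back miss C f j := by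
      refine (sum_le_sum_of_subset hEP).trans (le_of_eq ?_)
      exact sum_prs r fun a j => wC miss C (f j) (f a)
    have h3 : #E * (#C + 1) ≤ ∑ p ∈ E, wC miss C (f p.2) (f p.1) + #E * #E := by
      have := sum_le_sum hw
      simpa [sum_add_distrib] using this
    obtain ⟨a, ha⟩ := Nat.exists_eq_add_of_le he
    obtain ⟨b, hb⟩ := Nat.exists_eq_add_of_le h1
    rw [ha] at h3 hb
    have h4 : (r + a) * Fintype.card κ ≤ (r + a) * (#C + 1) := Nat.mul_le_mul_left _ hC
    rw [hb] at B2 h4
    nlinarith [Nat.zero_le (a * b)]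
  · have hle : ∀ p ∈ E, wC miss C (f p.2) (f p.1) ≤ back miss C f p.2 := fun p hp =>
      single_le_sum (f := fun a => wC miss C (f p.2) (f a)) (fun _ _ => Nat.zero_le _)
        (mem_range.2 (mem_prs.1 (hEP hp)).1)
    have hcard : #E ≤ #(Ico (r + 1 - #E) r) := by
      refine card_le_card_of_injOn (fun p => p.2) (fun p hp => ?_) fun p hp q hq hpq => ?_
      · have hp' : p ∈ E := hp
        have a1 := hw p hp'
        have a2 := hle p hp'
        have a3 := mem_prs.1 (hEP hp')
        have a4 := B1 p.2 a3.2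
        simp only [coe_Ico, Set.mem_Ico]
        omega
      · have hp' : p ∈ E := hp
        have hq' : q ∈ E := hq
        have hpq' : p.2 = q.2 := hpq
        by_contra hne
        have hne1 : p.1 ≠ q.1 := fun h => hne (Prod.ext h hpq')
        have a1 := hw p hp'
        have a2 := hw q hq'
        have a3 := mem_prs.1 (hEP hp')
        have a4 := mem_prs.1 (hEP hq')
        have a5 := B1 p.2 a3.2
        have a6 : ∑ a ∈ {p.1, q.1}, wC miss C (f p.2) (f a) ≤ back miss C f p.2 :=
          sum_le_sum_of_subset (by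
            intro a ha
            simp only [mem_insert, mem_singleton] at ha
            rcases ha with rfl | rfl
            · exact mem_range.2 a3.1
            · exact mem_range.2 (hpq' ▸ a4.1))
        rw [sum_pair hne1] at a6
        rw [← hpq'] at a2
        omega
    rw [Nat.card_Ico] at hcard
    omega

end Pool.Agent.H486Z.Rb
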