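import Pool.Agent.H486Z.RbA

/-!
Rainbow cliques: greedy constructions of vertex sequences.
-/

set_option autoImplicit false

namespace Pool.Agent.H486Z.Rb

open Finset Function

variable {α κ : Type} [Fintype α] [Fintype κ] [DecidableEq κ]

theorem pick {y : α → ℝ} (hy : ∀ v, 0 ≤ y v) (S : Finset α) {F : α → ℝ} (hF : ∀ v, 0 ≤ F v)
    {δ : ℝ} (hδ : 0 < δ) (hS : δ ≤ ∑ v ∈ S, y v) :
    ∃ v ∈ S, 0 < y v ∧ δ * F v ≤ ∑ u, y u * F u := by
  classical
  set a := ∑ u, y u * F u with ha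
  have ha0 : 0 ≤ a := sum_nonneg fun u _ => mul_nonneg (hy u) (hF u)
  have hm : ∑ v ∈ S.filter (fun v => 0 < y v), y v = ∑ v ∈ S, y v := by
    refine sum_filter_of_ne fun v _ h => lt_of_le_of_ne (hy v) (Ne.symm h)
  have hne : (S.filter fun v => 0 < y v).Nonempty := by
    rw [nonempty_iff_ne_empty]
    intro h
    rw [h, sum_empty] at hm
    linarith
  have h1 : ∑ v ∈ S.filter (fun v => 0 < y v), y v * (δ * F v) ≤
      ∑ v ∈ S.filter (fun v => 0 < y v), y v * a := by
    rw [← sum_mul, hm]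
    calc ∑ v ∈ S.filter (fun v => 0 < y v), y v * (δ * F v)
        ≤ ∑ v, y v * (δ * F v) := sum_le_sum_of_subset_of_nonneg (subset_univ _)
          fun v _ _ => mul_nonneg (hy v) (mul_nonneg hδ.le (hF v))
      _ = δ * a := by rw [ha, mul_sum]; exact sum_congr rfl fun v _ => by ring
      _ ≤ _ := mul_le_mul_of_nonneg_right hS ha0
  obtain ⟨v, hv, h⟩ := exists_le_of_sum_le hne h1
  have hv' := mem_filter.1 hv
  exact ⟨v, hv'.1, hv'.2, le_of_mul_le_mul_left h hv'.2⟩

theorem markov {y : α → ℝ} (hy : ∀ v, 0 ≤ y v) {F : α → ℝ} (hF : ∀ v, 0 ≤ F v) (t : ℝ)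
    (T : Finset α) (hT : ∀ v ∈ T, t ≤ F v) : (∑ v ∈ T, y v) * t ≤ ∑ u, y u * F u := by
  rw [sum_mul]
  exact (sum_le_sum fun v hv => mul_le_mul_of_nonneg_left (hT v hv) (hy v)).trans
    (sum_le_sum_of_subset_of_nonneg (subset_univ _) fun v _ _ => mul_nonneg (hy v) (hF v))

/-- weighted number of missing colours at a vertex -/
noncomputable def row (miss : κ → α → α → Prop) (y : α → ℝ) (C : Finset κ) (v : α) : ℝ :=
  ∑ u, y u * wC miss C u v

open Classical in
/-- weight of the vertices joined to `v` without colour `i` -/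
noncomputable def pc (miss : κ → α → α → Prop) (y : α → ℝ) (i : κ) (v : α) : ℝ :=
  ∑ u, y u * if miss i u v then 1 else 0

variable (miss : κ → α → α → Prop)

omit [Fintype α] [Fintype κ] [DecidableEq κ] in
theorem back_congr (C : Finset κ) {f g : ℕ → α} {j : ℕ} (h : ∀ a ≤ j, f a = g a) :
    back miss C f j = back miss C g j :=
  sum_congr rfl fun a ha => by rw [h j le_rfl, h a (mem_range.1 ha).le]

omit [Fintype κ] [DecidableEq κ] in
theorem step {y : α → ℝ} (hy : ∀ v, 0 ≤ y v) (C : Finset κ) (S : Finset α) {δ : ℝ} (hδ : 0 < δ)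
    (hS : δ ≤ ∑ v ∈ S, y v) (f : ℕ → α) (j : ℕ) :
    ∃ v ∈ S, 0 < y v ∧ δ * back miss C (update f j v) j ≤
      ∑ a ∈ range j, row miss y C (update f j v a) := by
  obtain ⟨v, hv, h0, h⟩ := pick hy S (F := fun v => ∑ a ∈ range j, (wC miss C v (f a) : ℝ))
    (fun v => by positivity) hδ hS
  refine ⟨v, hv, h0, ?_⟩
  have e1 : (back miss C (update f j v) j : ℝ) = ∑ a ∈ range j, (wC miss C v (f a) : ℝ) := by
    unfold back
    push_cast
    exact sum_congr rfl fun a ha => by rw [update_self, update_of_ne (mem_range.1 ha).ne]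
  have e2 : ∑ a ∈ range j, row miss y C (update f j v a) =
      ∑ u, y u * ∑ a ∈ range j, (wC miss C u (f a) : ℝ) := by
    simp only [mul_sum]
    rw [sum_comm]
    exact sum_congr rfl fun a ha => by rw [update_of_ne (mem_range.1 ha).ne]; rfl
  rw [e1, e2]
  exact h

/-- the greedy property on an interval of indices -/
def Gr (y : α → ℝ) (C : Finset κ) (S : Finset α) (δ : ℝ) (f : ℕ → α) (j0 j1 : ℕ) : Prop :=
  ∀ j, j0 ≤ j → j < j1 → f j ∈ S ∧ 0 < y (f j) ∧
    δ * back miss C f j ≤ ∑ a ∈ range j, row miss y C (f a)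

omit [Fintype κ] [DecidableEq κ] in
theorem Gr.congr {y : α → ℝ} {C : Finset κ} {S : Finset α} {δ : ℝ} {f g : ℕ → α} {j0 j1 : ℕ}
    (h : Gr miss y C S δ f j0 j1) (e : ∀ a < j1, g a = f a) : Gr miss y C S δ g j0 j1 := by
  intro j h0 h1
  obtain ⟨a1, a2, a3⟩ := h j h0 h1
  rw [e j h1, back_congr miss C (f := g) (g := f) fun a ha => e a (by omega),
    sum_congr rfl fun a ha => by rw [e a (by have := mem_range.1 ha; omega)]]
  exact ⟨a1, a2, a3⟩

omit [Fintype κ] [DecidableEq κ] in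
theorem Gr.snoc {y : α → ℝ} {C : Finset κ} {S : Finset α} {δ : ℝ} {f : ℕ → α} {j0 j1 : ℕ}
    (h : Gr miss y C S δ f j0 j1) {v : α} (hv : v ∈ S) (h0 : 0 < y v)
    (hb : δ * back miss C (update f j1 v) j1 ≤ ∑ a ∈ range j1, row miss y C (update f j1 v a)) :
    Gr miss y C S δ (update f j1 v) j0 (j1 + 1) := by
  intro j a1 a2
  rcases (Nat.lt_succ_iff.1 a2).eq_or_lt with rfl | a3
  · rw [update_self]
    exact ⟨hv, h0, hb⟩
  · exact h.congr miss (fun a ha => update_of_ne ha.ne _ _) j a1 a3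

omit [Fintype κ] [DecidableEq κ] in
theorem stageA {y : α → ℝ} (hy : ∀ v, 0 ≤ y v) (C : Finset κ) (S : Finset α) {δ : ℝ} (hδ : 0 < δ)
    (hS : δ ≤ ∑ v ∈ S, y v) (f : ℕ → α) (j0 h : ℕ) :
    ∃ g : ℕ → α, (∀ a < j0, g a = f a) ∧ Gr miss y C S δ g j0 (j0 + h) := by
  induction h with
  | zero => exact ⟨f, fun _ _ => rfl, fun j a b => absurd b (by omega)⟩
  | succ h ih =>
    obtain ⟨g, g1, g2⟩ := ih
    obtain ⟨v, hv, h0, hb⟩ := step miss hy C S hδ hS g (j0 + h)
    exact ⟨update g (j0 + h) v, fun a ha => by rw [update_of_ne (by omega), g1 a ha],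
      g2.snoc miss hv h0 hb⟩

open Classical in
omit [DecidableEq κ] in
theorem stageB [Nonempty κ] {y : α → ℝ} (hy : ∀ v, 0 ≤ y v) (C : Finset κ) (S : Finset α)
    (hS : 1 / 2 ≤ ∑ v ∈ S, y v) (Bad : κ → α → Prop)
    (hB : ∀ i, ∑ v ∈ univ.filter (Bad i), y v ≤ 1 / 60) (f : ℕ → α) (j0 h : ℕ) :
    ∃ g : ℕ → α, (∀ a < j0, g a = f a) ∧ Gr miss y C S (1 / 4) g j0 (j0 + h) ∧
      ∑ i, (16 : ℝ) ^ #((Ico j0 (j0 + h)).filter fun j => Bad i (g j)) ≤
        Fintype.card κ * 2 ^ h := by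
  induction h with
  | zero => exact ⟨f, fun _ _ => rfl, fun j a b => absurd b (by omega), by simp⟩
  | succ h ih =>
    obtain ⟨g, g1, g2, g3⟩ := ih
    set c : κ → ℕ := fun i => #((Ico j0 (j0 + h)).filter fun j => Bad i (g j)) with hc
    set Φ : ℝ := ∑ i, (16 : ℝ) ^ c i with hΦ
    have hΦ0 : 0 < Φ := sum_pos (fun i _ => by positivity) univ_nonempty
    set G : α → ℝ := fun v => ∑ i, 15 * (16 : ℝ) ^ c i * if Bad i v then 1 else 0 with hG
    have hG0 : ∀ v, 0 ≤ G v := fun v => sum_nonneg fun i _ => by positivity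
    have hEG : ∑ u, y u * G u ≤ Φ / 4 := by
      simp only [hG, mul_sum]
      rw [sum_comm, hΦ, sum_div]
      refine sum_le_sum fun i _ => ?_
      have e : ∑ u, y u * (15 * (16 : ℝ) ^ c i * if Bad i u then 1 else 0) =
          15 * (16 : ℝ) ^ c i * ∑ v ∈ univ.filter (Bad i), y v := by
        rw [sum_filter, mul_sum]
        exact sum_congr rfl fun u _ => by split_ifs <;> ring
      rw [e]
      have := hB i
      have hp : (0 : ℝ) < 16 ^ c i := by positivity
      nlinarith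
    have hT := (markov hy hG0 Φ (S.filter fun v => ¬ G v ≤ Φ)
      fun v hv => (not_le.1 (mem_filter.1 hv).2).le).trans hEG
    have hT' : ∑ v ∈ S.filter (fun v => ¬ G v ≤ Φ), y v ≤ 1 / 4 := by
      by_contra hn
      have := not_le.1 hn
      nlinarith
    have hS' : 1 / 4 ≤ ∑ v ∈ S.filter (fun v => G v ≤ Φ), y v := by
      have := sum_filter_add_sum_filter_not S (fun v => G v ≤ Φ) y
      linarith
    obtain ⟨v, hv, h0, hb⟩ := step miss hy C _ (by norm_num) hS' g (j0 + h)
    have hv' := mem_filter.1 hv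
    refine ⟨update g (j0 + h) v, fun a ha => by rw [update_of_ne (by omega), g1 a ha],
      g2.snoc miss hv'.1 h0 hb, ?_⟩
    have e : ∀ i, (16 : ℝ) ^ #((Ico j0 (j0 + (h + 1))).filter
        fun j => Bad i (update g (j0 + h) v j)) =
        16 ^ c i + 15 * (16 : ℝ) ^ c i * if Bad i v then 1 else 0 := by
      intro i
      have e1 : (Ico j0 (j0 + h)).filter (fun j => Bad i (update g (j0 + h) v j)) =
          (Ico j0 (j0 + h)).filter fun j => Bad i (g j) :=
        filter_congr fun j hj => by rw [update_of_ne (mem_Ico.1 hj).2.ne]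
      have e2 : Ico j0 (j0 + (h + 1)) = insert (j0 + h) (Ico j0 (j0 + h)) := by
        ext j
        simp only [mem_Ico, mem_insert]
        omega
      rw [e2, filter_insert, update_self, e1]
      split_ifs with hb
      · rw [card_insert_of_notMem (by simp), pow_succ]
        ring
      · simp [hc]
    simp only [e, sum_add_distrib]
    have := hv'.2
    rw [pow_succ]
    linarith

open Classical in
omit [Fintype α] [DecidableEq κ] in
theorem count_good {Bad : κ → α → Prop} {g : ℕ → α} {j0 s : ℕ} (hk : Fintype.card κ ≤ 2 ^ s)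
    (h : ∑ i, (16 : ℝ) ^ #((Ico j0 (j0 + s)).filter fun j => Bad i (g j)) ≤
      Fintype.card κ * 2 ^ s) (i : κ) :
    s ≤ 2 * #((Ico j0 (j0 + s)).filter fun j => ¬ Bad i (g j)) := by
  have h1 := (single_le_sum (f := fun i => (16 : ℝ) ^ #((Ico j0 (j0 + s)).filter
    fun j => Bad i (g j))) (fun _ _ => by positivity) (mem_univ i)).trans h
  have h2 : (Fintype.card κ : ℝ) ≤ 2 ^ s := by exact_mod_cast hk
  have h3 : (2 : ℝ) ^ (4 * #((Ico j0 (j0 + s)).filter fun j => Bad i (g j))) ≤ 2 ^ (s + s) := by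
    rw [pow_mul, pow_add]
    refine le_trans (le_of_eq (by norm_num)) (h1.trans ?_)
    gcongr
  have h4 := (pow_le_pow_iff_right₀ (by norm_num : (1 : ℝ) < 2)).1 h3
  have h5 := card_filter_add_card_filter_not (s := Ico j0 (j0 + s)) fun j => Bad i (g j)
  rw [Nat.card_Ico] at h5
  omega

omit [Fintype κ] [DecidableEq κ] in
theorem pc_nonneg {y : α → ℝ} (hy : ∀ v, 0 ≤ y v) (i : κ) (v : α) : 0 ≤ pc miss y i v :=
  sum_nonneg fun u _ => mul_nonneg (hy u) (by positivity)

omit [DecidableEq κ] in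
theorem stage12 [Nonempty κ] [Nonempty α] {y : α → ℝ} (hy : ∀ v, 0 ≤ y v) (S : Finset α)
    (hS : 1 / 2 ≤ ∑ v ∈ S, y v) (hp : ∀ i, ∑ v, y v * pc miss y i v ≤ 1 / 7200) {s : ℕ}
    (hs : 0 < s) (hk : Fintype.card κ ≤ 2 ^ s) :
    ∃ g : ℕ → α, Gr miss y univ S (1 / 4) g 0 (s + s) ∧ ∀ i, s * s ≤ 8 * pres miss g (s + s) i := by
  classical
  obtain ⟨f, -, f2, f3⟩ := stageB miss hy univ S hS (fun i v => 1 / 120 < pc miss y i v)
    (fun i => by
      have := (markov hy (pc_nonneg miss hy i) (1 / 120)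
        (univ.filter fun v => 1 / 120 < pc miss y i v)
        fun v hv => (mem_filter.1 hv).2.le).trans (hp i)
      convert (show ∑ v ∈ univ.filter (fun v => 1 / 120 < pc miss y i v), y v ≤ 1 / 60 by
        linarith))
    (fun _ => Classical.arbitrary α) 0 s
  have f4 := count_good (Bad := fun i v => 1 / 120 < pc miss y i v) (g := f) (j0 := 0) hk f3
  simp only [zero_add] at f2 f4
  set A : κ → Finset ℕ := fun i => (Ico 0 s).filter fun j => ¬ 1 / 120 < pc miss y i (f j) with hA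
  have f5 : ∀ i, s ≤ 2 * #(A i) := fun i => by convert f4 i
  set X : κ → α → ℝ := fun i v => ∑ a ∈ A i, if miss i v (f a) then 1 else 0 with hX
  obtain ⟨g, g1, g2, g3⟩ := stageB miss hy univ S hS (fun i v => (#(A i) : ℝ) / 2 < X i v)
    (fun i => by
      have h1 := markov hy (F := X i) (fun v => sum_nonneg fun a _ => by positivity)
        ((#(A i) : ℝ) / 2) (univ.filter fun v => (#(A i) : ℝ) / 2 < X i v)
        fun v hv => (mem_filter.1 hv).2.le
      have h2 : ∑ u, y u * X i u ≤ #(A i) * (1 / 120) := by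
        simp only [hX, mul_sum]
        rw [sum_comm, ← nsmul_eq_mul]
        refine sum_le_card_nsmul _ _ _ fun a ha => ?_
        have := not_lt.1 (mem_filter.1 ha).2
        convert this
        rfl
      have h3 : (0 : ℝ) < #(A i) := by
        have := f5 i
        exact_mod_cast (show 0 < #(A i) by omega)
      have h4 : ∑ v ∈ univ.filter (fun v => (#(A i) : ℝ) / 2 < X i v), y v ≤ 1 / 60 := by
        by_contra hn
        have := not_le.1 hn
        nlinarith
      convert h4)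
    f s s
  have g4 := count_good (Bad := fun i v => (#(A i) : ℝ) / 2 < X i v) (g := g) (j0 := s) hk g3
  refine ⟨g, fun j a1 a2 => ?_, fun i => ?_⟩
  · rcases lt_or_ge j s with h | h
    · exact f2.congr miss g1 j a1 h
    · exact g2 j h a2
  set J := (Ico s (s + s)).filter fun j => ¬ (#(A i) : ℝ) / 2 < X i (g j) with hJ
  have g5 : s ≤ 2 * #J := by convert g4 i
  have e : pres miss g (s + s) i =
      ∑ j ∈ range (s + s), ∑ a ∈ range j, if ¬ miss i (g j) (g a) then 1 else 0 := by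
    rw [← sum_prs (s + s) fun a j => if ¬ miss i (g j) (g a) then 1 else 0, pres, card_filter]
  have hj : ∀ j ∈ J, #(A i) ≤ 2 * ∑ a ∈ range j, if ¬ miss i (g j) (g a) then 1 else 0 := by
    intro j hj
    have j1 := mem_filter.1 hj
    have j2 := mem_Ico.1 j1.1
    have j3 := not_lt.1 j1.2
    have hsub : A i ⊆ range j := fun a ha => by
      have := (mem_Ico.1 (mem_filter.1 ha).1).2
      exact mem_range.2 (by omega)
    have j4 := sum_le_sum_of_subset (f := fun a => if ¬ miss i (g j) (g a) then 1 else 0) hsub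
    have j5 : (X i (g j) : ℝ) + ((∑ a ∈ A i, if ¬ miss i (g j) (g a) then 1 else 0 : ℕ) : ℝ) =
        #(A i) := by
      push_cast
      rw [hX]
      simp only
      rw [← sum_add_distrib, card_eq_sum_ones]
      push_cast
      refine sum_congr rfl fun a ha => ?_
      rw [g1 a (mem_Ico.1 (mem_filter.1 ha).1).2]
      by_cases hm : miss i (g j) (f a) <;> simp [hm]
    have j6 : (#(A i) : ℝ) ≤ 2 * ((∑ a ∈ A i, if ¬ miss i (g j) (g a) then 1 else 0 : ℕ) : ℝ) := by
      linarith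
    have j7 : #(A i) ≤ 2 * ∑ a ∈ A i, if ¬ miss i (g j) (g a) then 1 else 0 := by
      exact_mod_cast j6
    omega
  have hJs : J ⊆ range (s + s) := fun j hj => mem_range.2 (mem_Ico.1 (mem_filter.1 hj).1).2
  have h6 := sum_le_sum_of_subset
    (f := fun j => ∑ a ∈ range j, if ¬ miss i (g j) (g a) then 1 else 0) hJs
  have h7 := sum_le_sum hj
  rw [sum_const, smul_eq_mul, ← mul_sum] at h7
  rw [e]
  have h8 := Nat.mul_le_mul g5 (f5 i)
  nlinarith

end Pool.Agent.H486Z.Rb
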