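import Pool.Agent.H486Z.RbB

/-!
Rainbow cliques: the core embedding theorem.
-/

set_option autoImplicit false

namespace Pool.Agent.H486Z.Rb

open Finset Function

variable {α κ : Type} [Fintype α] [Fintype κ] [DecidableEq κ] (miss : κ → α → α → Prop)

omit [Fintype α] [Fintype κ] [DecidableEq κ] in
theorem pres_mono {f g : ℕ → α} {n m : ℕ} (hn : n ≤ m) (e : ∀ a < n, g a = f a) (i : κ) :
    pres miss f n i ≤ pres miss g m i := by
  classical
  refine card_le_card fun p hp => ?_
  have h1 := mem_filter.1 hp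
  have h2 := mem_prs.1 h1.1
  refine mem_filter.2 ⟨mem_prs.2 ⟨h2.1, by omega⟩, ?_⟩
  rw [e _ h2.2, e _ (by omega)]
  exact h1.2

/-- a rainbow clique, in terms of indices -/
def Found (r : ℕ) : Prop :=
  ∃ (f : ℕ → α) (φ : prs r → κ), Function.Injective φ ∧ ∀ p, ¬ miss (φ p) (f p.1.2) (f p.1.1)

theorem finish {x : α → ℝ} (hx : ∀ v, 0 ≤ x v) (hx1 : ∑ v, x v = 1) (C : Finset κ) {r : ℕ}
    (hr : 10 ≤ r) (hk : Fintype.card κ = r.choose 2) (hC : Fintype.card κ ≤ #C + 1)
    (f : ℕ → α) {j3 : ℕ} (hj : 4 * j3 ≤ r) (early : ∀ j < j3, back miss C f j + r ≤ #C)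
    (hΛ : ∑ a ∈ range j3, row miss x C (f a) + ((Fintype.card κ : ℝ) - #C) < j3 * (r / 2))
    (rows : ∀ v, 0 < x v → row miss x C v ≤ r / 2) (hp : ∀ i, r ≤ pres miss f j3 i) :
    Found miss r := by
  obtain ⟨g, g1, g2⟩ := stageA miss hx C univ one_pos hx1.ge f j3 (r - j3)
  rw [show j3 + (r - j3) = r by omega] at g2
  have hkr : (Fintype.card κ : ℝ) = r * (r - 1) / 2 := by rw [hk, Nat.cast_choose_two]
  have hr' : (10 : ℝ) ≤ r := by exact_mod_cast hr
  have hCk : #C ≤ Fintype.card κ := card_le_univ C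
  have hCk' : (#C : ℝ) ≤ Fintype.card κ := by exact_mod_cast hCk
  have hC' : (Fintype.card κ : ℝ) ≤ #C + 1 := by exact_mod_cast hC
  have late : ∀ j, j3 ≤ j → j < r →
      (back miss C g j : ℝ) + ((Fintype.card κ : ℝ) - #C) < j * (r / 2) := by
    intro j a1 a2
    have b1 := (g2 j a1 a2).2.2
    rw [one_mul, ← sum_range_add_sum_Ico _ a1] at b1
    have b2 : ∑ a ∈ range j3, row miss x C (g a) = ∑ a ∈ range j3, row miss x C (f a) :=
      sum_congr rfl fun a ha => by rw [g1 a (mem_range.1 ha)]
    have b3 := sum_le_card_nsmul (Ico j3 j) (fun a => row miss x C (g a)) (r / 2) fun a ha =>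
      rows _ (g2 a (mem_Ico.1 ha).1 (by have := (mem_Ico.1 ha).2; omega)).2.1
    rw [Nat.card_Ico, nsmul_eq_mul, Nat.cast_sub a1] at b3
    linarith
  have early' : ∀ j < j3, back miss C g j + r ≤ #C := fun j hj => by
    rw [back_congr miss C (f := g) (g := f) fun a ha => g1 a (by omega)]
    exact early j hj
  have h2r : 2 * r ≤ #C := by
    have : (2 * r : ℝ) ≤ #C := by nlinarith
    exact_mod_cast this
  refine ⟨g, hall miss C g r hk hC h2r (fun j hj => ?_) ?_
    fun i => (hp i).trans (pres_mono miss (by omega) g1 i)⟩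
  · rcases lt_or_ge j j3 with h | h
    · have := early' j h
      omega
    · have b1 := late j h hj
      obtain ⟨d, hd⟩ : ∃ d, r = j + 1 + d := ⟨r - 1 - j, by omega⟩
      have e : r - 1 - j = d := by omega
      have hd' : (r : ℝ) = j + 1 + d := by exact_mod_cast hd
      have hd0 : (0 : ℝ) ≤ d := by positivity
      have : (back miss C g j : ℝ) + d < #C := by nlinarith
      rw [e]
      exact_mod_cast this
  · have b1 : ∀ j ∈ range r, (back miss C g j : ℝ) ≤
        j * (r / 2) + if j ∈ range j3 then (Fintype.card κ : ℝ) else 0 := by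
      intro j hj
      by_cases h : j ∈ range j3
      · rw [if_pos h]
        have b2 := early' j (mem_range.1 h)
        have b3 : (back miss C g j : ℝ) ≤ Fintype.card κ := by
          exact_mod_cast (show back miss C g j ≤ Fintype.card κ by omega)
        have : (0 : ℝ) ≤ j * (r / 2) := by positivity
        linarith
      · rw [if_neg h]
        have := late j (by simpa using h) (mem_range.1 hj)
        linarith
    have b2 := sum_le_sum b1
    rw [sum_add_distrib, ← sum_mul, sum_ite_mem, inter_eq_right.2 (range_mono (by omega)),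
      sum_const, card_range, nsmul_eq_mul] at b2
    have b3 : ∑ j ∈ range r, (j : ℝ) = Fintype.card κ := by
      rw [hk, ← Nat.cast_sum, Finset.sum_range_id, Nat.choose_two_right]
    have b4 : (4 * j3 : ℝ) ≤ r := by exact_mod_cast hj
    have b5 : (4 * r : ℝ) < Fintype.card κ := by nlinarith
    have : ((∑ j ∈ range r, back miss C g j : ℕ) : ℝ) + r * r < r * Fintype.card κ := by
      push_cast
      rw [b3] at b2
      nlinarith
    exact_mod_cast this

theorem motzkin [Nonempty α] (w : α → α → ℝ) (hw : ∀ u v, w u v = w v u) {y : α → ℝ}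
    (hy : ∀ v, 0 ≤ y v) (hy1 : ∑ v, y v = 1) :
    ∃ (x : α → ℝ) (Q : ℝ), (∀ v, 0 ≤ x v) ∧ ∑ v, x v = 1 ∧ Q ≤ ∑ v, y v * ∑ u, y u * w u v ∧
      Q = ∑ v, x v * ∑ u, x u * w u v ∧
      (∀ v, Q ≤ ∑ u, x u * w u v) ∧ ∀ v, 0 < x v → ∑ u, x u * w u v ≤ Q := by
  classical
  obtain ⟨x, ⟨hx, hx1⟩, hmin⟩ := (isCompact_stdSimplex ℝ α).exists_isMinOn ⟨y, hy, hy1⟩
    (f := fun x : α → ℝ => ∑ v, x v * ∑ u, x u * w u v) (by fun_prop)
  set Q := ∑ v, x v * ∑ u, x u * w u v with hQ
  have low : ∀ v, Q ≤ ∑ u, x u * w u v := by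
    intro v
    set W := ∑ u, x u * w u v with hW
    have key : ∀ t : ℝ, 0 < t → t ≤ 1 → 0 ≤ 2 * (W - Q) + t * (Q - 2 * W + w v v) := by
      intro t h0 h1
      have hmem : (fun u => (1 - t) * x u + t * if u = v then 1 else 0) ∈ stdSimplex ℝ α := by
        refine ⟨fun u => add_nonneg (mul_nonneg (by linarith) (hx u)) (by positivity), ?_⟩
        rw [sum_add_distrib, ← mul_sum, ← mul_sum, hx1]
        simp
      have h2 : Q ≤ _ := hmin hmem
      have e1 : ∀ z, ∑ u, ((1 - t) * x u + t * if u = v then 1 else 0) * w u z =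
          (1 - t) * (∑ u, x u * w u z) + t * w v z := by
        intro z
        simp only [add_mul, sum_add_distrib, mul_assoc, ← mul_sum]
        simp
      have e2 : ∑ z, x z * w v z = W := sum_congr rfl fun z _ => by rw [hw]
      simp only [e1] at h2
      have e3 : ∑ z, ((1 - t) * x z + t * if z = v then 1 else 0) *
          ((1 - t) * (∑ u, x u * w u z) + t * w v z) =
          (1 - t) * ((1 - t) * Q + t * W) + t * ((1 - t) * W + t * w v v) := by
        simp only [add_mul, sum_add_distrib, mul_assoc, ← mul_sum]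
        congr 2
        · rw [hQ, ← e2, mul_sum, mul_sum, ← sum_add_distrib]
          exact sum_congr rfl fun z _ => by ring
        · simp [hW]
      rw [e3] at h2
      have : 0 ≤ t * (2 * (W - Q) + t * (Q - 2 * W + w v v)) := by nlinarith
      exact nonneg_of_mul_nonneg_right this h0 |>.trans le_rfl
    by_contra hn
    have hn' : 0 < Q - W := by linarith [not_le.1 hn]
    set D := |Q - 2 * W + w v v| + (Q - W) with hD
    have hD0 : 0 < D := by positivity
    have h3 := key ((Q - W) / D) (by positivity) (by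
      rw [div_le_one hD0]
      have := abs_nonneg (Q - 2 * W + w v v)
      linarith)
    have h4 : (Q - W) / D * (Q - 2 * W + w v v) ≤ (Q - W) / D * D := by
      have := le_abs_self (Q - 2 * W + w v v)
      gcongr
      linarith
    rw [div_mul_cancel₀ _ hD0.ne'] at h4
    linarith
  refine ⟨x, Q, hx, hx1, hmin ⟨hy, hy1⟩, rfl, low, fun v hv => ?_⟩
  have h0 : ∑ z, x z * (∑ u, x u * w u z - Q) = 0 := by
    simp only [mul_sub, sum_sub_distrib, ← sum_mul, hx1]
    linarith
  have h1 := (sum_eq_zero_iff_of_nonneg fun z _ =>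
    mul_nonneg (hx z) (sub_nonneg.2 (low z))).1 h0 v (mem_univ v)
  rcases mul_eq_zero.1 h1 with h | h
  · exact absurd h hv.ne'
  · linarith

omit [Fintype α] in
theorem back_erase_le (i : κ) (f : ℕ → α) (j : ℕ) :
    back miss (univ.erase i) f j ≤ back miss univ f j := by
  classical
  exact sum_le_sum fun a _ => card_le_card (filter_subset_filter _ (erase_subset _ _))

theorem row_erase (x : α → ℝ) (i : κ) (v : α) :
    row miss x (univ.erase i) v = row miss x univ v - pc miss x i v := by
  classical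
  unfold row pc
  rw [← sum_sub_distrib]
  refine sum_congr rfl fun u _ => ?_
  rw [← mul_sub]
  congr 1
  unfold wC
  rw [card_filter, card_filter]
  push_cast
  rw [← add_sum_erase _ _ (mem_univ i)]
  ring

theorem scale {r : ℕ} (hr : 10 ^ 30 ≤ r) :
    ∃ s : ℕ, 0 < s ∧ 8 * r ≤ s * s ∧ 10 ^ 14 * s ≤ r ∧ r.choose 2 ≤ 2 ^ s := by
  have h1 := Nat.lt_succ_sqrt r
  have h2 := Nat.sqrt_le r
  set q := Nat.sqrt r
  refine ⟨4 * (q + 1), by omega, by nlinarith, ?_, ?_⟩
  · have h3 : 10 ^ 15 ≤ q + 1 := by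
      by_contra hn
      have : q + 1 ≤ 10 ^ 15 := by omega
      nlinarith
    nlinarith
  · have h3 : q + 1 ≤ 2 ^ (q + 1) := Nat.lt_two_pow_self.le
    calc r.choose 2 ≤ r ^ 2 := Nat.choose_le_pow r 2
      _ ≤ ((q + 1) * (q + 1)) ^ 2 := by gcongr
      _ = (q + 1) ^ 4 := by ring
      _ ≤ (2 ^ (q + 1)) ^ 4 := by gcongr
      _ = _ := by rw [← pow_mul, mul_comm]

theorem core [Nonempty α] (hsym : ∀ i u v, miss i u v → miss i v u) {r : ℕ} (hr : 10 ^ 30 ≤ r)
    (hk : Fintype.card κ = r.choose 2) {y : α → ℝ} (hy : ∀ v, 0 ≤ y v) (hy1 : ∑ v, y v = 1)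
    (hQ : ∑ v, y v * row miss y univ v < r / 2) (hrow : ∀ v, row miss y univ v ≤ r / 2 + 7201)
    (hp : ∀ i, ∑ v, y v * pc miss y i v ≤ 1 / 7200) : Found miss r := by
  classical
  have hw : ∀ u v, (wC miss univ u v : ℝ) = wC miss univ v u := fun u v => by
    unfold wC
    rw [filter_congr fun i _ => (⟨hsym i u v, hsym i v u⟩ : miss i u v ↔ miss i v u)]
  obtain ⟨x, Q, hx, hx1, q1, q2, q3, q4⟩ := motzkin (fun u v => (wC miss univ u v : ℝ)) hw hy hy1
  have hQr : Q < r / 2 := q1.trans_lt hQ
  have hQ0 : 0 ≤ Q := q2 ▸ sum_nonneg fun v _ => mul_nonneg (hx v)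
    (sum_nonneg fun u _ => mul_nonneg (hx u) (by positivity))
  change ∀ v, Q ≤ row miss x univ v at q3
  change ∀ v, 0 < x v → row miss x univ v ≤ Q at q4
  obtain ⟨s, hs0, hs1, hs2, hs3⟩ := scale hr
  have hkr : (Fintype.card κ : ℝ) = r * (r - 1) / 2 := by rw [hk, Nat.cast_choose_two]
  have hr' : (10 : ℝ) ^ 30 ≤ r := by exact_mod_cast hr
  have hs2' : (10 : ℝ) ^ 14 * s ≤ r := by exact_mod_cast hs2
  have hs0' : (1 : ℝ) ≤ s := by exact_mod_cast hs0
  have : Nonempty κ := by
    rw [← Fintype.card_pos_iff, hk]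
    exact Nat.choose_pos (by omega)
  rw [← hk] at hs3
  by_cases hcase : ∀ i, ∑ v, x v * pc miss x i v ≤ 1 / 7200
  · obtain ⟨f, f1, f2⟩ := stage12 miss hx univ (by rw [hx1]; norm_num) hcase hs0 hs3
    have b0 : ∀ j ≤ s + s, ∑ a ∈ range j, row miss x univ (f a) ≤ j * Q := fun j hj => by
      have := sum_le_card_nsmul (range j) (fun a => row miss x univ (f a)) Q fun a ha =>
        q4 _ (f1 a (Nat.zero_le _) (by have := mem_range.1 ha; omega)).2.1
      rwa [card_range, nsmul_eq_mul] at this
    refine finish miss hx hx1 univ (by omega) hk (by simp) f (j3 := s + s) (by omega)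
      (fun j hj => ?_) ?_ (fun v hv => (q4 v hv).trans hQr.le) fun i => ?_
    · have b1 := (f1 j (Nat.zero_le _) hj).2.2.trans (b0 j hj.le)
      have b2 : (j : ℝ) ≤ s + s := by exact_mod_cast hj.le
      have b3 : (j : ℝ) * Q ≤ (s + s) * (r / 2) := by gcongr
      have : (back miss univ f j : ℝ) + r ≤ Fintype.card κ := by nlinarith
      rw [card_univ]
      exact_mod_cast this
    · have b1 := b0 _ le_rfl
      rw [card_univ, sub_self, add_zero]
      refine b1.trans_lt ?_
      gcongr
    · have := f2 i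
      omega
  push Not at hcase
  obtain ⟨i0, hi0⟩ := hcase
  set gp := r / 2 - Q with hgp
  have hg0 : 0 < gp := by linarith
  set B := univ.filter fun v => row miss x univ v ≤ Q + 2 * (7201 + gp) with hB
  have hBm : 1 / 2 ≤ ∑ v ∈ B, y v := by
    have b1 := markov hy (F := fun v => row miss x univ v - Q) (fun v => sub_nonneg.2 (q3 v))
      (2 * (7201 + gp)) (univ.filter fun v => ¬ row miss x univ v ≤ Q + 2 * (7201 + gp))
      fun v hv => by have := not_le.1 (mem_filter.1 hv).2; linarith
    have b2 : ∑ v, y v * row miss x univ v = ∑ u, x u * row miss y univ u := by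
      simp only [row, mul_sum]
      rw [sum_comm]
      exact sum_congr rfl fun u _ => sum_congr rfl fun v _ => by rw [hw]; ring
    have b3 : ∑ u, x u * row miss y univ u ≤ r / 2 + 7201 := by
      refine (sum_le_sum fun u _ => mul_le_mul_of_nonneg_left (hrow u) (hx u)).trans ?_
      rw [← sum_mul, hx1, one_mul]
    simp only [mul_sub, sum_sub_distrib, ← sum_mul, hy1, b2] at b1
    have b4 := sum_filter_add_sum_filter_not univ
      (fun v => row miss x univ v ≤ Q + 2 * (7201 + gp)) y
    by_contra hn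
    have := not_le.1 hn
    nlinarith
  obtain ⟨f, f1, f2⟩ := stage12 miss hy B hBm hp hs0 hs3
  set U := univ.filter fun v => 1 / 14400 ≤ pc miss x i0 v with hU
  have hUm : 1 / 14400 ≤ ∑ v ∈ U, x v := by
    have b1 : ∀ v, pc miss x i0 v ≤ 1 := fun v => by
      rw [← hx1]
      refine sum_le_sum fun u _ => mul_le_of_le_one_right (hx u) ?_
      split_ifs <;> norm_num
    have b2 : ∑ v, x v * pc miss x i0 v ≤
        ∑ v, (x v * (1 / 14400) + if 1 / 14400 ≤ pc miss x i0 v then x v else 0) := by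
      refine sum_le_sum fun v _ => ?_
      have := hx v
      split_ifs with h
      · have := mul_le_of_le_one_right (hx v) (b1 v)
        linarith
      · have := mul_le_mul_of_nonneg_left (not_le.1 h).le (hx v)
        linarith
    rw [sum_add_distrib, ← sum_mul, hx1, ← sum_filter] at b2
    linarith
  obtain ⟨g, g1, g2⟩ := stageA miss hx (univ.erase i0) U (by norm_num) hUm f (s + s) (10 ^ 9 * s)
  have hC : (#(univ.erase i0) : ℝ) = Fintype.card κ - 1 := by
    rw [card_erase_of_mem (mem_univ _), card_univ, Nat.cast_pred Fintype.card_pos]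
  have r1 : ∀ a < s + s, row miss x (univ.erase i0) (g a) ≤ r / 2 + 2 * 7201 + gp := by
    intro a ha
    rw [g1 a ha, row_erase]
    have b1 := (mem_filter.1 (f1 a (Nat.zero_le _) ha).1).2
    have b2 := pc_nonneg miss hx i0 (f a)
    linarith
  have r2 : ∀ a, s + s ≤ a → a < s + s + 10 ^ 9 * s →
      row miss x (univ.erase i0) (g a) ≤ r / 2 - gp - 1 / 14400 := by
    intro a h1 h2
    obtain ⟨b1, b2, -⟩ := g2 a h1 h2
    rw [row_erase]
    have b3 := (mem_filter.1 b1).2
    have b4 := q4 _ b2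
    linarith
  refine finish miss hx hx1 (univ.erase i0) (by omega) hk ?_ g (j3 := s + s + 10 ^ 9 * s)
    (by omega) (fun j hj => ?_) ?_ (fun v hv => ?_)
    fun i => le_trans ?_ (pres_mono miss (by omega) g1 i)
  · rw [card_erase_of_mem (mem_univ _), card_univ]
    omega
  · have b0 : (j : ℝ) ≤ s + s + 10 ^ 9 * s := by exact_mod_cast hj.le
    have b1 : (back miss (univ.erase i0) g j : ℝ) ≤ 14400 * (j * (r + 2 * 7201)) := by
      rcases lt_or_ge j (s + s) with h | h
      · have c1 : (back miss (univ.erase i0) g j : ℝ) ≤ back miss univ f j := by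
          rw [back_congr miss _ (f := g) (g := f) fun a ha => g1 a (by omega)]
          exact_mod_cast back_erase_le miss i0 f j
        have c2 := (f1 j (Nat.zero_le _) h).2.2
        have c3 := sum_le_card_nsmul (range j) (fun a => row miss y univ (f a)) (r / 2 + 7201)
          fun a _ => hrow _
        rw [card_range, nsmul_eq_mul] at c3
        have c4 : (0 : ℝ) ≤ j * (r + 2 * 7201) := by positivity
        nlinarith
      · have c2 := (g2 j h hj).2.2
        have c3 := sum_le_card_nsmul (range j) (fun a => row miss x (univ.erase i0) (g a))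
          (r + 2 * 7201) fun a ha => by
            rcases lt_or_ge a (s + s) with h' | h'
            · have := r1 a h'
              linarith
            · have := r2 a h' (by have := mem_range.1 ha; omega)
              linarith
        rw [card_range, nsmul_eq_mul] at c3
        linarith
    have b2 : (14400 : ℝ) * j ≤ r / 5 := by linarith
    have b3 : (14400 : ℝ) * j * (r + 2 * 7201) ≤ r / 5 * (r + 2 * 7201) := by gcongr
    have : (back miss (univ.erase i0) g j : ℝ) + r ≤ #(univ.erase i0) := by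
      rw [hC]
      nlinarith
    exact_mod_cast this
  · rw [← sum_range_add_sum_Ico _ (show s + s ≤ s + s + 10 ^ 9 * s by omega)]
    have c1 := sum_le_card_nsmul (range (s + s)) _ _ fun a ha => r1 a (mem_range.1 ha)
    have c2 := sum_le_card_nsmul (Ico (s + s) (s + s + 10 ^ 9 * s)) _ _
      fun a ha => r2 a (mem_Ico.1 ha).1 (mem_Ico.1 ha).2
    rw [card_range, nsmul_eq_mul] at c1
    rw [Nat.card_Ico, Nat.add_sub_cancel_left, nsmul_eq_mul] at c2
    rw [hC]
    push_cast at c1 c2 ⊢
    have : 0 ≤ (s : ℝ) * gp := by positivity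
    nlinarith
  · rw [row_erase]
    have b1 := q4 v hv
    have b2 := pc_nonneg miss hx i0 v
    linarith
  · have := f2 i
    omega

end Pool.Agent.H486Z.Rb
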