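import Mathlib

/-!
Colouring templates and rainbow cliques.
-/

set_option autoImplicit false

namespace Pool.Agent.H486Z.Rb

/-- The template `G` with `r.choose 2` colour classes contains a rainbow copy of `K_r`. -/
def RainbowClique (r : ℕ) {n : ℕ} (G : Fin (r.choose 2) → SimpleGraph (Fin n)) : Prop :=
  ∃ (v : Fin r ↪ Fin n) (φ : {p : Fin r × Fin r // p.1 < p.2} ≃ Fin (r.choose 2)),
    ∀ p, (G (φ p)).Adj (v p.1.1) (v p.1.2)

/-- For all large `n`, more than `δ n² / 2` edges in every colour class force a rainbow `K_r`. -/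
def Forces (r : ℕ) (δ : ℝ) : Prop :=
  ∃ N : ℕ, ∀ n : ℕ, N ≤ n → ∀ G : Fin (r.choose 2) → SimpleGraph (Fin n),
    (∀ i, δ * (n : ℝ) ^ 2 / 2 < ((G i).edgeSet.ncard : ℝ)) → RainbowClique r G

end Pool.Agent.H486Z.Rb
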