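import Pool.Agent.H486Z.RbC
import Pool.Agent.H486Z.RbDefs

/-!
Rainbow cliques: the density threshold for large `r`.
-/

set_option autoImplicit false

namespace Pool.Agent.H486Z.Rb

open Finset Function

theorem reduce {V κ : Type} [Fintype V] [Fintype κ] [DecidableEq κ] (miss : κ → V → V → Prop)
    (hsym : ∀ i u v, miss i u v → miss i v u) {r : ℕ} (hr : 10 ^ 30 ≤ r)
    (hk : Fintype.card κ = r.choose 2) (hn : r * Fintype.card κ ≤ Fintype.card V)
    (hD : ∀ i, ∑ v, pc miss (fun _ => 1) i v < (Fintype.card V : ℝ) ^ 2 / (r - 1)) :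
    Found miss r := by
  classical
  have hw : ∀ u v, (wC miss univ u v : ℝ) = wC miss univ v u := fun u v => by
    unfold wC
    rw [filter_congr fun i _ => (⟨hsym i u v, hsym i v u⟩ : miss i u v ↔ miss i v u)]
  have hkr : (Fintype.card κ : ℝ) = r * (r - 1) / 2 := by rw [hk, Nat.cast_choose_two]
  have hr' : (10 : ℝ) ^ 30 ≤ r := by exact_mod_cast hr
  have hn' : (r : ℝ) * Fintype.card κ ≤ Fintype.card V := by exact_mod_cast hn
  have : Nonempty κ := by
    rw [← Fintype.card_pos_iff, hk]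
    exact Nat.choose_pos (by omega)
  set k : ℝ := (Fintype.card κ : ℝ) with hkdef
  set n : ℝ := (Fintype.card V : ℝ) with hndef
  have hr1 : (0 : ℝ) < r - 1 := by linarith
  have hk0 : 0 < k := by rw [hkr]; positivity
  let D : Finset V → ℝ := fun T => ∑ v ∈ T, ∑ u ∈ T, (wC miss univ u v : ℝ)
  have hDu : D univ < r / 2 * n ^ 2 := by
    have e : D univ = ∑ i, ∑ v, pc miss (fun _ => 1) i v := by
      simp only [D, pc, wC, card_filter, one_mul]
      push_cast
      rw [sum_comm (s := univ) (t := univ) (f := fun i v => ∑ u, if miss i u v then (1 : ℝ) else 0)]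
      exact sum_congr rfl fun v _ => sum_comm
    rw [e]
    refine (sum_lt_sum_of_nonempty univ_nonempty fun i _ => hD i).trans_le (le_of_eq ?_)
    rw [sum_const, card_univ, nsmul_eq_mul, ← hkdef, hkr]
    field_simp
  obtain ⟨T, -, hT⟩ := exists_min_image univ
    (fun T : Finset V => D T - (r / 2 + 7200) * (#T : ℝ) ^ 2) univ_nonempty
  have h1 := hT univ (mem_univ _)
  rw [card_univ, ← hndef] at h1
  set m : ℝ := (#T : ℝ) with hm
  have hD0 : 0 ≤ D T := sum_nonneg fun _ _ => sum_nonneg fun _ _ => by positivity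
  have hm0 : 0 ≤ m := by positivity
  have h2 : 7200 * n ^ 2 < (r / 2 + 7200) * m ^ 2 := by linarith
  have hmk : k ≤ m := by
    by_contra hlt
    have a1 : m ^ 2 ≤ k ^ 2 := by gcongr; exact (not_le.1 hlt).le
    have a2 : (r * k) ^ 2 ≤ n ^ 2 := by gcongr
    have a3 : (r / 2 + 7200 : ℝ) ≤ 7200 * r ^ 2 := by nlinarith
    have a4 : (r / 2 + 7200) * m ^ 2 ≤ 7200 * r ^ 2 * k ^ 2 := by gcongr
    nlinarith
  have hmp : 0 < m := hk0.trans_le hmk
  have hmn : m ≤ n := by rw [hm, hndef]; exact_mod_cast card_le_univ T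
  have hDT : D T < r / 2 * m ^ 2 := by
    have : m ^ 2 ≤ n ^ 2 := by gcongr
    linarith
  have hrowT : ∀ v ∈ T, ∑ u ∈ T, (wC miss univ u v : ℝ) ≤ (r / 2 + 7201) * m := by
    intro v hv
    have a1 := hT (T.erase v) (mem_univ _)
    have a2 : (#(T.erase v) : ℝ) = m - 1 := by
      rw [card_erase_of_mem hv, Nat.cast_pred (card_pos.2 ⟨v, hv⟩)]
    have a3 : D T = D (T.erase v) + 2 * ∑ u ∈ T, (wC miss univ u v : ℝ) - wC miss univ v v := by
      simp only [D]
      rw [← add_sum_erase T _ hv]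
      have e : ∀ z, ∑ u ∈ T, (wC miss univ u z : ℝ) =
          wC miss univ z v + ∑ u ∈ T.erase v, (wC miss univ u z : ℝ) := fun z => by
        rw [← add_sum_erase T _ hv, hw]
      simp only [e, sum_add_distrib]
      ring
    have a4 : (wC miss univ v v : ℝ) ≤ k := by
      rw [hkdef]
      exact_mod_cast card_le_univ _
    rw [a2] at a1
    nlinarith
  have hTne : Nonempty T := by
    obtain ⟨v, hv⟩ := card_pos.1 (Nat.cast_pos.1 (hm ▸ hmp : (0 : ℝ) < #T))
    exact ⟨⟨v, hv⟩⟩
  have hrow : ∀ v : T, row (fun i (a b : T) => miss i a.1 b.1) (fun _ => 1 / m) univ v =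
      1 / m * ∑ u ∈ T, (wC miss univ u v.1 : ℝ) := fun v => by
    rw [row, ← mul_sum, ← sum_coe_sort T]
    rfl
  obtain ⟨f, φ, h3, h4⟩ := core (fun i (a b : T) => miss i a.1 b.1) (fun i u v => hsym i u v) hr hk
    (y := fun _ => 1 / m) (fun _ => by positivity)
    (by rw [sum_const, card_univ, Fintype.card_coe, nsmul_eq_mul, ← hm]; field_simp)
    (by
      simp only [hrow, ← mul_sum]
      rw [sum_coe_sort T fun v => ∑ u ∈ T, (wC miss univ u v : ℝ)]
      change 1 / m * (1 / m * D T) < r / 2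
      rw [← mul_assoc, one_div_mul_one_div, one_div_mul_eq_div, div_lt_iff₀ (by positivity)]
      linarith)
    (fun v => by
      rw [hrow, one_div_mul_eq_div, div_le_iff₀ hmp]
      exact hrowT v.1 v.2)
    (fun i => by
      have e : ∀ v : T, pc (fun i (a b : T) => miss i a.1 b.1) (fun _ => 1 / m) i v =
          1 / m * ∑ u ∈ T, if miss i u v.1 then (1 : ℝ) else 0 := fun v => by
        rw [pc, ← mul_sum, ← sum_coe_sort T]
      simp only [e, ← mul_sum]
      rw [sum_coe_sort T fun v => ∑ u ∈ T, if miss i u v then (1 : ℝ) else 0]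
      have a1 : ∑ v ∈ T, ∑ u ∈ T, (if miss i u v then (1 : ℝ) else 0) ≤
          ∑ v, pc miss (fun _ => 1) i v := by
        refine (sum_le_sum fun v _ => ?_).trans (sum_le_sum_of_subset_of_nonneg (subset_univ T)
          fun v _ _ => pc_nonneg miss (fun _ => zero_le_one) i v)
        simp only [pc, one_mul]
        exact sum_le_sum_of_subset_of_nonneg (subset_univ T) fun _ _ _ => by positivity
      have a2 := a1.trans_lt (hD i)
      rw [lt_div_iff₀ hr1] at a2
      rw [← mul_assoc, one_div_mul_one_div, one_div_mul_eq_div, div_le_iff₀ (by positivity)]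
      set S := ∑ v ∈ T, ∑ u ∈ T, (if miss i u v then (1 : ℝ) else 0)
      have a3 : (r / 2 + 7200) * m ^ 2 ≤ (r - 1) * m ^ 2 := by gcongr; linarith
      have a4 : (r - 1) * (7200 * S) < (r - 1) * m ^ 2 := by linarith
      have a5 := lt_of_mul_lt_mul_left a4 hr1.le
      linarith)
  exact ⟨fun j => (f j).1, φ, h3, h4⟩

theorem upper {r : ℕ} (hr : 10 ^ 30 ≤ r) : Forces r (1 - 1 / ((r : ℝ) - 1)) := by
  classical
  refine ⟨r * r.choose 2, fun n hn G hG => ?_⟩
  obtain ⟨f, φ, h1, h2⟩ := reduce (fun i u v => ¬ (G i).Adj u v) (fun i u v h h' => h h'.symm) hr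
    (Fintype.card_fin _) (by simpa using hn) (fun i => by
      have a1 := hG i
      rw [← SimpleGraph.coe_edgeFinset, Set.ncard_coe_finset] at a1
      have a2 : ((∑ v, (G i).degree v : ℕ) : ℝ) = 2 * #(G i).edgeFinset := by
        exact_mod_cast (G i).sum_degrees_eq_twice_card_edges
      have a3 : ∀ v, pc (fun i u v => ¬ (G i).Adj u v) (fun _ => 1) i v = n - (G i).degree v := by
        intro v
        have e : ((G i).degree v : ℝ) = ∑ u, if (G i).Adj u v then 1 else 0 := by
          rw [← SimpleGraph.card_neighborFinset_eq_degree, SimpleGraph.neighborFinset_eq_filter,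
            card_filter]
          push_cast
          exact sum_congr rfl fun u _ => by simp only [(G i).adj_comm v u]
        rw [e, eq_sub_iff_add_eq, pc, ← sum_add_distrib]
        rw [sum_congr rfl (g := fun _ => (1 : ℝ)) fun u _ => by
          by_cases h : (G i).Adj u v <;> simp [h]]
        simp
      simp only [a3, sum_sub_distrib, sum_const, card_univ, Fintype.card_fin, nsmul_eq_mul]
      push_cast at a2
      rw [a2]
      have e : (n : ℝ) ^ 2 / (r - 1) = 1 / (r - 1) * n ^ 2 := by ring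
      rw [e]
      nlinarith)
  have adj : ∀ p, (G (φ p)).Adj (f p.1.1) (f p.1.2) := fun p => (not_not.1 (h2 p)).symm
  let e : {p : Fin r × Fin r // p.1 < p.2} → prs r := fun p =>
    ⟨(p.1.1.1, p.1.2.1), mem_prs.2 ⟨p.2, p.1.2.2⟩⟩
  have he : Injective e := by
    rintro ⟨⟨a, b⟩, _⟩ ⟨⟨c, d⟩, _⟩ h
    simp only [e, Subtype.mk.injEq, Prod.mk.injEq] at h ⊢
    exact ⟨Fin.ext h.1, Fin.ext h.2⟩
  have hc : Fintype.card {p : Fin r × Fin r // p.1 < p.2} = Fintype.card (Fin (r.choose 2)) := by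
    rw [Fintype.card_subtype, Fintype.card_fin]
    simpa using Finset.card_product_filter_lt (s := (univ : Finset (Fin r)))
  refine ⟨⟨fun a => f a.1, fun a b hab => ?_⟩,
    Equiv.ofBijective (φ ∘ e) ((Fintype.bijective_iff_injective_and_card _).2 ⟨h1.comp he, hc⟩),
    fun p => adj (e p)⟩
  by_contra hne
  rcases lt_or_gt_of_ne hne with h | h
  · exact (adj (e ⟨(a, b), h⟩)).ne hab
  · exact (adj (e ⟨(b, a), h⟩)).ne hab.symm

theorem turan_card (q M : ℕ) (hq : 0 < q) :
    (2 * #(SimpleGraph.turanGraph (q * M) q).edgeFinset : ℝ) = (M : ℝ) ^ 2 * q * (q - 1) := by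
  induction M with
  | zero =>
    rw [SimpleGraph.card_edgeFinset_turanGraph]
    simp
  | succ M ih =>
    have h := SimpleGraph.card_edgeFinset_turanGraph_add (n := q * M) (r := q)
    have h' : (#(SimpleGraph.turanGraph (q * (M + 1)) q).edgeFinset : ℝ) =
        #(SimpleGraph.turanGraph (q * M) q).edgeFinset + q * M * (q - 1) + q * (q - 1) / 2 := by
      rw [← Nat.cast_choose_two, ← Nat.cast_pred hq]
      exact_mod_cast h
    rw [h']
    push_cast
    linarith

theorem lower {r : ℕ} (hr : 2 ≤ r) {δ : ℝ} (h : Forces r δ) : 1 - 1 / ((r : ℝ) - 1) ≤ δ := by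
  obtain ⟨N, hN⟩ := h
  obtain ⟨q, rfl⟩ : ∃ q, r = q + 1 := ⟨r - 1, by omega⟩
  have hq : 0 < q := by omega
  by_contra hlt
  have hlt' := not_le.1 hlt
  obtain ⟨v, φ, hv⟩ := hN (q * (N + 1)) (by nlinarith)
    (fun _ => SimpleGraph.turanGraph (q * (N + 1)) q) (fun _ => by
      rw [← SimpleGraph.coe_edgeFinset, Set.ncard_coe_finset]
      have a1 := turan_card q (N + 1) hq
      have hq' : (0 : ℝ) < q := by exact_mod_cast hq
      push_cast at hlt' a1 ⊢
      rw [add_sub_cancel_right] at hlt'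
      have a2 : δ * (q * (N + 1)) ^ 2 < (1 - 1 / q) * (q * (N + 1)) ^ 2 := by gcongr
      have a3 : (1 - 1 / q) * (q * (N + 1) : ℝ) ^ 2 = (N + 1) ^ 2 * q * (q - 1) := by field_simp
      linarith)
  obtain ⟨a, b, hab, h⟩ := Fintype.exists_ne_map_eq_of_card_lt
    (fun a : Fin (q + 1) => (⟨(v a).1 % q, Nat.mod_lt _ hq⟩ : Fin q)) (by simp)
  have h' : (v a).1 % q = (v b).1 % q := congrArg Fin.val h
  rcases lt_or_gt_of_ne hab with c | c
  · exact hv ⟨(a, b), c⟩ h'
  · exact hv ⟨(b, a), c⟩ h'.symm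

end Pool.Agent.H486Z.Rb
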