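import Mathlib

/-!
Euclidean structures (theons) over the language with one binary symbol, and the theory of
graphs with no induced four-cycle.
-/

set_option autoImplicit false

namespace Pool.Agent.H486Z.Theon

open MeasureTheory

/-- `r(V)`: the non-empty subsets of `V`. -/
abbrev R (V : Type) : Type := {A : Finset V // A.Nonempty}

/-- `𝓔_V = [0,1]^{r(V)}`. -/
abbrev EE (V : Type) : Type := R V → unitInterval

/-- `α^*(x)_A = x_{α(A)}` for an injection `α : [2] → V`. -/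
def pull {V : Type} (α : Fin 2 ↪ V) (x : EE V) : EE (Fin 2) :=
  fun A => x ⟨A.1.map α, A.2.map⟩

/-- `T_ind(M, N)` for the structure `M = (V, E)`. -/
def Tind {V : Type} (E : V → V → Prop) (N : Set (EE (Fin 2))) : Set (EE V) :=
  {x | ∀ α : Fin 2 ↪ V, pull α x ∈ N ↔ E (α 0) (α 1)}

/-- The diagonal `𝓓_V`. -/
def diag (V : Type) : Set (EE V) :=
  {x | ∃ i j : V, i ≠ j ∧ x ⟨{i}, Finset.singleton_nonempty i⟩ = x ⟨{j}, Finset.singleton_nonempty j⟩}

/-- A canonical structure: the predicate is false on tuples with a repeated entry. -/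
def Canonical {V : Type} (E : V → V → Prop) : Prop := ∀ v, ¬ E v v

/-- Models of `T_{C₄}`: irreflexive, symmetric, and no four distinct vertices induce a
four-cycle. -/
def ModelC4 {V : Type} (E : V → V → Prop) : Prop :=
  (∀ v, ¬ E v v) ∧ (∀ u v, E u v → E v u) ∧
    ¬ ∃ a b c d : V, a ≠ b ∧ a ≠ c ∧ a ≠ d ∧ b ≠ c ∧ b ≠ d ∧ c ≠ d ∧
      E a b ∧ E b c ∧ E c d ∧ E d a ∧ ¬ E a c ∧ ¬ E b d

/-- Weak `T_{C₄}`-on. -/
def WeakOn (N : Set (EE (Fin 2))) : Prop :=
  ∀ (n : ℕ) (E : Fin n → Fin n → Prop), Canonical E → ¬ ModelC4 E → volume (Tind E N) = 0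

/-- Strong `T_{C₄}`-on. -/
def StrongOn (N : Set (EE (Fin 2))) : Prop :=
  ∀ (n : ℕ) (E : Fin n → Fin n → Prop), Canonical E → ¬ ModelC4 E → Tind E N ⊆ diag (Fin n)

end Pool.Agent.H486Z.Theon
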