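import Mathlib

/-!
Two-parameter density points of plane sets along a sparse sequence of scales.
-/

set_option autoImplicit false

namespace Pool.Agent.H486Z.ThDens

open MeasureTheory Set Filter Topology
open scoped ENNReal symmDiff

/-- The probability that `p` moved by independent steps of scales `k.1`, `k.2` lands in `A`. -/
noncomputable def dens (ν : ℕ → Measure ℝ) (A : Set (ℝ × ℝ)) (k : ℕ × ℕ) (p : ℝ × ℝ) : ℝ≥0∞ :=
  ((ν k.1).prod (ν k.2)) {q | p + q ∈ A}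

theorem measurable_dens (ν : ℕ → Measure ℝ) [∀ i, IsProbabilityMeasure (ν i)]
    {A : Set (ℝ × ℝ)} (hA : MeasurableSet A) (k : ℕ × ℕ) : Measurable (dens ν A k) := by
  have h : MeasurableSet {z : (ℝ × ℝ) × (ℝ × ℝ) | z.1 + z.2 ∈ A} :=
    (measurable_fst.add measurable_snd) hA
  exact measurable_measure_prodMk_left h

theorem ae_tendsto_of_sum {X ι : Type} [MeasurableSpace X] [Countable ι] {μ : Measure X}
    (f : ι → X → ℝ≥0∞) (hf : ∀ k, Measurable (f k)) (h : ∑' k, ∫⁻ x, f k x ∂μ ≠ ∞) :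
    ∀ᵐ x ∂μ, Tendsto (fun k => f k x) cofinite (𝓝 0) := by
  rw [← lintegral_tsum fun k => (hf k).aemeasurable] at h
  filter_upwards [ae_lt_top (Measurable.tsum hf) h] with x hx
  exact ENNReal.tendsto_cofinite_zero_of_tsum_ne_top hx.ne

theorem lintegral_slice_le {X Y : Type} [MeasurableSpace X] [MeasurableSpace Y] {μ : Measure X}
    [SFinite μ] {ν : Measure Y} [IsProbabilityMeasure ν] {B : Set (X × Y)} (hB : MeasurableSet B)
    {c : ℝ≥0∞} (h : ∀ᵐ y ∂ν, μ ((fun x => (x, y)) ⁻¹' B) ≤ c) :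
    ∫⁻ x, ν (Prod.mk x ⁻¹' B) ∂μ ≤ c := by
  rw [← Measure.prod_apply hB, Measure.prod_apply_symm hB]
  calc ∫⁻ y, μ ((fun x => (x, y)) ⁻¹' B) ∂ν ≤ ∫⁻ _, c ∂ν := lintegral_mono_ae h
    _ = c := by simp

/-- The scales move little mass into `A`. -/
def Good (ν : ℕ → Measure ℝ) (A : Set (ℝ × ℝ)) : Prop :=
  ∀ i, ∀ᵐ u ∂ν i, volume {p : ℝ × ℝ | p ∉ A ∧ p + (u, 0) ∈ A} ≤ 2⁻¹ ^ i * 2⁻¹ ^ i ∧
    volume {p : ℝ × ℝ | p ∉ A ∧ p + (0, u) ∈ A} ≤ 2⁻¹ ^ i * 2⁻¹ ^ i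

theorem pow_sq_le {i j : ℕ} (h : i ≤ j) :
    (2⁻¹ : ℝ≥0∞) ^ j * 2⁻¹ ^ j ≤ 2⁻¹ ^ i * 2⁻¹ ^ j := by
  gcongr ?_ * _
  exact pow_le_pow_right_of_le_one' (by simp) h

theorem tsum_geo : ∑' i : ℕ, (2⁻¹ : ℝ≥0∞) ^ i ≠ ∞ := by
  rw [ENNReal.tsum_geometric]
  simp

theorem ae_dens (ν : ℕ → Measure ℝ) [∀ i, IsProbabilityMeasure (ν i)]
    {A : Set (ℝ × ℝ)} (hA : MeasurableSet A) (hG : Good ν A) :
    ∀ᵐ p : ℝ × ℝ, p ∉ A → Tendsto (fun k => dens ν A k p) atTop (𝓝 0) := by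
  let B1 : Set ((ℝ × ℝ) × ℝ) := {z | z.1 ∉ A ∧ z.1 + (z.2, 0) ∈ A}
  let B2 : Set ((ℝ × ℝ) × ℝ) := {z | z.1 ∉ A ∧ z.1 + (0, z.2) ∈ A}
  let B3 : Set ((ℝ × ℝ) × (ℝ × ℝ)) :=
    {z | z.1 + (z.2.1, 0) ∉ A ∧ z.1 + (0, z.2.2) ∉ A ∧ z.1 + z.2 ∈ A}
  have hB1 : MeasurableSet B1 :=
    (measurable_fst hA).compl.inter
      ((by fun_prop : Measurable fun z : (ℝ × ℝ) × ℝ => z.1 + (z.2, 0)) hA)
  have hB2 : MeasurableSet B2 :=
    (measurable_fst hA).compl.inter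
      ((by fun_prop : Measurable fun z : (ℝ × ℝ) × ℝ => z.1 + (0, z.2)) hA)
  have hB3 : MeasurableSet B3 :=
    ((by fun_prop : Measurable fun z : (ℝ × ℝ) × (ℝ × ℝ) => z.1 + (z.2.1, 0)) hA).compl.inter
      (((by fun_prop : Measurable fun z : (ℝ × ℝ) × (ℝ × ℝ) => z.1 + (0, z.2.2)) hA).compl.inter
        ((by fun_prop : Measurable fun z : (ℝ × ℝ) × (ℝ × ℝ) => z.1 + z.2) hA))
  have hle1 : ∀ i : ℕ, (2⁻¹ : ℝ≥0∞) ^ i * 2⁻¹ ^ i ≤ 2⁻¹ ^ i := fun i => by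
    simpa using pow_sq_le (Nat.zero_le i)
  have h1 := ae_tendsto_of_sum (μ := volume) (fun i p => ν i (Prod.mk p ⁻¹' B1))
    (fun i => measurable_measure_prodMk_left hB1)
    (ne_top_of_le_ne_top tsum_geo (ENNReal.tsum_le_tsum fun i =>
      lintegral_slice_le hB1 (by
        filter_upwards [hG i] with u hu
        exact hu.1.trans (hle1 i))))
  have h2 := ae_tendsto_of_sum (μ := volume) (fun i p => ν i (Prod.mk p ⁻¹' B2))
    (fun i => measurable_measure_prodMk_left hB2)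
    (ne_top_of_le_ne_top tsum_geo (ENNReal.tsum_le_tsum fun i =>
      lintegral_slice_le hB2 (by
        filter_upwards [hG i] with u hu
        exact hu.2.trans (hle1 i))))
  have hsum : ∑' k : ℕ × ℕ, (2⁻¹ : ℝ≥0∞) ^ k.1 * 2⁻¹ ^ k.2 ≠ ∞ := by
    rw [ENNReal.tsum_prod']
    simp only [ENNReal.tsum_mul_left, ENNReal.tsum_mul_right]
    exact ENNReal.mul_ne_top tsum_geo tsum_geo
  have h3 := ae_tendsto_of_sum (μ := volume)
    (fun (k : ℕ × ℕ) p => ((ν k.1).prod (ν k.2)) (Prod.mk p ⁻¹' B3))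
    (fun k => measurable_measure_prodMk_left hB3)
    (ne_top_of_le_ne_top hsum (ENNReal.tsum_le_tsum fun k =>
      lintegral_slice_le hB3 (by
        filter_upwards [Measure.quasiMeasurePreserving_fst.ae (hG k.1),
          Measure.quasiMeasurePreserving_snd.ae (hG k.2)] with q hu hv
        rcases le_total k.1 k.2 with hk | hk
        · refine le_trans ?_ (hv.2.trans (pow_sq_le hk))
          rw [← measure_preimage_add_right volume ((q.1, 0) : ℝ × ℝ)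
            {p : ℝ × ℝ | p ∉ A ∧ p + (0, q.2) ∈ A}]
          refine measure_mono fun p hp => ⟨hp.1, ?_⟩
          have := hp.2.2
          simpa [add_assoc] using this
        · refine le_trans ?_ (hu.1.trans ((pow_sq_le hk).trans_eq (mul_comm _ _)))
          rw [← measure_preimage_add_right volume ((0, q.2) : ℝ × ℝ)
            {p : ℝ × ℝ | p ∉ A ∧ p + (q.1, 0) ∈ A}]
          refine measure_mono fun p hp => ⟨hp.2.1, ?_⟩
          have := hp.2.2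
          simpa [add_assoc] using this)))
  filter_upwards [h1, h2, h3] with p t1 t2 t3 hp
  rw [Nat.cofinite_eq_atTop] at t1 t2
  have s1 : Tendsto (fun k : ℕ × ℕ => k.1) atTop atTop := by
    rw [← prod_atTop_atTop_eq]; exact tendsto_fst
  have s2 : Tendsto (fun k : ℕ × ℕ => k.2) atTop atTop := by
    rw [← prod_atTop_atTop_eq]; exact tendsto_snd
  have t := ((t1.comp s1).add (t2.comp s2)).add (t3.mono_left atTop_le_cofinite)
  simp only [add_zero] at t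
  refine tendsto_of_tendsto_of_tendsto_of_le_of_le tendsto_const_nhds t (fun _ => zero_le)
    fun k => ?_
  have hsub : {q : ℝ × ℝ | p + q ∈ A} ⊆
      ((Prod.mk p ⁻¹' B1) ×ˢ univ ∪ univ ×ˢ (Prod.mk p ⁻¹' B2)) ∪ Prod.mk p ⁻¹' B3 := by
    intro q hq
    by_cases ha : p + (q.1, 0) ∈ A
    · exact Or.inl (Or.inl ⟨⟨hp, ha⟩, trivial⟩)
    by_cases hb : p + (0, q.2) ∈ A
    · exact Or.inl (Or.inr ⟨trivial, ⟨hp, hb⟩⟩)
    exact Or.inr ⟨ha, hb, hq⟩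
  refine (measure_mono hsub).trans ((measure_union_le _ _).trans ?_)
  refine add_le_add ((measure_union_le _ _).trans ?_) le_rfl
  simp [Measure.prod_prod]

theorem tendsto_shift {A : Set (ℝ × ℝ)} (hA : MeasurableSet A) (hfin : volume A ≠ ∞) :
    Tendsto (fun w : ℝ × ℝ => volume (((fun p => p + w) ⁻¹' A) ∆ A)) (𝓝 0) (𝓝 0) := by
  let F : C((ℝ × ℝ) × (ℝ × ℝ), ℝ × ℝ) := ⟨fun z => z.2 + z.1, by fun_prop⟩
  have h := tendsto_measure_symmDiff_preimage_nhds_zero (μ := volume) (ν := volume)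
    (l := 𝓝 (0 : ℝ × ℝ)) (f := fun w => F.curry w) (g := F.curry 0) (s := A)
    (F.curry.continuous.tendsto 0)
    (Eventually.of_forall fun w => measurePreserving_add_right volume w)
    (measurePreserving_add_right volume 0) hA.nullMeasurableSet hfin
  have e : (F.curry 0) ⁻¹' A = A := by
    ext p; simp [F]
  rw [e] at h
  exact h

theorem exists_scales {Z Y : Set (ℝ × ℝ)} (hZ : MeasurableSet Z) (hZf : volume Z ≠ ∞)
    (hY : MeasurableSet Y) (hYf : volume Y ≠ ∞) :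
    ∃ ν : ℕ → Measure ℝ, (∀ i, IsProbabilityMeasure (ν i)) ∧ (∀ i, ν i ≪ volume) ∧
      Good ν Z ∧ Good ν Zᶜ ∧ Good ν Y ∧ Good ν Yᶜ := by
  have hr : ∀ i : ℕ, ∃ r > 0, ∀ w : ℝ × ℝ, dist w 0 < r →
      volume (((fun p => p + w) ⁻¹' Z) ∆ Z) ≤ 2⁻¹ ^ i * 2⁻¹ ^ i ∧
      volume (((fun p => p + w) ⁻¹' Y) ∆ Y) ≤ 2⁻¹ ^ i * 2⁻¹ ^ i := by
    intro i
    have hpos : (0 : ℝ≥0∞) < 2⁻¹ ^ i * 2⁻¹ ^ i :=
      ENNReal.mul_pos (by simp) (by simp)
    have := ((ENNReal.tendsto_nhds_zero.mp (tendsto_shift hZ hZf)) _ hpos).and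
      ((ENNReal.tendsto_nhds_zero.mp (tendsto_shift hY hYf)) _ hpos)
    obtain ⟨r, hr, h⟩ := Metric.eventually_nhds_iff.mp this
    exact ⟨r, hr, fun w hw => h hw⟩
  choose r hr0 hr using hr
  have key : ∀ (A : Set (ℝ × ℝ)), (∀ i, ∀ w : ℝ × ℝ, dist w 0 < r i →
      volume (((fun p => p + w) ⁻¹' A) ∆ A) ≤ 2⁻¹ ^ i * 2⁻¹ ^ i) →
      Good (fun i => ProbabilityTheory.cond volume (Ioo 0 (r i))) A ∧
      Good (fun i => ProbabilityTheory.cond volume (Ioo 0 (r i))) Aᶜ := by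
    intro A h
    have d1 : ∀ i u, u ∈ Ioo 0 (r i) → dist ((u, 0) : ℝ × ℝ) 0 < r i := fun i u hu => by
      simp [abs_of_pos hu.1, hu.2, hr0 i]
    have d2 : ∀ i u, u ∈ Ioo 0 (r i) → dist ((0, u) : ℝ × ℝ) 0 < r i := fun i u hu => by
      simp [abs_of_pos hu.1, hu.2, hr0 i]
    constructor
    · intro i
      filter_upwards [ProbabilityTheory.ae_cond_mem (μ := volume) (s := Ioo 0 (r i))
        measurableSet_Ioo] with u hu
      exact ⟨le_trans (measure_mono fun p hp => Or.inl ⟨hp.2, hp.1⟩) (h i _ (d1 i u hu)),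
        le_trans (measure_mono fun p hp => Or.inl ⟨hp.2, hp.1⟩) (h i _ (d2 i u hu))⟩
    · intro i
      filter_upwards [ProbabilityTheory.ae_cond_mem (μ := volume) (s := Ioo 0 (r i))
        measurableSet_Ioo] with u hu
      exact ⟨le_trans (measure_mono fun p hp => Or.inr ⟨not_not.mp hp.1, hp.2⟩)
          (h i _ (d1 i u hu)),
        le_trans (measure_mono fun p hp => Or.inr ⟨not_not.mp hp.1, hp.2⟩) (h i _ (d2 i u hu))⟩
  refine ⟨fun i => ProbabilityTheory.cond volume (Ioo 0 (r i)), fun i => ?_,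
    fun i => ProbabilityTheory.cond_absolutelyContinuous, (key Z fun i w hw => (hr i w hw).1).1,
    (key Z fun i w hw => (hr i w hw).1).2, (key Y fun i w hw => (hr i w hw).2).1,
    (key Y fun i w hw => (hr i w hw).2).2⟩
  exact ProbabilityTheory.cond_isProbabilityMeasure_of_finite (by simp [hr0 i]) (by simp)

/-- Points at which the two-parameter density of `A` does not tend to zero. -/
def plus (ν : ℕ → Measure ℝ) (A : Set (ℝ × ℝ)) : Set (ℝ × ℝ) :=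
  {p | ¬ Tendsto (fun k => dens ν A k p) atTop (𝓝 0)}

theorem measurableSet_plus (ν : ℕ → Measure ℝ) [∀ i, IsProbabilityMeasure (ν i)]
    {A : Set (ℝ × ℝ)} (hA : MeasurableSet A) : MeasurableSet (plus ν A) :=
  (measurableSet_tendsto (𝓝 0) fun k => measurable_dens ν hA k).compl

theorem plus_mono (ν : ℕ → Measure ℝ) {A B : Set (ℝ × ℝ)} (h : A ⊆ B) : plus ν A ⊆ plus ν B :=
  fun _ hp hB => hp (tendsto_of_tendsto_of_tendsto_of_le_of_le tendsto_const_nhds hB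
    (fun _ => zero_le) fun _ => measure_mono fun _ hq => h hq)

theorem ae_plus (ν : ℕ → Measure ℝ) [∀ i, IsProbabilityMeasure (ν i)]
    {A : Set (ℝ × ℝ)} (hA : MeasurableSet A) (h1 : Good ν A) (h2 : Good ν Aᶜ) :
    ∀ᵐ p : ℝ × ℝ, p ∈ plus ν A ↔ p ∈ A := by
  filter_upwards [ae_dens ν hA h1, ae_dens ν hA.compl h2] with p a1 a2
  refine ⟨fun hp => by_contra fun hn => hp (a1 hn), fun hp ht => ?_⟩
  have t := ht.add (a2 (not_not.mpr hp))
  simp only [add_zero] at t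
  have hle : ∀ k, (1 : ℝ≥0∞) ≤ dens ν A k p + dens ν Aᶜ k p := fun k => by
    refine le_trans ?_ (measure_union_le _ _)
    rw [show {q : ℝ × ℝ | p + q ∈ A} ∪ {q | p + q ∈ Aᶜ} = univ from
      eq_univ_of_forall fun q => em _]
    simp
  have := ge_of_tendsto' t hle
  simp at this

theorem plus_swap (ν : ℕ → Measure ℝ) [∀ i, IsProbabilityMeasure (ν i)]
    {A : Set (ℝ × ℝ)} (hA : MeasurableSet A) (hs : ∀ x y, (x, y) ∈ A → (y, x) ∈ A) {x y : ℝ}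
    (h : (x, y) ∈ plus ν A) : (y, x) ∈ plus ν A := by
  intro ht
  apply h
  have sw : Tendsto (fun k : ℕ × ℕ => k.swap) atTop atTop := by
    rw [← prod_atTop_atTop_eq]; exact tendsto_snd.prodMk tendsto_fst
  refine tendsto_of_tendsto_of_tendsto_of_le_of_le tendsto_const_nhds (ht.comp sw)
    (fun _ => zero_le) fun k => ?_
  have hm : MeasurableSet {q : ℝ × ℝ | (y, x) + q ∈ A} := (measurable_const_add _) hA
  change _ ≤ ((ν k.2).prod (ν k.1)) {q | (y, x) + q ∈ A}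
  rw [← Measure.prod_swap, Measure.map_apply measurable_swap hm]
  exact measure_mono fun q hq => hs _ _ hq

/-- The four-cycle pattern. -/
def Pat (Z Y : Set (ℝ × ℝ)) : Set ((ℝ × ℝ) × (ℝ × ℝ)) :=
  {z | z.1 ∈ Y ∧ z.2 ∈ Y ∧ (z.1.1, z.2.1) ∉ Z ∧ (z.1.1, z.2.2) ∉ Z ∧ (z.1.2, z.2.1) ∉ Z ∧
    (z.1.2, z.2.2) ∉ Z}

theorem pat_empty (ν : ℕ → Measure ℝ) [∀ i, IsProbabilityMeasure (ν i)] (hν : ∀ i, ν i ≪ volume)
    {Z Y : Set (ℝ × ℝ)} (hZ : MeasurableSet Z) (h : volume (Pat Z Y) = 0)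
    (z : (ℝ × ℝ) × (ℝ × ℝ)) : z ∉ Pat (plus ν Z) (plus ν Y) := by
  rintro ⟨y1, y2, e1, e2, e3, e4⟩
  simp only [plus, mem_ofPred_eq, not_not, ENNReal.tendsto_atTop_zero] at y1 y2 e1 e2 e3 e4
  push Not at y1 y2
  obtain ⟨ε, hε, f1⟩ := y1
  obtain ⟨δ, hδ, f2⟩ := y2
  have hε1 : ε ≠ ∞ := by
    obtain ⟨k, _, hk⟩ := f1 0
    exact (hk.trans_le le_top).ne
  have hδ1 : δ ≠ ∞ := by
    obtain ⟨k, _, hk⟩ := f2 0
    exact (hk.trans_le le_top).ne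
  have hη : 0 < ε * δ / 8 := ENNReal.div_pos (mul_ne_zero hε.ne' hδ.ne') (by simp)
  obtain ⟨m1, g1⟩ := e1 _ hη
  obtain ⟨m2, g2⟩ := e2 _ hη
  obtain ⟨m3, g3⟩ := e3 _ hη
  obtain ⟨m4, g4⟩ := e4 _ hη
  let m := m1.1 + m1.2 + m2.1 + m2.2 + m3.1 + m3.2 + m4.1 + m4.2
  obtain ⟨⟨i, j⟩, ⟨hi, hj⟩, k1⟩ := f1 (m, m)
  obtain ⟨⟨k, l⟩, ⟨hk, hl⟩, k2⟩ := f2 (m, m)
  simp only at hi hj hk hl
  have b1 := g1 (i, k) ⟨by simp only; omega, by simp only; omega⟩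
  have b2 := g2 (i, l) ⟨by simp only; omega, by simp only; omega⟩
  have b3 := g3 (j, k) ⟨by simp only; omega, by simp only; omega⟩
  have b4 := g4 (j, l) ⟨by simp only; omega, by simp only; omega⟩
  let P : Measure ((ℝ × ℝ) × (ℝ × ℝ)) := ((ν i).prod (ν j)).prod ((ν k).prod (ν l))
  have hP : P ≪ volume := ((hν i).prod (hν j)).prod ((hν k).prod (hν l))
  have hinv : (volume : Measure ((ℝ × ℝ) × (ℝ × ℝ))).IsAddLeftInvariant := by
    rw [Measure.volume_eq_prod]; infer_instance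
  have h0 : P ((fun q => z + q) ⁻¹' Pat Z Y) = 0 :=
    hP (by rw [measure_preimage_add]; exact h)
  have hm : ∀ p : ℝ × ℝ, MeasurableSet {q : ℝ × ℝ | p + q ∈ Z} := fun p =>
    (measurable_const_add _) hZ
  have c1 : P (Prod.map Prod.fst Prod.fst ⁻¹' {q | (z.1.1, z.2.1) + q ∈ Z}) ≤ ε * δ / 8 := by
    rw [(measurePreserving_fst.prod measurePreserving_fst).measure_preimage
      (hm _).nullMeasurableSet]
    exact b1
  have c2 : P (Prod.map Prod.fst Prod.snd ⁻¹' {q | (z.1.1, z.2.2) + q ∈ Z}) ≤ ε * δ / 8 := by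
    rw [(measurePreserving_fst.prod measurePreserving_snd).measure_preimage
      (hm _).nullMeasurableSet]
    exact b2
  have c3 : P (Prod.map Prod.snd Prod.fst ⁻¹' {q | (z.1.2, z.2.1) + q ∈ Z}) ≤ ε * δ / 8 := by
    rw [(measurePreserving_snd.prod measurePreserving_fst).measure_preimage
      (hm _).nullMeasurableSet]
    exact b3
  have c4 : P (Prod.map Prod.snd Prod.snd ⁻¹' {q | (z.1.2, z.2.2) + q ∈ Z}) ≤ ε * δ / 8 := by
    rw [(measurePreserving_snd.prod measurePreserving_snd).measure_preimage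
      (hm _).nullMeasurableSet]
    exact b4
  have hsub : {q : ℝ × ℝ | z.1 + q ∈ Y} ×ˢ {q : ℝ × ℝ | z.2 + q ∈ Y} ⊆
      (fun q => z + q) ⁻¹' Pat Z Y ∪
        ((Prod.map Prod.fst Prod.fst ⁻¹' {q | (z.1.1, z.2.1) + q ∈ Z} ∪
          Prod.map Prod.fst Prod.snd ⁻¹' {q | (z.1.1, z.2.2) + q ∈ Z}) ∪
        (Prod.map Prod.snd Prod.fst ⁻¹' {q | (z.1.2, z.2.1) + q ∈ Z} ∪
          Prod.map Prod.snd Prod.snd ⁻¹' {q | (z.1.2, z.2.2) + q ∈ Z})) := by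
    rintro q ⟨q1, q2⟩
    by_contra hn
    simp only [mem_union, not_or] at hn
    exact hn.1 ⟨q1, q2, hn.2.1.1, hn.2.1.2, hn.2.2.1, hn.2.2.2⟩
  have low : ε * δ ≤ P ({q : ℝ × ℝ | z.1 + q ∈ Y} ×ˢ {q : ℝ × ℝ | z.2 + q ∈ Y}) := by
    rw [Measure.prod_prod]
    exact mul_le_mul' k1.le k2.le
  have up : P ({q : ℝ × ℝ | z.1 + q ∈ Y} ×ˢ {q : ℝ × ℝ | z.2 + q ∈ Y}) ≤
      0 + ((ε * δ / 8 + ε * δ / 8) + (ε * δ / 8 + ε * δ / 8)) := by
    refine (measure_mono hsub).trans ((measure_union_le _ _).trans (add_le_add h0.le ?_))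
    refine (measure_union_le _ _).trans (add_le_add ?_ ?_)
    · exact (measure_union_le _ _).trans (add_le_add c1 c2)
    · exact (measure_union_le _ _).trans (add_le_add c3 c4)
  have fin := low.trans up
  have hx : ε * δ ≠ ∞ := ENNReal.mul_ne_top hε1 hδ1
  have hx0 : ε * δ ≠ 0 := mul_ne_zero hε.ne' hδ.ne'
  generalize ε * δ = x at fin hx hx0
  lift x to NNReal using hx
  have h8 : (8 : ℝ≥0∞) = ((8 : NNReal) : ℝ≥0∞) := by norm_num
  rw [h8, ← ENNReal.coe_div (by norm_num), zero_add] at fin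
  norm_cast at fin hx0
  have hx1 : (0 : ℝ) < x := by positivity
  have : (x : ℝ) ≤ x / 8 + x / 8 + (x / 8 + x / 8) := by exact_mod_cast fin
  linarith

theorem core {Z Y : Set (ℝ × ℝ)} (hZ : MeasurableSet Z) (hY : MeasurableSet Y)
    (hYf : volume Y ≠ ∞) (hZY : Z ⊆ Y) (sZ : ∀ x y, (x, y) ∈ Z → (y, x) ∈ Z)
    (sY : ∀ x y, (x, y) ∈ Y → (y, x) ∈ Y) (h : volume (Pat Z Y) = 0) :
    ∃ Z' Y' : Set (ℝ × ℝ), MeasurableSet Z' ∧ MeasurableSet Y' ∧ Z' ⊆ Y' ∧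
      (∀ x y, (x, y) ∈ Z' → (y, x) ∈ Z') ∧ (∀ x y, (x, y) ∈ Y' → (y, x) ∈ Y') ∧
      (∀ᵐ p : ℝ × ℝ, p ∈ Z' ↔ p ∈ Z) ∧ (∀ᵐ p : ℝ × ℝ, p ∈ Y' ↔ p ∈ Y) ∧
      ∀ z, z ∉ Pat Z' Y' := by
  obtain ⟨ν, hν, hac, g1, g2, g3, g4⟩ :=
    exists_scales hZ (ne_top_of_le_ne_top hYf (measure_mono hZY)) hY hYf
  exact ⟨plus ν Z, plus ν Y, measurableSet_plus ν hZ, measurableSet_plus ν hY, plus_mono ν hZY,
    fun x y => plus_swap ν hZ sZ, fun x y => plus_swap ν hY sY, ae_plus ν hZ g1 g2,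
    ae_plus ν hY g3 g4, pat_empty ν hac hZ h⟩

end Pool.Agent.H486Z.ThDens
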