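import Pool.Agent.H486Z.ThDens

/-!
Removing all induced four-cycles from a symmetric Borel subset of the unit cube.
-/

set_option autoImplicit false

namespace Pool.Agent.H486Z.ThMid

open MeasureTheory Set Filter ProbabilityTheory unitInterval Pool.Agent.H486Z.ThDens
open scoped ENNReal

theorem indep_eval (ι : Type) [Fintype ι] :
    iIndepFun (fun (i : ι) (x : ι → I) => x i) (volume : Measure (ι → I)) :=
  iIndepFun_pi (μ := fun _ : ι => (volume : Measure I)) (X := fun _ x => x)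
    fun _ => aemeasurable_id

theorem mp1 {ι : Type} [Fintype ι] (A : ι) :
    MeasurePreserving (fun x : ι → I => x A) volume volume :=
  measurePreserving_eval (fun _ : ι => (volume : Measure I)) A

theorem mp_pair {Ω X Y : Type} [MeasurableSpace Ω] [MeasurableSpace X] [MeasurableSpace Y]
    {μ : Measure Ω} [IsFiniteMeasure μ] {α : Measure X} {β : Measure Y} {f : Ω → X} {g : Ω → Y}
    (hf : MeasurePreserving f μ α) (hg : MeasurePreserving g μ β) (h : IndepFun f g μ) :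
    MeasurePreserving (fun x => (f x, g x)) μ (α.prod β) :=
  ⟨hf.measurable.prodMk hg.measurable, by
    rw [h.map_prod_eq_prod_map_map hf.aemeasurable hg.aemeasurable, hf.map_eq, hg.map_eq]⟩

theorem mp2 {ι : Type} [Fintype ι] {A B : ι} (h : A ≠ B) :
    MeasurePreserving (fun x : ι → I => (x A, x B)) volume volume :=
  mp_pair (mp1 A) (mp1 B) ((indep_eval ι).indepFun h)

theorem mp3 {ι : Type} [Fintype ι] {A B C : ι} (h : A ≠ B) (h1 : A ≠ C) (h2 : B ≠ C) :
    MeasurePreserving (fun x : ι → I => ((x A, x B), x C)) volume volume :=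
  mp_pair (mp2 h) (mp1 C)
    ((indep_eval ι).indepFun_prodMk (fun i => measurable_pi_apply i) A B C h1 h2)

theorem mp4 {ι : Type} [Fintype ι] {A B C D : ι} (h : A ≠ B) (h' : C ≠ D) (h1 : A ≠ C)
    (h2 : A ≠ D) (h3 : B ≠ C) (h4 : B ≠ D) :
    MeasurePreserving (fun x : ι → I => ((x A, x B), (x C, x D))) volume volume :=
  mp_pair (mp2 h) (mp2 h')
    ((indep_eval ι).indepFun_prodMk_prodMk (fun i => measurable_pi_apply i) A B C D h1 h2 h3 h4)

theorem mp_precomp {ι κ : Type} [Fintype ι] [Fintype κ] {e : κ → ι} (he : Function.Injective e) :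
    MeasurePreserving (fun (x : ι → I) (k : κ) => x (e k)) volume volume := by
  refine ⟨by fun_prop, ?_⟩
  have h := ((indep_eval ι).precomp he).map_fun_eq_pi_map
    (fun k => (measurable_pi_apply (e k)).aemeasurable)
  rw [h]
  simp only [(mp1 _).map_eq]
  rfl

/-- The inclusion of the unit square in the plane. -/
def emb : I × I → ℝ × ℝ := Prod.map Subtype.val Subtype.val

theorem emb_me : MeasurableEmbedding emb :=
  (MeasurableEmbedding.subtype_coe measurableSet_Icc).prodMap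
    (MeasurableEmbedding.subtype_coe measurableSet_Icc)

theorem emb_mp : MeasurePreserving emb volume (volume.restrict (I ×ˢ I)) := by
  have := measurePreserving_coe.prod measurePreserving_coe
  rwa [Measure.prod_restrict] at this

theorem image_eq {X Y : Type} [MeasurableSpace X] [MeasurableSpace Y] {μ : Measure X}
    {ν : Measure Y} {f : X → Y} {S : Set Y} (he : MeasurableEmbedding f)
    (hf : MeasurePreserving f μ (ν.restrict S)) (hr : ∀ x, f x ∈ S) {s : Set X}
    (hs : MeasurableSet s) : ν (f '' s) = μ s := by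
  have hm := he.measurableSet_image.mpr hs
  have h1 := hf.measure_preimage hm.nullMeasurableSet
  rw [preimage_image_eq _ he.injective, Measure.restrict_apply hm,
    inter_eq_left.mpr (by rintro _ ⟨x, _, rfl⟩; exact hr x)] at h1
  exact h1.symm

theorem emb_mem (p : I × I) : emb p ∈ I ×ˢ I := ⟨p.1.2, p.2.2⟩

/-- The pattern set: vertices `y` and pair coordinates `t` inducing a four-cycle. -/
def T1 (N : Set ((I × I) × I)) : Set ((Fin 4 → I) × (Fin 6 → I)) :=
  {z | ((z.1 0, z.1 1), z.2 0) ∈ N ∧ ((z.1 0, z.1 3), z.2 1) ∈ N ∧ ((z.1 2, z.1 1), z.2 2) ∈ N ∧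
    ((z.1 2, z.1 3), z.2 3) ∈ N ∧ ((z.1 0, z.1 2), z.2 4) ∉ N ∧ ((z.1 1, z.1 3), z.2 5) ∉ N}

theorem mid {N : Set ((I × I) × I)} (hN : MeasurableSet N)
    (hs : ∀ x y t, ((x, y), t) ∈ N → ((y, x), t) ∈ N) (h0 : volume (T1 N) = 0) :
    ∃ N' : Set ((I × I) × I), MeasurableSet N' ∧
      (∀ x y t, ((x, y), t) ∈ N' → ((y, x), t) ∈ N') ∧ (∀ᵐ z : (I × I) × I, z ∈ N' ↔ z ∈ N) ∧
      ∀ z, z ∉ T1 N' := by
  let ZI : Set (I × I) := {p | volume (Prod.mk p ⁻¹' N) = 0}
  let YI : Set (I × I) := {p | volume (Prod.mk p ⁻¹' Nᶜ) ≠ 0}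
  have hZI : MeasurableSet ZI :=
    measurable_measure_prodMk_left hN (measurableSet_singleton 0)
  have hYI : MeasurableSet YI :=
    (measurable_measure_prodMk_left hN.compl (measurableSet_singleton 0)).compl
  have hZY : ZI ⊆ YI := by
    intro p hp hq
    have h1 := measure_union_null hp hq
    rw [← preimage_union, union_compl_self, preimage_univ] at h1
    simp at h1
  have sl : ∀ x y, Prod.mk (y, x) ⁻¹' N = Prod.mk (x, y) ⁻¹' N := fun x y =>
    Set.ext fun t => ⟨hs _ _ _, hs _ _ _⟩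
  have sl' : ∀ x y, Prod.mk (y, x) ⁻¹' Nᶜ = Prod.mk (x, y) ⁻¹' Nᶜ := fun x y => by
    rw [preimage_compl, preimage_compl, sl]
  let HI : Set ((I × I) × (I × I)) :=
    {z | z.1 ∈ YI ∧ z.2 ∈ YI ∧ (z.1.1, z.2.1) ∉ ZI ∧ (z.1.1, z.2.2) ∉ ZI ∧
      (z.1.2, z.2.1) ∉ ZI ∧ (z.1.2, z.2.2) ∉ ZI}
  have hHI : MeasurableSet HI :=
    (measurable_fst hYI).inter ((measurable_snd hYI).inter
      (((by fun_prop : Measurable fun z : (I × I) × (I × I) => (z.1.1, z.2.1)) hZI).compl.inter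
      (((by fun_prop : Measurable fun z : (I × I) × (I × I) => (z.1.1, z.2.2)) hZI).compl.inter
      (((by fun_prop : Measurable fun z : (I × I) × (I × I) => (z.1.2, z.2.1)) hZI).compl.inter
      ((by fun_prop : Measurable fun z : (I × I) × (I × I) => (z.1.2, z.2.2)) hZI).compl))))
  have hHI0 : volume HI = 0 := by
    rw [← (mp4 (ι := Fin 4) (A := 0) (B := 2) (C := 1) (D := 3) (by decide) (by decide)
      (by decide) (by decide) (by decide) (by decide)).measure_preimage hHI.nullMeasurableSet,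
      measure_eq_zero_iff_ae_notMem]
    filter_upwards [Measure.measure_ae_null_of_prod_null h0] with y hy
    rintro ⟨a1, a2, a3, a4, a5, a6⟩
    let S : Fin 6 → Set I := ![Prod.mk (y 0, y 1) ⁻¹' N, Prod.mk (y 0, y 3) ⁻¹' N,
      Prod.mk (y 2, y 1) ⁻¹' N, Prod.mk (y 2, y 3) ⁻¹' N, Prod.mk (y 0, y 2) ⁻¹' Nᶜ,
      Prod.mk (y 1, y 3) ⁻¹' Nᶜ]
    have hsub : univ.pi S ⊆ Prod.mk y ⁻¹' T1 N := fun t ht =>
      ⟨ht 0 trivial, ht 1 trivial, ht 2 trivial, ht 3 trivial, ht 4 trivial, ht 5 trivial⟩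
    have hz : volume (univ.pi S) = 0 := measure_mono_null hsub hy
    rw [volume_pi_pi, Finset.prod_eq_zero_iff] at hz
    obtain ⟨k, _, hk⟩ := hz
    fin_cases k
    · exact a3 hk
    · exact a4 hk
    · exact a5 hk
    · exact a6 hk
    · exact a1 hk
    · exact a2 hk
  have hPat : volume (Pat (emb '' ZI) (emb '' YI)) = 0 := by
    have e2 := emb_mp.prod emb_mp
    rw [Measure.prod_restrict] at e2
    refine measure_mono_null (t := Prod.map emb emb '' HI) ?_ ?_
    · rintro ⟨_, _⟩ ⟨⟨p, hp, rfl⟩, ⟨q, hq, rfl⟩, b1, b2, b3, b4⟩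
      exact ⟨(p, q), ⟨hp, hq, fun h => b1 ⟨_, h, rfl⟩, fun h => b2 ⟨_, h, rfl⟩,
        fun h => b3 ⟨_, h, rfl⟩, fun h => b4 ⟨_, h, rfl⟩⟩, rfl⟩
    · exact (image_eq (emb_me.prodMap emb_me) e2 (fun x => ⟨emb_mem _, emb_mem _⟩) hHI).trans hHI0
  have symm_im : ∀ S : Set (I × I), (∀ x y, (x, y) ∈ S → (y, x) ∈ S) →
      ∀ x y, (x, y) ∈ emb '' S → (y, x) ∈ emb '' S := by
    rintro S hS x y ⟨⟨a, b⟩, hab, he⟩
    obtain ⟨rfl, rfl⟩ := Prod.mk.inj he
    exact ⟨(b, a), hS _ _ hab, rfl⟩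
  obtain ⟨Z', Y', mZ, mY, hZY', sZ, sY, aZ, aY, hno⟩ :=
    core (emb_me.measurableSet_image.mpr hZI) (emb_me.measurableSet_image.mpr hYI)
      (by rw [image_eq emb_me emb_mp emb_mem hYI]; exact measure_ne_top _ _)
      (image_mono hZY)
      (symm_im ZI fun x y h => by
        change volume (Prod.mk (y, x) ⁻¹' N) = 0
        rw [sl]; exact h)
      (symm_im YI fun x y h => by
        change volume (Prod.mk (y, x) ⁻¹' Nᶜ) ≠ 0
        rw [sl']; exact h) hPat
  let N' : Set ((I × I) × I) := {z | emb z.1 ∉ Z' ∧ (emb z.1 ∉ Y' ∨ z ∈ N)}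
  have hemb : Measurable fun z : (I × I) × I => emb z.1 := emb_me.measurable.comp measurable_fst
  have hN' : MeasurableSet N' := (hemb mZ).compl.inter ((hemb mY).compl.union hN)
  refine ⟨N', hN', ?_, ?_, ?_⟩
  · rintro x y t ⟨h1, h2⟩
    exact ⟨fun h => h1 (sZ _ _ h), h2.imp (fun h3 h => h3 (sY _ _ h)) (hs _ _ _)⟩
  · have hm : MeasurableSet {z : (I × I) × I | z ∈ N' ↔ z ∈ N} :=
      (measurableSet_setOfPred.mpr ((measurableSet_setOfPred.mp hN').iff (measurableSet_setOfPred.mp hN)))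
    rw [Measure.volume_eq_prod, Measure.ae_prod_iff_ae_ae hm]
    filter_upwards [emb_mp.quasiMeasurePreserving.ae (ae_restrict_of_ae aZ),
      emb_mp.quasiMeasurePreserving.ae (ae_restrict_of_ae aY)] with p h1 h2
    rw [emb_me.injective.mem_set_image] at h1 h2
    by_cases hz : p ∈ ZI
    · filter_upwards [measure_eq_zero_iff_ae_notMem.mp hz] with t ht
      exact ⟨fun h => absurd (h1.mpr hz) h.1, fun h => absurd h ht⟩
    by_cases hy : p ∈ YI
    · exact Eventually.of_forall fun t =>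
        ⟨fun h => h.2.resolve_left (not_not.mpr (h2.mpr hy)),
          fun h => ⟨fun h' => hz (h1.mp h'), Or.inr h⟩⟩
    · filter_upwards [measure_eq_zero_iff_ae_notMem.mp (not_not.mp hy)] with t ht
      exact ⟨fun _ => not_not.mp ht, fun h => ⟨fun h' => hz (h1.mp h'), Or.inr h⟩⟩
  · rintro ⟨y, t⟩ ⟨a1, a2, a3, a4, a5, a6⟩
    have nonE : ∀ z : (I × I) × I, z ∉ N' → emb z.1 ∈ Y' := fun z hz => by
      by_contra hy
      exact hz ⟨fun h => hy (hZY' h), Or.inl hy⟩
    exact hno (emb (y 0, y 2), emb (y 1, y 3))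
      ⟨nonE _ a5, nonE _ a6, a1.1, a2.1, a3.1, a4.1⟩

end Pool.Agent.H486Z.ThMid
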