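import Pool.Agent.H486Z.ThDefs
import Pool.Agent.H486Z.ThMid

/-!
Every weak or strong `T_{C₄}`-on agrees almost everywhere with a Borel strong `T_{C₄}`-on.
-/

set_option autoImplicit false

namespace Pool.Agent.H486Z.Theon

open MeasureTheory Set Filter unitInterval Pool.Agent.H486Z.ThMid
open scoped ENNReal symmDiff

/-- The index of a vertex coordinate. -/
def s1 {V : Type} (u : V) : R V := ⟨{u}, Finset.singleton_nonempty u⟩

/-- The index of a pair coordinate. -/
def s2 {V : Type} [DecidableEq V] (u v : V) : R V := ⟨{u, v}, Finset.insert_nonempty u {v}⟩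

theorem s2_comm {V : Type} [DecidableEq V] (u v : V) : s2 u v = s2 v u :=
  Subtype.ext (Finset.pair_comm u v)

theorem s1_ne {V : Type} {u v : V} (h : u ≠ v) : s1 u ≠ s1 v := fun e =>
  h (Finset.singleton_injective (congrArg Subtype.val e))

theorem s1_ne_s2 {V : Type} [DecidableEq V] {u v : V} (h : u ≠ v) (w : V) : s1 w ≠ s2 u v := by
  intro e
  have := congrArg (fun A : R V => A.1.card) e
  simp [s1, s2, Finset.card_pair h] at this

/-- The three coordinates seen by the ordered pair `(u, v)`. -/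
def tri {V : Type} [DecidableEq V] (x : EE V) (u v : V) : (I × I) × I :=
  ((x (s1 u), x (s1 v)), x (s2 u v))

theorem tri_mp {n : ℕ} {u v : Fin n} (h : u ≠ v) :
    MeasurePreserving (fun x : EE (Fin n) => tri x u v) volume volume :=
  mp3 (s1_ne h) (s1_ne_s2 h u) (s1_ne_s2 h v)

theorem cases2 : ∀ A : R (Fin 2), A = s1 0 ∨ A = s1 1 ∨ A = s2 0 1 := by decide

/-- Coordinates on `𝓔_2`. -/
def eqv : EE (Fin 2) ≃ᵐ (I × I) × I where
  toFun x := tri x 0 1
  invFun z := fun A => if A = s1 0 then z.1.1 else if A = s1 1 then z.1.2 else z.2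
  left_inv x := by
    funext A
    rcases cases2 A with rfl | rfl | rfl
    · rfl
    · rfl
    · rfl
  right_inv z := rfl
  measurable_toFun := (tri_mp (by decide)).measurable
  measurable_invFun := by
    refine measurable_pi_lambda _ fun A => ?_
    change Measurable fun z : (I × I) × I =>
      if A = s1 0 then z.1.1 else if A = s1 1 then z.1.2 else z.2
    split_ifs <;> fun_prop

theorem eqv_mp : MeasurePreserving eqv volume volume := tri_mp (by decide)

theorem eqv_pull {V : Type} [DecidableEq V] (α : Fin 2 ↪ V) (x : EE V) :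
    eqv (pull α x) = tri x (α 0) (α 1) := by
  have e : (⟨(s2 (0 : Fin 2) 1).1.map α, (s2 (0 : Fin 2) 1).2.map⟩ : R V) = s2 (α 0) (α 1) :=
    Subtype.ext (by simp [s2])
  change ((x (s1 (α 0)), x (s1 (α 1))), x ⟨(s2 (0 : Fin 2) 1).1.map α, _⟩) = _
  rw [e]
  rfl

theorem mem_Tind {V : Type} [DecidableEq V] (E : V → V → Prop) (M : Set ((I × I) × I))
    (x : EE V) : x ∈ Tind E (eqv ⁻¹' M) ↔ ∀ u v, u ≠ v → (tri x u v ∈ M ↔ E u v) := by
  constructor
  · intro h u v huv
    have := h ⟨![u, v], by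
      intro a b hab
      fin_cases a <;> fin_cases b <;> simp_all [eq_comm]⟩
    rw [mem_preimage, eqv_pull] at this
    exact this
  · intro h α
    rw [mem_preimage, eqv_pull]
    exact h _ _ (α.injective.ne (by decide))

theorem diag_null (n : ℕ) : volume (diag (Fin n)) = 0 := by
  have hd : volume {p : I × I | p.1 = p.2} = 0 := by
    refine Measure.measure_prod_null_of_ae_null (measurableSet_eq_fun measurable_fst measurable_snd)
      (Eventually.of_forall fun x => ?_)
    have : Prod.mk x ⁻¹' {p : I × I | p.1 = p.2} = {x} := by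
      ext y; simp [eq_comm]
    simp [this]
  refine measure_mono_null (t := ⋃ i : Fin n, ⋃ j : Fin n, ⋃ _ : i ≠ j,
    (fun x : EE (Fin n) => (x (s1 i), x (s1 j))) ⁻¹' {p : I × I | p.1 = p.2}) ?_ ?_
  · rintro x ⟨i, j, hij, h⟩
    exact mem_iUnion.mpr ⟨i, mem_iUnion.mpr ⟨j, mem_iUnion.mpr ⟨hij, h⟩⟩⟩
  · refine measure_iUnion_null fun i => measure_iUnion_null fun j => measure_iUnion_null fun h => ?_
    exact (mp2 (s1_ne h)).quasiMeasurePreserving.preimage_null hd

theorem weak_of_strong {N : Set (EE (Fin 2))} (h : StrongOn N) : WeakOn N :=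
  fun n E h1 h2 => measure_mono_null (h n E h1 h2) (diag_null n)

/-- Exchange of the two vertex coordinates. -/
def sw (z : (I × I) × I) : (I × I) × I := Prod.map Prod.swap id z

theorem sw_mp : MeasurePreserving sw volume volume :=
  (Measure.measurePreserving_swap (μ := (volume : Measure I)) (ν := volume)).prod
    (MeasurePreserving.id (volume : Measure I))

theorem tri_swap {V : Type} [DecidableEq V] (x : EE V) (u v : V) : tri x v u = sw (tri x u v) := by
  simp [tri, sw, s2_comm u v]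

/-- The ten coordinates used by a four-vertex graph. -/
def idx : Fin 4 ⊕ Fin 6 → R (Fin 4) :=
  Sum.elim s1 ![s2 0 1, s2 0 3, s2 2 1, s2 2 3, s2 0 2, s2 1 3]

theorem idx_inj : Function.Injective idx := by decide

theorem theta_mp : MeasurePreserving
    (fun x : EE (Fin 4) => ((fun v => x (idx (Sum.inl v)), fun k => x (idx (Sum.inr k))) :
      (Fin 4 → I) × (Fin 6 → I))) volume volume :=
  (volume_measurePreserving_sumPiEquivProdPi (fun _ : Fin 4 ⊕ Fin 6 => I)).comp (mp_precomp idx_inj)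

theorem measurableSet_T1 {N : Set ((I × I) × I)} (hN : MeasurableSet N) : MeasurableSet (T1 N) := by
  have h : ∀ (a b : Fin 4) (k : Fin 6), MeasurableSet
      {z : (Fin 4 → I) × (Fin 6 → I) | ((z.1 a, z.1 b), z.2 k) ∈ N} := fun a b k =>
    (by fun_prop : Measurable fun z : (Fin 4 → I) × (Fin 6 → I) => ((z.1 a, z.1 b), z.2 k)) hN
  exact (h 0 1 0).inter ((h 0 3 1).inter ((h 2 1 2).inter ((h 2 3 3).inter
    ((h 0 2 4).compl.inter (h 1 3 5).compl))))

theorem main {N : Set (EE (Fin 2))} (hN : NullMeasurableSet N volume) (hw : WeakOn N) :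
    ∃ N' : Set (EE (Fin 2)), MeasurableSet N' ∧ StrongOn N' ∧ volume (N ∆ N') = 0 := by
  obtain ⟨M, rfl⟩ : ∃ M : Set ((I × I) × I), N = eqv ⁻¹' M :=
    ⟨eqv.symm ⁻¹' N, by ext x; simp⟩
  have hM : NullMeasurableSet M volume := by
    have := hN.preimage (eqv_mp.symm eqv).quasiMeasurePreserving
    rwa [← preimage_comp, show eqv ∘ eqv.symm = id from funext eqv.apply_symm_apply,
      preimage_id] at this
  have hsym : ∀ᵐ z : (I × I) × I, z ∈ M → sw z ∈ M := by
    have h1 := hw 2 (fun u v => u = 0 ∧ v = 1) (by unfold Canonical; decide)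
      (fun h => absurd (h.2.1 0 1 ⟨rfl, rfl⟩).1 (by decide))
    have h2 : volume (eqv ⁻¹' {z | ¬ (z ∈ M → sw z ∈ M)}) = 0 := by
      refine measure_mono_null (fun x hx => ?_) h1
      rw [mem_Tind]
      have hx' : tri x 0 1 ∈ M ∧ sw (tri x 0 1) ∉ M := Classical.not_imp.mp hx
      rw [← tri_swap] at hx'
      intro u v huv
      fin_cases u <;> fin_cases v
      · exact absurd rfl huv
      · exact ⟨fun _ => ⟨rfl, rfl⟩, fun _ => hx'.1⟩
      · exact ⟨fun h => absurd h hx'.2, fun h => absurd h.1 (by decide)⟩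
      · exact absurd rfl huv
    rw [eqv_mp.measure_preimage_equiv] at h2
    exact h2
  obtain ⟨M1, -, hM1, hae⟩ := hM.exists_measurable_subset_ae_eq
  let M0 : Set ((I × I) × I) := M1 ∩ sw ⁻¹' M1
  have hM0 : MeasurableSet M0 := hM1.inter (sw_mp.measurable hM1)
  have sM0 : ∀ x y t, ((x, y), t) ∈ M0 → ((y, x), t) ∈ M0 := fun x y t h => ⟨h.2, h.1⟩
  have hae1 : ∀ᵐ z : (I × I) × I, z ∈ M1 ↔ z ∈ M := eventuallyEq_set.mp hae
  have hae0 : ∀ᵐ z : (I × I) × I, z ∈ M0 ↔ z ∈ M := by
    filter_upwards [hae1, sw_mp.quasiMeasurePreserving.ae hae1, hsym] with z a b c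
    exact ⟨fun h => a.mp h.1, fun h => ⟨a.mpr h, b.mpr (c h)⟩⟩
  have hT : volume (T1 M0) = 0 := by
    rw [← theta_mp.measure_preimage (measurableSet_T1 hM0).nullMeasurableSet]
    have h1 := hw 4 (fun u v => u + 1 = v ∨ v + 1 = u) (by unfold Canonical; decide)
      (fun h => h.2.2 ⟨0, 1, 2, 3, by decide⟩)
    have h2 : ∀ᵐ x : EE (Fin 4), ∀ u v : Fin 4, u ≠ v → (tri x u v ∈ M0 ↔ tri x u v ∈ M) := by
      refine ae_all_iff.mpr fun u => ae_all_iff.mpr fun v => ?_
      by_cases huv : u = v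
      · exact Eventually.of_forall fun x h => absurd huv h
      · filter_upwards [(tri_mp huv).quasiMeasurePreserving.ae hae0] with x hx _
        exact hx
    rw [measure_eq_zero_iff_ae_notMem] at h1 ⊢
    filter_upwards [h1, h2] with x b1 b2
    rintro ⟨a1, a2, a3, a4, a5, a6⟩
    apply b1
    rw [mem_Tind]
    have sy : ∀ u v, tri x u v ∈ M0 → tri x v u ∈ M0 := fun u v h => by
      rw [tri_swap]; exact sM0 _ _ _ h
    intro u v huv
    rw [← b2 u v huv]
    change tri x 0 1 ∈ M0 at a1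
    change tri x 0 3 ∈ M0 at a2
    change tri x 2 1 ∈ M0 at a3
    change tri x 2 3 ∈ M0 at a4
    change tri x 0 2 ∉ M0 at a5
    change tri x 1 3 ∉ M0 at a6
    fin_cases u <;> fin_cases v
    · exact absurd rfl huv
    · exact ⟨fun _ => by decide, fun _ => a1⟩
    · exact ⟨fun h => absurd h a5, fun h => absurd h (by decide)⟩
    · exact ⟨fun _ => by decide, fun _ => a2⟩
    · exact ⟨fun _ => by decide, fun _ => sy _ _ a1⟩
    · exact absurd rfl huv
    · exact ⟨fun _ => by decide, fun _ => sy _ _ a3⟩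
    · exact ⟨fun h => absurd h a6, fun h => absurd h (by decide)⟩
    · exact ⟨fun h => absurd (sy _ _ h) a5, fun h => absurd h (by decide)⟩
    · exact ⟨fun _ => by decide, fun _ => a3⟩
    · exact absurd rfl huv
    · exact ⟨fun _ => by decide, fun _ => a4⟩
    · exact ⟨fun _ => by decide, fun _ => sy _ _ a2⟩
    · exact ⟨fun h => absurd (sy _ _ h) a6, fun h => absurd h (by decide)⟩
    · exact ⟨fun _ => by decide, fun _ => sy _ _ a4⟩
    · exact absurd rfl huv
  obtain ⟨M', hM', sM', aM', hno⟩ := mid hM0 sM0 hT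
  refine ⟨eqv ⁻¹' M', eqv.measurable hM', ?_, ?_⟩
  · intro n E hE hmod x hx
    exfalso
    rw [mem_Tind] at hx
    have sy : ∀ u v, tri x u v ∈ M' → tri x v u ∈ M' := fun u v h => by
      rw [tri_swap]; exact sM' _ _ _ h
    refine hmod ⟨hE, fun u v h => ?_, ?_⟩
    · have huv : u ≠ v := fun e => hE v (e ▸ h)
      exact (hx v u huv.symm).mp (sy _ _ ((hx u v huv).mpr h))
    · rintro ⟨a, b, c, d, ab, ac, ad, bc, bd, cd, e1, e2, e3, e4, n1, n2⟩
      exact hno (![x (s1 a), x (s1 b), x (s1 c), x (s1 d)],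
        ![x (s2 a b), x (s2 a d), x (s2 c b), x (s2 c d), x (s2 a c), x (s2 b d)])
        ⟨(hx a b ab).mpr e1, sy _ _ ((hx d a ad.symm).mpr e4), sy _ _ ((hx b c bc).mpr e2),
          (hx c d cd).mpr e3, fun h => n1 ((hx a c ac).mp h), fun h => n2 ((hx b d bd).mp h)⟩
  · rw [measure_symmDiff_eq_zero_iff]
    refine eventuallyEq_set.mpr ?_
    filter_upwards [eqv_mp.quasiMeasurePreserving.ae hae0, eqv_mp.quasiMeasurePreserving.ae aM']
      with x a b
    exact a.symm.trans b.symm

end Pool.Agent.H486Z.Theon
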